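import Pool.Agent.H21.JR.CombX

/-!
# Module FinX (about 110 lines): the classification statements

PROOFS. `iff_D`: (⇒) `necessary` (Pool/Agent/H4/JKx.lean). (⇐) the first two alternatives by `realisable_all`; in the third apply
`engine` with `l s = if T.2.count s = 1 then 1 else 0`: for a bad `s` with count `1`: `1 - 1 = 0` is in the closure; otherwise the count is in
the closure by `hc`. The sum: `∑ s ∈ (T.2.filter Bad).toFinset, (if T.2.count s = 1 then 1 else 0)` is the number of the `s` in the toFinset with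
count `1` (`Finset.sum_boole`), which is the cardinality of the multiset `T.2.filter fun s => Bad s ∧ T.2.count s = 1` (it is `Nodup`:
`Multiset.nodup_iff_count_le_one`, and its toFinset is that filter; `Multiset.toFinset_card_of_nodup`).
`iff_ab`: `iff_D` with `D = {(a, 2), (b, 3)}`: every `m ≥ 2` is `2 x + 3 y` (`m` even: `m / 2` times `2`; `m` odd: `3 + 2 * ((m-3)/2)`), so it is
in the closure (`AddSubmonoid.subset_closure`, `nsmul_mem`, `add_mem`); the count of a member is `≥ 1`.
`iff_zero`: the case `T.1 ≤ {0}` of Pool/Agent/Results/MP_0fcc55_al/DistinctBadGroups.lean (copy the proof).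
-/

namespace Pool.Agent.H21.JR

open Pool.Agent.H4.JK

open Classical in
theorem iff_D (T : Multiset ℕ × Multiset (Multiset ℕ)) (hT : IsType T) (D : Multiset (ℕ × ℕ))
    (hD : D.map Prod.fst ≤ T.1) (hD2 : ∀ d ∈ D, 2 ≤ d.1 ∧ 2 ≤ d.2 ∧ d.1 + 1 ≤ 2 * d.2)
    (hc : ∀ s ∈ T.2, Bad s → T.2.count s = 1 ∨
      T.2.count s ∈ AddSubmonoid.closure {N | ∃ d ∈ D, d.2 = N}) :
    Realisable T ↔ (1 ∈ T.1 ∨ 2 ≤ T.1.count 0 ∨
      (T.2.filter fun s => Bad s ∧ T.2.count s = 1).card ≤ (T.1.map (· + 1)).sum) := by
  constructor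
  · intro h
    rcases necessary T h with h | h | ⟨h1, -⟩
    · exact Or.inl h
    · exact Or.inr (Or.inl h)
    · exact Or.inr (Or.inr h1)
  · rintro (h | h | h)
    · exact realisable_all T hT (Or.inl h)
    · exact realisable_all T hT (Or.inr (Or.inl h))
    · refine engine T hT D hD hD2 (fun s => if T.2.count s = 1 then 1 else 0) ?_ ?_
      · intro s hs hb
        by_cases h1 : T.2.count s = 1
        · simp only [h1, if_true, le_refl, Nat.sub_self, true_and]
          exact zero_mem _
        · simp only [h1, if_false, Nat.zero_le, Nat.sub_zero, true_and]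
          rcases hc s hs hb with h2 | h2
          · exact absurd h2 h1
          · exact h2
      · refine le_trans (le_of_eq ?_) h
        have hnd : (T.2.filter fun s => Bad s ∧ T.2.count s = 1).Nodup := by
          rw [Multiset.nodup_iff_count_le_one]
          intro s
          rw [Multiset.count_filter]
          split_ifs with h1
          · exact h1.2.le
          · exact Nat.zero_le _
        have h2 : (T.2.filter fun s => Bad s ∧ T.2.count s = 1).toFinset =
            (T.2.filter Bad).toFinset.filter (fun s => T.2.count s = 1) := by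
          ext s
          simp only [Multiset.mem_toFinset, Multiset.mem_filter, Finset.mem_filter]
          tauto
        rw [← Multiset.toFinset_card_of_nodup hnd, h2, Finset.card_filter]

open Classical in
theorem iff_ab (T : Multiset ℕ × Multiset (Multiset ℕ)) (hT : IsType T) (a b : ℕ)
    (hab : ({a, b} : Multiset ℕ) ≤ T.1) (ha : 2 ≤ a) (ha' : a ≤ 3) (hb : 2 ≤ b) (hb' : b ≤ 5) :
    Realisable T ↔ (1 ∈ T.1 ∨ 2 ≤ T.1.count 0 ∨
      (T.2.filter fun s => Bad s ∧ T.2.count s = 1).card ≤ (T.1.map (· + 1)).sum) := by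
  have hpair : ∀ m : ℕ, 2 ≤ m → m ∈ AddSubmonoid.closure
      {N | ∃ d ∈ ({(a, 2), (b, 3)} : Multiset (ℕ × ℕ)), d.2 = N} := by
    intro m hm
    have h2 : (2 : ℕ) ∈ AddSubmonoid.closure
        {N | ∃ d ∈ ({(a, 2), (b, 3)} : Multiset (ℕ × ℕ)), d.2 = N} :=
      AddSubmonoid.subset_closure ⟨(a, 2), by simp, rfl⟩
    have h3 : (3 : ℕ) ∈ AddSubmonoid.closure
        {N | ∃ d ∈ ({(a, 2), (b, 3)} : Multiset (ℕ × ℕ)), d.2 = N} :=
      AddSubmonoid.subset_closure ⟨(b, 3), by simp, rfl⟩
    rcases Nat.even_or_odd m with ⟨c, hc⟩ | ⟨c, hc⟩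
    · have h4 := nsmul_mem h2 c
      have e : c • 2 = m := by rw [smul_eq_mul]; omega
      rw [e] at h4
      exact h4
    · have h4 := add_mem h3 (nsmul_mem h2 (c - 1))
      have e : 3 + (c - 1) • 2 = m := by rw [smul_eq_mul]; omega
      rw [e] at h4
      exact h4
  refine iff_D T hT {(a, 2), (b, 3)} ?_ ?_ ?_
  · have e : ({(a, 2), (b, 3)} : Multiset (ℕ × ℕ)).map Prod.fst = {a, b} := by simp
    rw [e]
    exact hab
  · intro d hd
    simp only [Multiset.insert_eq_cons, Multiset.mem_cons, Multiset.mem_singleton] at hd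
    rcases hd with rfl | rfl
    · exact ⟨ha, le_refl _, by simp only; omega⟩
    · exact ⟨hb, by norm_num, by simp only; omega⟩
  · intro s hs _
    have h1 := Multiset.count_pos.2 hs
    by_cases h2 : T.2.count s = 1
    · exact Or.inl h2
    · exact Or.inr (hpair _ (by omega))

open Classical in
theorem iff_zero (T : Multiset ℕ × Multiset (Multiset ℕ)) (hT : IsType T) (h0 : T.1 ≤ {0}) :
    Realisable T ↔
      (1 ∈ T.1 ∨ 2 ≤ T.1.count 0 ∨ (T.2.filter Bad).card ≤ (T.1.map (· + 1)).sum) := by
  refine ⟨fun h => ?_, realisable_all T hT⟩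
  rcases necessary T h with h | h | ⟨-, h2⟩
  · exact Or.inl h
  · exact Or.inr (Or.inl h)
  · exact Or.inr (Or.inr (h2 h0))

end Pool.Agent.H21.JR
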