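import Pool.Agent.H21.JR.ZSol
import Pool.Agent.H4.JKx

/-!
# Module Zed (about 120 lines): skew forms on the Kronecker part are eliminated by the pencil

PROOF. Let `kk i` be the number `k` if `bl i = .kron k` and `0` otherwise (or work with the subtype of the Kronecker
indices). For `i` with `bl i = .kron k` write `h i r = bP ⟨i, r⟩`, `r < k`, and `v i c = bQ ⟨i, c⟩`, `c ≤ k`; `PA` and `PB` of
`.kron k` are `bidiag k (k+1) 1 0` and `bidiag k (k+1) 0 1`, so `X (h i r) = v i r` and `Y (h i r) = v i (r+1)`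
(`bid_sum_10`, `bid_sum_01` of Pool/Agent/H4/JKh.lean or directly). Apply `zsolve` to
`EA i r i' r' = EX (h i r) (h i' r')` if both indices are Kronecker indices and `r`, `r'` are in range, otherwise 0, and `EB` with
`EY`. Define `Z` by `Z (bP ⟨i', r'⟩) (bQ ⟨i, c⟩) = z i c i' r'` if `i`, `i'` are Kronecker indices and `0` otherwise
(`Basis.constr` twice). Both sides of the claims are bilinear in `(h, h')`, so it suffices to check them on the
basis vectors (`Basis.ext` twice). Both Kronecker: the two equations of `zsolve`. One of them Jordan: the left side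
vanishes by `h0` and skewness, the right side vanishes because `Z` of a Jordan basis vector is `0`, and `X`, `Y` of a
Jordan basis vector are combinations of the vectors `bQ ⟨i, c⟩` with the same Jordan index `i`, on which all
functionals `Z h'` vanish.
-/

namespace Pool.Agent.H21.JR

open Module Pool.Agent.H4.JK

private def Zed_isK (b : Block) : Prop := ∃ k, b = .kron k

private theorem Zed_PA (b : Block) (hb : Zed_isK b) (r : Fin b.rows) (v : ℕ → ℂ) :
    ∑ c : Fin b.cols, b.PA r c * v c = v r ∧ ∑ c : Fin b.cols, b.PB r c * v c = v (r + 1) := by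
  obtain ⟨k, rfl⟩ := hb
  have hr : (r : ℕ) < k := r.2
  refine ⟨?_, ?_⟩
  · have h1 := bid_sum_10 k (k + 1) r v (by omega)
    simp only [smul_eq_mul] at h1
    exact h1
  · have h1 := bid_sum_01 k (k + 1) r v (by omega)
    simp only [smul_eq_mul] at h1
    exact h1

theorem zed {P Q : Type} [AddCommGroup P] [Module ℂ P] [AddCommGroup Q] [Module ℂ Q]
    {X Y : P →ₗ[ℂ] Q} {ι : Type} [Fintype ι] (bl : ι → Block)
    (bP : Basis (Σ i, Fin (bl i).rows) ℂ P) (bQ : Basis (Σ i, Fin (bl i).cols) ℂ Q)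
    (hb : ∀ i r, X (bP ⟨i, r⟩) = ∑ c, (bl i).PA r c • bQ ⟨i, c⟩ ∧
      Y (bP ⟨i, r⟩) = ∑ c, (bl i).PB r c • bQ ⟨i, c⟩)
    (EX EY : P →ₗ[ℂ] P →ₗ[ℂ] ℂ) (hEX : ∀ h h', EX h h' = - EX h' h)
    (hEY : ∀ h h', EY h h' = - EY h' h)
    (h0 : ∀ i r, (∀ k, bl i ≠ .kron k) → EX (bP ⟨i, r⟩) = 0 ∧ EY (bP ⟨i, r⟩) = 0) :
    ∃ Z : P →ₗ[ℂ] Dual ℂ Q, ∀ h h',
      EX h h' = Z h' (X h) - Z h (X h') ∧ EY h h' = Z h' (Y h) - Z h (Y h') := by
  classical
  set hh : ι → ℕ → P := fun i r =>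
    if h : r < (bl i).rows ∧ Zed_isK (bl i) then bP ⟨i, ⟨r, h.1⟩⟩ else 0 with hhh
  have hhv : ∀ i (r : Fin (bl i).rows), Zed_isK (bl i) → hh i r = bP ⟨i, r⟩ := by
    intro i r hK
    rw [hhh]
    exact dif_pos ⟨r.2, hK⟩
  obtain ⟨z, hz⟩ := zsolve (fun i r i' r' => EX (hh i r) (hh i' r'))
    (fun i r i' r' => EY (hh i r) (hh i' r')) (fun _ _ _ _ => hEX _ _) (fun _ _ _ _ => hEY _ _)
  set ζ : ι → ℕ → ι → ℕ → ℂ := fun i c i' r' =>
    if Zed_isK (bl i) ∧ Zed_isK (bl i') then z i c i' r' else 0 with hζ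
  set Z : P →ₗ[ℂ] Q →ₗ[ℂ] ℂ := bP.constr ℂ (fun p' => bQ.constr ℂ fun q =>
    ζ q.1 q.2 p'.1 p'.2) with hZ
  have hZb : ∀ i' (r' : Fin (bl i').rows) i (c : Fin (bl i).cols),
      Z (bP ⟨i', r'⟩) (bQ ⟨i, c⟩) = ζ i c i' r' := by
    intro i' r' i c
    rw [hZ, Basis.constr_basis, Basis.constr_basis]
  have hZX : ∀ i' (r' : Fin (bl i').rows) i (r : Fin (bl i).rows),
      Z (bP ⟨i', r'⟩) (X (bP ⟨i, r⟩)) = ζ i r i' r' ∧
        Z (bP ⟨i', r'⟩) (Y (bP ⟨i, r⟩)) = ζ i (r + 1) i' r' := by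
    intro i' r' i r
    rw [(hb i r).1, (hb i r).2]
    simp only [map_sum, map_smul, smul_eq_mul, hZb]
    by_cases hK : Zed_isK (bl i)
    · exact Zed_PA (bl i) hK r fun c => ζ i c i' r'
    · have h0' : ∀ c, ζ i c i' r' = 0 := fun c => if_neg fun h => hK h.1
      simp only [h0', mul_zero, Finset.sum_const_zero, and_self]
  have hbas : ∀ i (r : Fin (bl i).rows) i' (r' : Fin (bl i').rows),
      EX (bP ⟨i, r⟩) (bP ⟨i', r'⟩) = ζ i r i' r' - ζ i' r' i r ∧
        EY (bP ⟨i, r⟩) (bP ⟨i', r'⟩) = ζ i (r + 1) i' r' - ζ i' (r' + 1) i r := by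
    intro i r i' r'
    by_cases hK : Zed_isK (bl i)
    · by_cases hK' : Zed_isK (bl i')
      · have h1 : ∀ c d, ζ i c i' d = z i c i' d := fun c d => if_pos ⟨hK, hK'⟩
        have h2 : ∀ c d, ζ i' c i d = z i' c i d := fun c d => if_pos ⟨hK', hK⟩
        have h3 := hz i r i' r'
        simp only [hhv i r hK, hhv i' r' hK'] at h3
        rw [h1, h2, h1, h2]
        exact h3
      · have h1 : ∀ c d, ζ i c i' d = 0 := fun c d => if_neg fun h => hK' h.2
        have h2 : ∀ c d, ζ i' c i d = 0 := fun c d => if_neg fun h => hK' h.1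
        have h3 := h0 i' r' fun k hk => hK' ⟨k, hk⟩
        rw [h1, h2, h1, h2, hEX, hEY, h3.1, h3.2]
        simp
    · have h1 : ∀ c d, ζ i c i' d = 0 := fun c d => if_neg fun h => hK h.1
      have h2 : ∀ c d, ζ i' c i d = 0 := fun c d => if_neg fun h => hK h.2
      have h3 := h0 i r fun k hk => hK ⟨k, hk⟩
      rw [h1, h2, h1, h2, h3.1, h3.2]
      simp
  have hX : EX = Z.flip ∘ₗ X - Z.compl₂ X := by
    refine LinearMap.ext_basis bP bP ?_
    rintro ⟨i, r⟩ ⟨i', r'⟩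
    rw [LinearMap.sub_apply, LinearMap.sub_apply, LinearMap.comp_apply, LinearMap.flip_apply,
      LinearMap.compl₂_apply, (hZX i' r' i r).1, (hZX i r i' r').1]
    exact (hbas i r i' r').1
  have hY : EY = Z.flip ∘ₗ Y - Z.compl₂ Y := by
    refine LinearMap.ext_basis bP bP ?_
    rintro ⟨i, r⟩ ⟨i', r'⟩
    rw [LinearMap.sub_apply, LinearMap.sub_apply, LinearMap.comp_apply, LinearMap.flip_apply,
      LinearMap.compl₂_apply, (hZX i' r' i r).2, (hZX i r i' r').2]
    exact (hbas i r i' r').2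
  refine ⟨Z, fun h h' => ⟨?_, ?_⟩⟩
  · have h1 := LinearMap.congr_fun (LinearMap.congr_fun hX h) h'
    rw [LinearMap.sub_apply, LinearMap.sub_apply, LinearMap.comp_apply, LinearMap.flip_apply,
      LinearMap.compl₂_apply] at h1
    exact h1
  · have h1 := LinearMap.congr_fun (LinearMap.congr_fun hY h) h'
    rw [LinearMap.sub_apply, LinearMap.sub_apply, LinearMap.comp_apply, LinearMap.flip_apply,
      LinearMap.compl₂_apply] at h1
    exact h1

end Pool.Agent.H21.JR
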