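import Pool.Agent.H21.JR.Syl
import Pool.Agent.H21.JR.Zed

/-!
# Module Dcp (about 100 lines): decoupling

PROOFS. `decouple`: take `T`, `Sg` from `sylv` and `Z` from `zed` for `EX h h' = - RX (T h) (T h')`,
`EY h h' = - RY (T h) (T h')`. `Φ (h, e, w) = ((h, e + Sg w + Z h), w + T h)`, with inverse
`((h, e), w) ↦ (h, e - Sg (w - T h) - Z h, w - T h)`. Check for `X`:
`(e' + Sg w' + Z h') (X h) - (e + Sg w + Z h) (X h') + RX (w + T h) (w' + T h')`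
`= e' (X h) - e (X h') + (Sg w' (X h) + RX (T h) w') - (Sg w (X h') + RX (T h') w) + RX w w' +
(Z h' (X h) - Z h (X h')) + RX (T h) (T h')` (skewness: `RX w (T h') = - RX (T h') w`), and the last line vanishes.
`dec_prod`: the product of the two linear equivalences, `LinearEquiv.sumPiEquivProdPi`-like (write the map
`(v1, v2) ↦ Sum.rec (φ1 v1) (φ2 v2)` with its inverse), `Fintype.sum_sum_type`.
-/

namespace Pool.Agent.H21.JR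

open Module Pool.Agent.H4.JK

/-- the change of coordinates -/
private def Dcp_equiv {P Q W : Type} [AddCommGroup P] [Module ℂ P] [AddCommGroup Q] [Module ℂ Q]
    [AddCommGroup W] [Module ℂ W] (T : P →ₗ[ℂ] W) (Sg : W →ₗ[ℂ] Dual ℂ Q)
    (Z : P →ₗ[ℂ] Dual ℂ Q) : (P × Dual ℂ Q × W) ≃ₗ[ℂ] ((P × Dual ℂ Q) × W) where
  toFun ξ := ((ξ.1, ξ.2.1 + Sg ξ.2.2 + Z ξ.1), ξ.2.2 + T ξ.1)
  map_add' ξ η := by
    simp only [Prod.fst_add, Prod.snd_add, map_add, Prod.mk_add_mk]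
    refine Prod.ext (Prod.ext rfl ?_) ?_
    · dsimp only
      abel
    · dsimp only
      abel
  map_smul' c ξ := by
    simp only [Prod.smul_fst, Prod.smul_snd, map_smul, RingHom.id_apply, Prod.smul_mk, smul_add]
  invFun η := (η.1.1, η.1.2 - Sg (η.2 - T η.1.1) - Z η.1.1, η.2 - T η.1.1)
  left_inv ξ := by
    simp only [add_sub_cancel_right]
    refine Prod.ext rfl (Prod.ext ?_ rfl)
    dsimp only
    abel
  right_inv η := by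
    simp only [sub_add_cancel]
    refine Prod.ext (Prod.ext rfl ?_) rfl
    dsimp only
    abel

private theorem Dcp_calc {P Q W : Type} [AddCommGroup P] [Module ℂ P] [AddCommGroup Q]
    [Module ℂ Q] [AddCommGroup W] [Module ℂ W] {X : P →ₗ[ℂ] Q} {QX : P →ₗ[ℂ] W →ₗ[ℂ] ℂ}
    {RX : W →ₗ[ℂ] W →ₗ[ℂ] ℂ} (hRX : ∀ w w', RX w w' = - RX w' w) {T : P →ₗ[ℂ] W}
    {Sg : W →ₗ[ℂ] Dual ℂ Q} {Z : P →ₗ[ℂ] Dual ℂ Q}
    (hQ : ∀ h w, QX h w = Sg w (X h) + RX (T h) w)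
    (hZ : ∀ h h', - RX (T h) (T h') = Z h' (X h) - Z h (X h')) (ξ η : P × Dual ℂ Q × W) :
    (η.2.1 (X ξ.1) - ξ.2.1 (X η.1)) + (QX ξ.1 η.2.2 - QX η.1 ξ.2.2) + RX ξ.2.2 η.2.2 =
      ((Dcp_equiv T Sg Z η).1.2 (X (Dcp_equiv T Sg Z ξ).1.1) -
        (Dcp_equiv T Sg Z ξ).1.2 (X (Dcp_equiv T Sg Z η).1.1)) +
        RX (Dcp_equiv T Sg Z ξ).2 (Dcp_equiv T Sg Z η).2 := by
  obtain ⟨h, e, w⟩ := ξ
  obtain ⟨h', e', w'⟩ := η
  change (e' (X h) - e (X h')) + (QX h w' - QX h' w) + RX w w' =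
    ((e' + Sg w' + Z h') (X h) - (e + Sg w + Z h) (X h')) + RX (w + T h) (w' + T h')
  rw [hQ, hQ]
  simp only [LinearMap.add_apply, map_add]
  have h1 := hZ h h'
  have h2 := hRX w (T h')
  linear_combination h1 - h2

theorem decouple {P Q W : Type} [AddCommGroup P] [Module ℂ P] [AddCommGroup Q] [Module ℂ Q]
    [AddCommGroup W] [Module ℂ W] {X Y : P →ₗ[ℂ] Q} {ι : Type} [Fintype ι] (bl : ι → Block)
    (bP : Basis (Σ i, Fin (bl i).rows) ℂ P) (bQ : Basis (Σ i, Fin (bl i).cols) ℂ Q)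
    (hb : ∀ i r, X (bP ⟨i, r⟩) = ∑ c, (bl i).PA r c • bQ ⟨i, c⟩ ∧
      Y (bP ⟨i, r⟩) = ∑ c, (bl i).PB r c • bQ ⟨i, c⟩)
    (QX QY : P →ₗ[ℂ] W →ₗ[ℂ] ℂ)
    (hQ : ∀ i r, (∀ k, bl i ≠ .kron k) → QX (bP ⟨i, r⟩) = 0 ∧ QY (bP ⟨i, r⟩) = 0)
    (RX RY : W →ₗ[ℂ] W →ₗ[ℂ] ℂ) (hRX : ∀ w w', RX w w' = - RX w' w)
    (hRY : ∀ w w', RY w w' = - RY w' w) (hsur : ∀ f : W →ₗ[ℂ] ℂ, ∃ w, RX w = f) :
    ∃ Φ : (P × Dual ℂ Q × W) ≃ₗ[ℂ] ((P × Dual ℂ Q) × W), ∀ ξ η : P × Dual ℂ Q × W,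
      ((η.2.1 (X ξ.1) - ξ.2.1 (X η.1)) + (QX ξ.1 η.2.2 - QX η.1 ξ.2.2) + RX ξ.2.2 η.2.2 =
        ((Φ η).1.2 (X (Φ ξ).1.1) - (Φ ξ).1.2 (X (Φ η).1.1)) + RX (Φ ξ).2 (Φ η).2) ∧
      ((η.2.1 (Y ξ.1) - ξ.2.1 (Y η.1)) + (QY ξ.1 η.2.2 - QY η.1 ξ.2.2) + RY ξ.2.2 η.2.2 =
        ((Φ η).1.2 (Y (Φ ξ).1.1) - (Φ ξ).1.2 (Y (Φ η).1.1)) + RY (Φ ξ).2 (Φ η).2) := by
  obtain ⟨T, Sg, hT0, hTS⟩ := sylv bl bP bQ hb QX QY hQ RX RY hsur
  obtain ⟨Z, hZ⟩ := zed bl bP bQ hb (-(RX.compl₁₂ T T)) (-(RY.compl₁₂ T T))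
    (fun h h' => by
      simp only [LinearMap.neg_apply, LinearMap.compl₁₂_apply]
      rw [hRX (T h) (T h')])
    (fun h h' => by
      simp only [LinearMap.neg_apply, LinearMap.compl₁₂_apply]
      rw [hRY (T h) (T h')])
    (fun i r hk => by
      have h0 := hT0 i r hk
      constructor
      · ext h'
        simp only [LinearMap.neg_apply, LinearMap.compl₁₂_apply, h0, map_zero,
          LinearMap.zero_apply, neg_zero]
      · ext h'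
        simp only [LinearMap.neg_apply, LinearMap.compl₁₂_apply, h0, map_zero,
          LinearMap.zero_apply, neg_zero])
  refine ⟨Dcp_equiv T Sg Z, fun ξ η => ⟨?_, ?_⟩⟩
  · exact Dcp_calc hRX (fun h w => (hTS h w).1) (fun h h' => by
      have := (hZ h h').1
      simpa only [LinearMap.neg_apply, LinearMap.compl₁₂_apply] using this) ξ η
  · exact Dcp_calc hRY (fun h w => (hTS h w).2) (fun h h' => by
      have := (hZ h h').2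
      simpa only [LinearMap.neg_apply, LinearMap.compl₁₂_apply] using this) ξ η

theorem dec_prod {V1 V2 : Type} [AddCommGroup V1] [Module ℂ V1] [AddCommGroup V2] [Module ℂ V2]
    {A1 B1 : V1 → V1 → ℂ} {A2 B2 : V2 → V2 → ℂ} {ι1 ι2 : Type} [Fintype ι1] [Fintype ι2]
    {bl1 : ι1 → Block} {bl2 : ι2 → Block} (h1 : Decomposes A1 B1 bl1)
    (h2 : Decomposes A2 B2 bl2) :
    Decomposes (V := V1 × V2) (fun v w => A1 v.1 w.1 + A2 v.2 w.2)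
      (fun v w => B1 v.1 w.1 + B2 v.2 w.2) (Sum.elim bl1 bl2) := by
  obtain ⟨φ1, e1⟩ := h1
  obtain ⟨φ2, e2⟩ := h2
  refine ⟨(LinearEquiv.prodCongr φ1 φ2).trans
    (LinearEquiv.sumPiEquivProdPi ℂ ι1 ι2 (fun i => W (Sum.elim bl1 bl2 i))).symm, ?_⟩
  intro v w
  refine ⟨?_, ?_⟩
  · show A1 v.1 w.1 + A2 v.2 w.2 = sumForm _ _ _ _
    unfold sumForm
    rw [Fintype.sum_sum_type, (e1 v.1 w.1).1, (e2 v.2 w.2).1]
    rfl
  · show B1 v.1 w.1 + B2 v.2 w.2 = sumForm _ _ _ _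
    unfold sumForm
    rw [Fintype.sum_sum_type, (e1 v.1 w.1).2, (e2 v.2 w.2).2]
    rfl

end Pool.Agent.H21.JR
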