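import Pool.Agent.H21.JR.XiP
import Pool.Agent.H21.JR.Dcp

/-!
# Module Abs (about 110 lines): the decomposition for the extended algebra

PROOF of `abs_dec`: `W = U × Dual ℂ U`, `U = (z : Z) → (d z).V`, `D = XD j d hd`. Apply `decouple` with
`X = MX j s`, `Y = MX j s'` (note `D.j = j`), `QX h w = f (D.A h w.1) + w.2 (D.B h y)`, `QY` the same with `f'`, `y'` (build them with
`LinearMap.mk₂`), `RX w w' = w'.2 (D.Ξ s w.1) - w.2 (D.Ξ s w'.1)`, `RY` with `s'`. `hQ`: for a Jordan index the weights `al`, `be` vanish at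
`bP ⟨i, r⟩` by `hz` (sums of differences of zeros), so `D.A`, `D.B` vanish there. `hsur`: `D.Ξ s` is bijective (`cyc_inj`,
`cyc_surj` componentwise, from `g.hx`), so for a functional `F` on `W` take `w.1` with `η ↦ η (D.Ξ s w.1)` equal to the restriction of `F` to
`Dual ℂ U` (`Module.evalEquiv` for `U`), and `w.2 = - F(·, 0) ∘ (D.Ξ s)⁻¹`. Then `hx_form` for `x` and `a`, `decouple` and `dec_prod` of
`PencilDec.decomposes` for `(MX j s, MX j s')` (given by `⟨bP, bQ, hb⟩`) and for `(D.Ξ s, D.Ξ s')` (`xi_dec`), transported by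
`Decomposes.transport` along the equivalence `Φ` of `decouple` (`HX D` is by definition `H × Dual ℂ S × U × Dual ℂ U`).
-/

namespace Pool.Agent.H21.JR

open Module Pool.Agent.H4.JK Polynomial

variable {H S : Type} [AddCommGroup H] [Module ℂ H] [CommRing S] [Algebra ℂ S]

private theorem Abs_bij {Z : Type} (d : Z → ZD S) (s s' : S)
    (t : (z : Z) → Fin ((d z).n + 1) → ℂ) (g : Gd d s s' t) :
    Function.Bijective (prO (fun z => (d z).op) s) := by
  constructor
  · intro ξ η h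
    funext z
    have h1 := congrFun h z
    rw [prO_apply, prO_apply, ZD.op_apply] at h1
    exact cyc_inj _ _ _ _ _ (g.hQx z) (g.hx z) h1
  · intro η
    have h1 : ∀ z, ∃ ξ, (d z).op s ξ = η z := by
      intro z
      rw [ZD.op_apply]
      exact cyc_surj _ _ _ _ _ (g.hQx z) (g.hx z) (η z)
    choose ξ hξ using h1
    refine ⟨ξ, ?_⟩
    funext z
    rw [prO_apply]
    exact hξ z

/-- the cross terms -/
private noncomputable def Abs_Q {U : Type} [AddCommGroup U] [Module ℂ U] (D : HD H S U)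
    (f : Dual ℂ U) (y : U) : H →ₗ[ℂ] (U × Dual ℂ U) →ₗ[ℂ] ℂ :=
  LinearMap.mk₂ ℂ (fun h w => f (D.A h w.1) + w.2 (D.B h y))
    (fun h h' w => by simp only [map_add, LinearMap.add_apply]; ring)
    (fun a h w => by simp only [map_smul, LinearMap.smul_apply, smul_eq_mul]; ring)
    (fun h w w' => by simp only [Prod.fst_add, Prod.snd_add, map_add, LinearMap.add_apply]; ring)
    (fun a h w => by
      simp only [Prod.smul_fst, Prod.smul_snd, map_smul, LinearMap.smul_apply, smul_eq_mul]; ring)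

private theorem Abs_Q_apply {U : Type} [AddCommGroup U] [Module ℂ U] (D : HD H S U)
    (f : Dual ℂ U) (y : U) (h : H) (w : U × Dual ℂ U) :
    Abs_Q D f y h w = f (D.A h w.1) + w.2 (D.B h y) := rfl

/-- the form on `W` -/
private noncomputable def Abs_R {U : Type} [AddCommGroup U] [Module ℂ U] (X : U →ₗ[ℂ] U) :
    (U × Dual ℂ U) →ₗ[ℂ] (U × Dual ℂ U) →ₗ[ℂ] ℂ :=
  LinearMap.mk₂ ℂ (fun w w' => w'.2 (X w.1) - w.2 (X w'.1))
    (fun w1 w2 w => by
      simp only [Prod.fst_add, Prod.snd_add, map_add, LinearMap.add_apply]; ring)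
    (fun a w1 w => by
      simp only [Prod.smul_fst, Prod.smul_snd, map_smul, LinearMap.smul_apply, smul_eq_mul]; ring)
    (fun w w1 w2 => by
      simp only [Prod.fst_add, Prod.snd_add, map_add, LinearMap.add_apply]; ring)
    (fun a w1 w => by
      simp only [Prod.smul_fst, Prod.smul_snd, map_smul, LinearMap.smul_apply, smul_eq_mul]; ring)

private theorem Abs_R_apply {U : Type} [AddCommGroup U] [Module ℂ U] (X : U →ₗ[ℂ] U)
    (w w' : U × Dual ℂ U) : Abs_R X w w' = w'.2 (X w.1) - w.2 (X w'.1) := rfl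

private theorem Abs_sur {U : Type} [AddCommGroup U] [Module ℂ U] [FiniteDimensional ℂ U]
    (X : U →ₗ[ℂ] U) (hX : Function.Bijective X) (F : (U × Dual ℂ U) →ₗ[ℂ] ℂ) :
    ∃ w, Abs_R X w = F := by
  let e : U ≃ₗ[ℂ] U := LinearEquiv.ofBijective X hX
  let G : Dual ℂ (Dual ℂ U) := F.comp (LinearMap.inr ℂ U (Dual ℂ U))
  let u0 : U := (Module.evalEquiv ℂ U).symm G
  have hu0 : ∀ η : Dual ℂ U, η u0 = F (0, η) := fun η =>
    Module.apply_evalEquiv_symm_apply (R := ℂ) (M := U) η G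
  refine ⟨(e.symm u0, -((F.comp (LinearMap.inl ℂ U (Dual ℂ U))).comp e.symm.toLinearMap)), ?_⟩
  refine LinearMap.ext fun w => ?_
  rw [Abs_R_apply]
  have h1 : X (e.symm u0) = u0 := e.apply_symm_apply u0
  have h2 : e.symm (X w.1) = w.1 := e.symm_apply_apply w.1
  have h3 : F w = F (w.1, 0) + F (0, w.2) := by
    rw [← map_add]
    congr 1
    simp
  simp only [h1, hu0, LinearMap.neg_apply, LinearMap.comp_apply, LinearEquiv.coe_coe, h2,
    LinearMap.inl_apply]
  rw [h3]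
  ring

private theorem Abs_zero (j : H →ₗ[ℂ] S) {Z : Type} (d : Z → ZD S)
    (hd : ∀ z, Clo j (d z)) (f : Dual ℂ ((z : Z) → (d z).V)) (y : (z : Z) → (d z).V) (h : H)
    (hz : ∀ z l, (d z).P l (j h) = 0 ∧ (d z).Q l (j h) = 0) :
    Abs_Q (XD j d hd) f y h = 0 := by
  have hal : ∀ z i, al j (d z) i h = 0 := by
    intro z i
    unfold al
    rw [LinearMap.sum_apply]
    refine Finset.sum_eq_zero fun l _ => ?_
    change (d z).Q l (j h) - (d z).P l (j h) = 0
    rw [(hz z l).1, (hz z l).2, sub_zero]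
  have hbe : ∀ z i, be j (d z) i h = 0 := by
    intro z i
    unfold be
    change (d z).P i (j h) - al j (d z) i h = 0
    rw [(hz z i).1, hal, sub_zero]
  have hA : ∀ u, (XD j d hd).A h u = 0 := by
    intro u
    change prO (fun z => dgo (al j (d z))) h u = 0
    funext z
    rw [prO_apply]
    funext i
    rw [dgo_apply, hal, zero_smul]
    rfl
  have hB : ∀ u, (XD j d hd).B h u = 0 := by
    intro u
    change prO (fun z => dgo (be j (d z))) h u = 0
    funext z
    rw [prO_apply]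
    funext i
    rw [dgo_apply, hbe, zero_smul]
    rfl
  refine LinearMap.ext fun w => ?_
  rw [Abs_Q_apply, hA, hB, map_zero, map_zero, add_zero, LinearMap.zero_apply]

theorem abs_dec [FiniteDimensional ℂ S] (j : H →ₗ[ℂ] S) {Z : Type} [Fintype Z] (d : Z → ZD S)
    (hd : ∀ z, Clo j (d z)) (x a : Dual ℂ (HX (XD j d hd))) (s s' : S)
    (f f' : Dual ℂ ((z : Z) → (d z).V)) (y y' : (z : Z) → (d z).V)
    (hx : ∀ (e : Dual ℂ S) (u : (z : Z) → (d z).V) (φ : Dual ℂ ((z : Z) → (d z).V)),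
      x ((0, e, u, φ) : H × Dual ℂ S × ((z : Z) → (d z).V) × Dual ℂ ((z : Z) → (d z).V)) =
        e s + f u + φ y)
    (ha : ∀ (e : Dual ℂ S) (u : (z : Z) → (d z).V) (φ : Dual ℂ ((z : Z) → (d z).V)),
      a ((0, e, u, φ) : H × Dual ℂ S × ((z : Z) → (d z).V) × Dual ℂ ((z : Z) → (d z).V)) =
        e s' + f' u + φ y')
    {ι : Type} [Fintype ι] (bl : ι → Block)
    (bP : Basis (Σ i, Fin (bl i).rows) ℂ H) (bQ : Basis (Σ i, Fin (bl i).cols) ℂ S)
    (hb : ∀ i r, MX j s (bP ⟨i, r⟩) = ∑ c, (bl i).PA r c • bQ ⟨i, c⟩ ∧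
      MX j s' (bP ⟨i, r⟩) = ∑ c, (bl i).PB r c • bQ ⟨i, c⟩)
    (hz : ∀ i r, (∀ k, bl i ≠ .kron k) → ∀ z l, (d z).P l (j (bP ⟨i, r⟩)) = 0 ∧
      (d z).Q l (j (bP ⟨i, r⟩)) = 0)
    (t : (z : Z) → Fin ((d z).n + 1) → ℂ) (g : Gd d s s' t) :
    Decomposes (V := HX (XD j d hd)) (fun ξ η => x ⁅ξ, η⁆) (fun ξ η => a ⁅ξ, η⁆)
      (Sum.elim bl (fun y : Σ z, Fin ((d z).n + 1) =>
        Block.jordan (some (t y.1 y.2)) ((d y.1).μ + 1))) := by
  classical
  have hxi := (xi_dec d s s' t g).decomposes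
  have hme := (show PencilDec (MX j s) (MX j s') bl from ⟨bP, bQ, hb⟩).decomposes
  have hdec := dec_prod hme hxi
  obtain ⟨Φ, hΦ⟩ := decouple (W := ((z : Z) → (d z).V) × Dual ℂ ((z : Z) → (d z).V)) bl bP bQ hb
    (Abs_Q (XD j d hd) f y) (Abs_Q (XD j d hd) f' y')
    (fun i r hk => ⟨Abs_zero j d hd f y _ (fun z l => hz i r hk z l),
      Abs_zero j d hd f' y' _ (fun z l => hz i r hk z l)⟩)
    (Abs_R (prO (fun z => (d z).op) s)) (Abs_R (prO (fun z => (d z).op) s'))
    (fun w w' => by rw [Abs_R_apply, Abs_R_apply]; ring)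
    (fun w w' => by rw [Abs_R_apply, Abs_R_apply]; ring)
    (Abs_sur _ (Abs_bij d s s' t g))
  refine hdec.transport (V' := HX (XD j d hd)) Φ (fun ξ η => ?_) (fun ξ η => ?_)
  · rw [hx_form x s f y hx]
    exact (hΦ ξ η).1
  · rw [hx_form a s' f' y' ha]
    exact (hΦ ξ η).2

end Pool.Agent.H21.JR
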