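import Pool.Agent.H4.JKx

/-!
# Module Alg (about 120 lines): the Lie algebra `HX D = H + S* + U + U*`

`[h, e] = (s ↦ e (j h * s))`, `[u, φ] = (s ↦ φ (Ξ s u))` in `S*`, `[h, u] = A h u`, `[h, φ] = φ ∘ B h`; all other
brackets are zero. PROOFS: the bracket is bilinear and alternating by inspection (compare the instance for
`Met j` in Pool/Agent/H4/JKj.lean, which is the case `U = 0`). Leibniz rule `[x,[y,z]] = [[x,y],z] + [y,[x,z]]`,
component by component. `H`: zero. `U`: `A x A y z - A x A z y = -A z (A x y - A y x) + A y (A x z - A z x)` by `D.hA`.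
`U*`: the same with `D.hB`: the component is `z ∘ B y ∘ B x - y ∘ B z ∘ B x = - (y ∘ B x - x ∘ B y) ∘ B z +
(z ∘ B x - x ∘ B z) ∘ B y`. `S*`: the terms without `U` are as in `Met`; the terms with `U`: for `x = h` and
`y = u`, `z = φ`: `φ (Ξ (j h * s) u) = φ (Ξ s (A h u)) + φ (B h (Ξ s u))` (`D.hX`) and the cyclic permutations
(everything is linear: expand with `map_sub`, `LinearMap.sub_apply`, use `D.hX` for all the terms
`Ξ (j h * s) u`, then `ring` or `abel`). `lie_smul`: inspection. `exists_pt`: as `exists_point` in JKj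
(`Module.evalEquiv` for `S` and for `U`). `hx_form`: unfold the bracket, use the three functionals.
-/

namespace Pool.Agent.H21.JR

open Module Pool.Agent.H4.JK

/-- The data of the extended algebra. -/
structure HD (H S U : Type) [AddCommGroup H] [Module ℂ H] [CommRing S] [Algebra ℂ S]
    [AddCommGroup U] [Module ℂ U] where
  j : H →ₗ[ℂ] S
  Ξ : S →ₗ[ℂ] U →ₗ[ℂ] U
  A : H →ₗ[ℂ] U →ₗ[ℂ] U
  B : H →ₗ[ℂ] U →ₗ[ℂ] U
  hA : ∀ h h' u, A h (A h' u) = A h' (A h u)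
  hB : ∀ h h' u, B h (B h' u) = B h' (B h u)
  hX : ∀ h s u, Ξ (j h * s) u = Ξ s (A h u) + B h (Ξ s u)

variable {H S U : Type} [AddCommGroup H] [Module ℂ H] [CommRing S] [Algebra ℂ S]
  [AddCommGroup U] [Module ℂ U]

/-- The underlying space. -/
@[nolint unusedArguments]
def HX (_ : HD H S U) : Type := H × Dual ℂ S × U × Dual ℂ U

variable {D : HD H S U}

instance : AddCommGroup (HX D) := inferInstanceAs (AddCommGroup (H × Dual ℂ S × U × Dual ℂ U))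
instance : Module ℂ (HX D) := inferInstanceAs (Module ℂ (H × Dual ℂ S × U × Dual ℂ U))
instance [FiniteDimensional ℂ H] [FiniteDimensional ℂ S] [FiniteDimensional ℂ U] :
    FiniteDimensional ℂ (HX D) :=
  inferInstanceAs (FiniteDimensional ℂ (H × Dual ℂ S × U × Dual ℂ U))

/-- The pairing `(s ↦ φ (Ξ s u))`. -/
noncomputable def prU (D : HD H S U) (u : U) (φ : Dual ℂ U) : Dual ℂ S :=
  φ.comp (D.Ξ.flip u)

theorem prU_apply (D : HD H S U) (u : U) (φ : Dual ℂ U) (s : S) : prU D u φ s = φ (D.Ξ s u) := rfl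

/-- The bracket. -/
noncomputable def brX (D : HD H S U) (x y : H × Dual ℂ S × U × Dual ℂ U) :
    H × Dual ℂ S × U × Dual ℂ U :=
  (0, (act D.j x.1 y.2.1 - act D.j y.1 x.2.1) + (prU D x.2.2.1 y.2.2.2 - prU D y.2.2.1 x.2.2.2),
    D.A x.1 y.2.2.1 - D.A y.1 x.2.2.1, y.2.2.2.comp (D.B x.1) - x.2.2.2.comp (D.B y.1))

noncomputable instance : LieRing (HX D) where
  bracket := brX D
  add_lie x y z := by
    change brX D (x + y) z = brX D x z + brX D y z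
    obtain ⟨x1, x2, x3, x4⟩ := x
    obtain ⟨y1, y2, y3, y4⟩ := y
    obtain ⟨z1, z2, z3, z4⟩ := z
    refine Prod.ext ?_ (Prod.ext ?_ (Prod.ext ?_ ?_))
    · exact (add_zero (0 : H)).symm
    · refine LinearMap.ext fun s => ?_
      change (z2 (D.j (x1 + y1) * s) - (x2 + y2) (D.j z1 * s)) +
          (z4 (D.Ξ s (x3 + y3)) - (x4 + y4) (D.Ξ s z3)) =
        ((z2 (D.j x1 * s) - x2 (D.j z1 * s)) + (z4 (D.Ξ s x3) - x4 (D.Ξ s z3))) +
        ((z2 (D.j y1 * s) - y2 (D.j z1 * s)) + (z4 (D.Ξ s y3) - y4 (D.Ξ s z3)))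
      rw [map_add, add_mul, map_add, LinearMap.add_apply, map_add, map_add, LinearMap.add_apply]
      ring
    · change D.A (x1 + y1) z3 - D.A z1 (x3 + y3) =
        (D.A x1 z3 - D.A z1 x3) + (D.A y1 z3 - D.A z1 y3)
      rw [map_add, map_add, LinearMap.add_apply]
      abel
    · refine LinearMap.ext fun v => ?_
      change z4 (D.B (x1 + y1) v) - (x4 + y4) (D.B z1 v) =
        (z4 (D.B x1 v) - x4 (D.B z1 v)) + (z4 (D.B y1 v) - y4 (D.B z1 v))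
      rw [map_add, LinearMap.add_apply, map_add, LinearMap.add_apply]
      ring
  lie_add x y z := by
    change brX D x (y + z) = brX D x y + brX D x z
    obtain ⟨x1, x2, x3, x4⟩ := x
    obtain ⟨y1, y2, y3, y4⟩ := y
    obtain ⟨z1, z2, z3, z4⟩ := z
    refine Prod.ext ?_ (Prod.ext ?_ (Prod.ext ?_ ?_))
    · exact (add_zero (0 : H)).symm
    · refine LinearMap.ext fun s => ?_
      change ((y2 + z2) (D.j x1 * s) - x2 (D.j (y1 + z1) * s)) +
          ((y4 + z4) (D.Ξ s x3) - x4 (D.Ξ s (y3 + z3))) =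
        ((y2 (D.j x1 * s) - x2 (D.j y1 * s)) + (y4 (D.Ξ s x3) - x4 (D.Ξ s y3))) +
        ((z2 (D.j x1 * s) - x2 (D.j z1 * s)) + (z4 (D.Ξ s x3) - x4 (D.Ξ s z3)))
      rw [map_add, add_mul, map_add, LinearMap.add_apply, map_add, map_add, LinearMap.add_apply]
      ring
    · change D.A x1 (y3 + z3) - D.A (y1 + z1) x3 =
        (D.A x1 y3 - D.A y1 x3) + (D.A x1 z3 - D.A z1 x3)
      rw [map_add, map_add, LinearMap.add_apply]
      abel
    · refine LinearMap.ext fun v => ?_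
      change (y4 + z4) (D.B x1 v) - x4 (D.B (y1 + z1) v) =
        (y4 (D.B x1 v) - x4 (D.B y1 v)) + (z4 (D.B x1 v) - x4 (D.B z1 v))
      rw [map_add, LinearMap.add_apply, LinearMap.add_apply, map_add]
      ring
  lie_self x := by
    change brX D x x = 0
    refine Prod.ext rfl (Prod.ext ?_ (Prod.ext ?_ ?_))
    · change (act D.j x.1 x.2.1 - act D.j x.1 x.2.1) +
        (prU D x.2.2.1 x.2.2.2 - prU D x.2.2.1 x.2.2.2) = 0
      rw [sub_self, sub_self, add_zero]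
    · exact sub_self _
    · exact sub_self _
  leibniz_lie x y z := by
    change brX D x (brX D y z) = brX D (brX D x y) z + brX D y (brX D x z)
    obtain ⟨x1, x2, x3, x4⟩ := x
    obtain ⟨y1, y2, y3, y4⟩ := y
    obtain ⟨z1, z2, z3, z4⟩ := z
    refine Prod.ext ?_ (Prod.ext ?_ (Prod.ext ?_ ?_))
    · exact (add_zero (0 : H)).symm
    · refine LinearMap.ext fun s => ?_
      change (((z2 (D.j y1 * (D.j x1 * s)) - y2 (D.j z1 * (D.j x1 * s))) +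
            (z4 (D.Ξ (D.j x1 * s) y3) - y4 (D.Ξ (D.j x1 * s) z3))) - x2 (D.j 0 * s)) +
          ((z4 (D.B y1 (D.Ξ s x3)) - y4 (D.B z1 (D.Ξ s x3))) -
            x4 (D.Ξ s (D.A y1 z3 - D.A z1 y3))) =
        ((z2 (D.j 0 * s) - ((y2 (D.j x1 * (D.j z1 * s)) - x2 (D.j y1 * (D.j z1 * s))) +
            (y4 (D.Ξ (D.j z1 * s) x3) - x4 (D.Ξ (D.j z1 * s) y3)))) +
          (z4 (D.Ξ s (D.A x1 y3 - D.A y1 x3)) -
            (y4 (D.B x1 (D.Ξ s z3)) - x4 (D.B y1 (D.Ξ s z3))))) +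
        ((((z2 (D.j x1 * (D.j y1 * s)) - x2 (D.j z1 * (D.j y1 * s))) +
            (z4 (D.Ξ (D.j y1 * s) x3) - x4 (D.Ξ (D.j y1 * s) z3))) - y2 (D.j 0 * s)) +
          ((z4 (D.B x1 (D.Ξ s y3)) - x4 (D.B z1 (D.Ξ s y3))) -
            y4 (D.Ξ s (D.A x1 z3 - D.A z1 x3))))
      simp only [map_zero, zero_mul, map_sub, D.hX, map_add]
      rw [mul_left_comm (D.j x1) (D.j y1) s, mul_left_comm (D.j x1) (D.j z1) s,
        mul_left_comm (D.j z1) (D.j y1) s]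
      ring
    · change D.A x1 (D.A y1 z3 - D.A z1 y3) - D.A 0 x3 =
        (D.A 0 z3 - D.A z1 (D.A x1 y3 - D.A y1 x3)) +
          (D.A y1 (D.A x1 z3 - D.A z1 x3) - D.A 0 y3)
      simp only [map_zero, LinearMap.zero_apply, map_sub]
      rw [D.hA x1 y1, D.hA x1 z1, D.hA z1 y1]
      abel
    · refine LinearMap.ext fun v => ?_
      change (z4 (D.B y1 (D.B x1 v)) - y4 (D.B z1 (D.B x1 v))) - x4 (D.B 0 v) =
        (z4 (D.B 0 v) - (y4 (D.B x1 (D.B z1 v)) - x4 (D.B y1 (D.B z1 v)))) +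
          ((z4 (D.B x1 (D.B y1 v)) - x4 (D.B z1 (D.B y1 v))) - y4 (D.B 0 v))
      simp only [map_zero, LinearMap.zero_apply]
      rw [D.hB y1 x1, D.hB z1 x1, D.hB z1 y1]
      ring

noncomputable instance : LieAlgebra ℂ (HX D) where
  lie_smul c x y := by
    change brX D x (c • y) = c • brX D x y
    obtain ⟨x1, x2, x3, x4⟩ := x
    obtain ⟨y1, y2, y3, y4⟩ := y
    refine Prod.ext ?_ (Prod.ext ?_ (Prod.ext ?_ ?_))
    · exact (smul_zero c).symm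
    · refine LinearMap.ext fun s => ?_
      change ((c • y2) (D.j x1 * s) - x2 (D.j (c • y1) * s)) +
          ((c • y4) (D.Ξ s x3) - x4 (D.Ξ s (c • y3))) =
        c • ((y2 (D.j x1 * s) - x2 (D.j y1 * s)) + (y4 (D.Ξ s x3) - x4 (D.Ξ s y3)))
      simp only [map_smul, smul_mul_assoc, LinearMap.smul_apply, smul_sub, smul_add]
    · change D.A x1 (c • y3) - D.A (c • y1) x3 = c • (D.A x1 y3 - D.A y1 x3)
      simp only [map_smul, LinearMap.smul_apply, smul_sub]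
    · refine LinearMap.ext fun v => ?_
      change (c • y4) (D.B x1 v) - x4 (D.B (c • y1) v) = c • (y4 (D.B x1 v) - x4 (D.B y1 v))
      simp only [map_smul, LinearMap.smul_apply, smul_sub]

/-- A functional on `HX D` without its values on `H`. -/
theorem exists_pt [FiniteDimensional ℂ S] [FiniteDimensional ℂ U] (x : Dual ℂ (HX D)) :
    ∃ (s : S) (f : Dual ℂ U) (y : U), ∀ (e : Dual ℂ S) (u : U) (φ : Dual ℂ U),
      x ((0, e, u, φ) : H × Dual ℂ S × U × Dual ℂ U) = e s + f u + φ y := by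
  let X : (H × Dual ℂ S × U × Dual ℂ U) →ₗ[ℂ] ℂ := x
  let i1 : Dual ℂ S →ₗ[ℂ] (H × Dual ℂ S × U × Dual ℂ U) :=
    (LinearMap.inr ℂ H (Dual ℂ S × U × Dual ℂ U)).comp (LinearMap.inl ℂ (Dual ℂ S) (U × Dual ℂ U))
  let i2 : U →ₗ[ℂ] (H × Dual ℂ S × U × Dual ℂ U) :=
    (LinearMap.inr ℂ H (Dual ℂ S × U × Dual ℂ U)).comp
      ((LinearMap.inr ℂ (Dual ℂ S) (U × Dual ℂ U)).comp (LinearMap.inl ℂ U (Dual ℂ U)))
  let i3 : Dual ℂ U →ₗ[ℂ] (H × Dual ℂ S × U × Dual ℂ U) :=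
    (LinearMap.inr ℂ H (Dual ℂ S × U × Dual ℂ U)).comp
      ((LinearMap.inr ℂ (Dual ℂ S) (U × Dual ℂ U)).comp (LinearMap.inr ℂ U (Dual ℂ U)))
  refine ⟨(Module.evalEquiv ℂ S).symm (X.comp i1), X.comp i2,
    (Module.evalEquiv ℂ U).symm (X.comp i3), fun e u φ => ?_⟩
  have h1 := Module.apply_evalEquiv_symm_apply (R := ℂ) (M := S) e (X.comp i1)
  have h3 := Module.apply_evalEquiv_symm_apply (R := ℂ) (M := U) φ (X.comp i3)
  rw [h1, h3]
  have h4 : ((0, e, u, φ) : H × Dual ℂ S × U × Dual ℂ U) = i1 e + i2 u + i3 φ := by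
    refine Prod.ext ?_ (Prod.ext ?_ (Prod.ext ?_ ?_))
    · change (0 : H) = 0 + 0 + 0
      rw [add_zero, add_zero]
    · change e = e + 0 + 0
      rw [add_zero, add_zero]
    · change u = 0 + u + 0
      rw [zero_add, add_zero]
    · change φ = 0 + 0 + φ
      rw [zero_add, zero_add]
  change X ((0, e, u, φ) : H × Dual ℂ S × U × Dual ℂ U) = X (i1 e) + X (i2 u) + X (i3 φ)
  rw [h4, map_add, map_add]

theorem hx_form (x : Dual ℂ (HX D)) (s : S) (f : Dual ℂ U) (y : U)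
    (hx : ∀ (e : Dual ℂ S) (u : U) (φ : Dual ℂ U),
      x ((0, e, u, φ) : H × Dual ℂ S × U × Dual ℂ U) = e s + f u + φ y) (ξ η : HX D) :
    x ⁅ξ, η⁆ = (η.2.1 (MX D.j s ξ.1) - ξ.2.1 (MX D.j s η.1)) +
      ((f (D.A ξ.1 η.2.2.1) + η.2.2.2 (D.B ξ.1 y)) - (f (D.A η.1 ξ.2.2.1) + ξ.2.2.2 (D.B η.1 y))) +
      (η.2.2.2 (D.Ξ s ξ.2.2.1) - ξ.2.2.2 (D.Ξ s η.2.2.1)) := by
  have h1 : (⁅ξ, η⁆ : HX D) = ((0, (act D.j ξ.1 η.2.1 - act D.j η.1 ξ.2.1) +
      (prU D ξ.2.2.1 η.2.2.2 - prU D η.2.2.1 ξ.2.2.2),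
      D.A ξ.1 η.2.2.1 - D.A η.1 ξ.2.2.1, η.2.2.2.comp (D.B ξ.1) - ξ.2.2.2.comp (D.B η.1)) :
      H × Dual ℂ S × U × Dual ℂ U) := rfl
  rw [h1, hx]
  change ((η.2.1 (D.j ξ.1 * s) - ξ.2.1 (D.j η.1 * s)) +
      (η.2.2.2 (D.Ξ s ξ.2.2.1) - ξ.2.2.2 (D.Ξ s η.2.2.1))) +
      f (D.A ξ.1 η.2.2.1 - D.A η.1 ξ.2.2.1) +
      (η.2.2.2 (D.B ξ.1 y) - ξ.2.2.2 (D.B η.1 y)) =
    (η.2.1 (s * D.j ξ.1) - ξ.2.1 (s * D.j η.1)) +
      ((f (D.A ξ.1 η.2.2.1) + η.2.2.2 (D.B ξ.1 y)) -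
        (f (D.A η.1 ξ.2.2.1) + ξ.2.2.2 (D.B η.1 y))) +
      (η.2.2.2 (D.Ξ s ξ.2.2.1) - ξ.2.2.2 (D.Ξ s η.2.2.1))
  rw [map_sub, mul_comm (D.j ξ.1), mul_comm (D.j η.1)]
  ring

end Pool.Agent.H21.JR
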