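import Pool.Agent.H21.JR.Alg

/-!
# Module BasX (about 80 lines): base points

PROOF. `x0 = evX D (basePt P.1)`, `a0 = evX D (cstPt P.2)`. `evX_inX`: `evX D s (inX D e) = e s` (by `rfl`). `rho_base` (JKk) gives the first
claim; `rho r (cstPt e) = e r` by cases (`rfl` for `.inl`, `AlgHom.commutes` for `.inr`); `cfs_base` (JKk): `cfs c (basePt d) = 1`; and
`cfs c (cstPt e) = 0`: `cf1` of `algebraMap z` is `z * cf1 1 = 0` (`cf1_one`, JKk; `Algebra.algebraMap_eq_smul_one`). So the last expression is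
`1 * P.2 (slot c) - _ * 0 ≠ 0`.
-/

namespace Pool.Agent.H21.JR

open Module Pool.Agent.H4.JK

section Big

variable {κ γ : Type} [Fintype κ] [Fintype γ] [DecidableEq κ] [DecidableEq γ]
  (k : κ → ℕ) (τ : (j : κ) → Fin (k j + 1) → Type) [∀ j i, Fintype (τ j i)]
  [∀ j i, DecidableEq (τ j i)] (m : (j : κ) → (i : Fin (k j + 1)) → τ j i → ℕ)
  (n : γ → ℕ) (σ : γ → Type) [∀ g, Fintype (σ g)] [∀ g, DecidableEq (σ g)]
  (m' : (g : γ) → σ g → ℕ)

/-- An element of `S*` in the Lie algebra. -/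
def inX {H S U : Type} [AddCommGroup H] [Module ℂ H] [CommRing S] [Algebra ℂ S]
    [AddCommGroup U] [Module ℂ U] (D : HD H S U) (e : Dual ℂ S) : HX D :=
  ((0, e, 0, 0) : H × Dual ℂ S × U × Dual ℂ U)

/-- Evaluation at a point of `S` as a functional on the Lie algebra. -/
noncomputable def evX {H S U : Type} [AddCommGroup H] [Module ℂ H] [CommRing S] [Algebra ℂ S]
    [AddCommGroup U] [Module ℂ U] (D : HD H S U) (s : S) : Dual ℂ (HX D) :=
  (show (H × Dual ℂ S × U × Dual ℂ U) →ₗ[ℂ] ℂ from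
    (Dual.eval ℂ S s).comp ((LinearMap.fst ℂ _ _).comp (LinearMap.snd ℂ _ _)))

theorem evX_inX {H S U : Type} [AddCommGroup H] [Module ℂ H] [CommRing S] [Algebra ℂ S]
    [AddCommGroup U] [Module ℂ U] (D : HD H S U) (s : S) (e : Dual ℂ S) :
    evX D s (inX D e) = e s := rfl

/-- The element of `BS` with constant components. -/
noncomputable def cstPt (e : RR (γ := γ) k → ℂ) : BS k τ m n σ m' :=
  (fun j => kconst (k j) (τ j) (m j) (fun i => e (.inl ⟨j, i⟩)),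
    fun g => algebraMap ℂ (GS (n g) (σ g) (m' g)) (e (.inr g)))

theorem rho_cst (e : RR (γ := γ) k → ℂ) (r : RR (γ := γ) k) :
    rho k τ m n σ m' r (cstPt k τ m n σ m' e) = e r := by
  cases r with
  | inl z => rfl
  | inr g => exact (res (n g)).commutes (e (.inr g))

private theorem BasX_cf1 (N : ℕ) (hN : 0 < N) (z : ℂ) : cf1 N (algebraMap ℂ (TA N) z) = 0 := by
  rw [Algebra.algebraMap_eq_smul_one, map_smul, cf1_one N hN, smul_zero]

theorem cfs_cst (hm : ∀ j i s, 0 < m j i s) (hm'0 : ∀ g p, 0 < m' g p)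
    (e : RR (γ := γ) k → ℂ) (c : PP k τ n σ) :
    cfs k τ m n σ m' c (cstPt k τ m n σ m' e) = 0 := by
  rcases c with z | z | g
  · exact BasX_cf1 _ (hm _ _ _) _
  · exact BasX_cf1 _ (hm'0 _ _) _
  · exact BasX_cf1 _ (Nat.pos_of_ne_zero g.2) _

theorem bas_pt (hm : ∀ j i s, 0 < m j i s) (hm'0 : ∀ g p, 0 < m' g p) {U : Type}
    [AddCommGroup U] [Module ℂ U] (D : HD (BH k τ m n σ m') (BS k τ m n σ m') U)
    (P : (RR (γ := γ) k → ℂ) × (RR (γ := γ) k → ℂ)) (hP : ∀ i, P.2 i ≠ 0) :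
    ∃ x0 a0 : Dual ℂ (HX D), (∀ r, x0 (inX D (rho k τ m n σ m' r)) = P.1 r) ∧
      (∀ r, a0 (inX D (rho k τ m n σ m' r)) = P.2 r) ∧
      ∀ c : PP k τ n σ, x0 (inX D (cfs k τ m n σ m' c)) *
          a0 (inX D (rho k τ m n σ m' (slot k τ n σ c))) -
        x0 (inX D (rho k τ m n σ m' (slot k τ n σ c))) * a0 (inX D (cfs k τ m n σ m' c)) ≠ 0 := by
  refine ⟨evX D (basePt k τ m n σ m' P.1), evX D (cstPt k τ m n σ m' P.2), fun r => ?_,
    fun r => ?_, fun c => ?_⟩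
  · rw [evX_inX]
    exact rho_base k τ m n σ m' P.1 r
  · rw [evX_inX]
    exact rho_cst k τ m n σ m' P.2 r
  · rw [evX_inX, evX_inX, evX_inX, evX_inX, cfs_base k τ m n σ m' hm hm'0,
      rho_cst k τ m n σ m', cfs_cst k τ m n σ m' hm hm'0, mul_zero, sub_zero, one_mul]
    exact hP _

end Big

end Pool.Agent.H21.JR
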