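import Pool.Agent.H21.JR.HxT

/-!
# Module BigX: the invariant of the extended algebra

PROOF. `hx_real` (module HxA) with `j = bjw w`, `d = cz`, `hd := cz_clo … w hcl`, `I = RR k`, `C = PP k τ n σ`, `ρ = rho`,
`u = cfs`, `w c = rho (slot c)`, `hG` = `gen_all` for `n l = N (bk l)`, `P = iP … p`, `Q = iP … q`. Hypotheses of `gen_all`: `hPQ` from `hpq`
(injectivity of `Sum.inl` and of `Sigma.mk`), `hirr` from `fpq_irr` and `hsim`; `hpair l l'`: if `bk l = bk l'` then the products agree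
(generalise `bk l'`, `subst`) and `c l ≠ c l'` by `hcinj`; otherwise all indices differ because their blocks differ. The base points are
`basePt` and `cstPt`; the data at a generic pair are `hx_pdat`.
-/

namespace Pool.Agent.H21.JR

open Module Pool.Agent.H4.JK

section Big

variable {κ γ : Type} [Fintype κ] [Fintype γ] [DecidableEq κ] [DecidableEq γ]
  (k : κ → ℕ) (τ : (j : κ) → Fin (k j + 1) → Type) [∀ j i, Fintype (τ j i)]
  [∀ j i, DecidableEq (τ j i)] (m : (j : κ) → (i : Fin (k j + 1)) → τ j i → ℕ)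
  (n : γ → ℕ) (σ : γ → Type) [∀ g, Fintype (σ g)] [∀ g, DecidableEq (σ g)]
  (m' : (g : γ) → σ g → ℕ)
  {Λ : Type} [Fintype Λ] (Xi : Λ → Type) [∀ l, Fintype (Xi l)] [∀ l, Nonempty (Xi l)]
  (μ : (l : Λ) → Xi l → ℕ) (bk : Λ → κ) (c : Λ → ℂ)
  (N : κ → ℕ) (p q : (j : κ) → Fin (N j + 1) → Fin (k j + 1))

theorem bigX (hm : ∀ j i s, 0 < m j i s) (hm'0 : ∀ g p, 0 < m' g p)
    (hm' : ∀ g p, m' g p ≤ n g) (w : (j : κ) → Fin (k j + 1) → ℂ) (hw : ∀ j v, w j v ≠ 0)
    (hcl : ∀ l v, w (bk l) v * (((Finset.univ.filter fun i => q (bk l) i = v).card : ℂ) -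
      ((Finset.univ.filter fun i => p (bk l) i = v).card : ℂ)) = 1)
    (hc : ∀ l, c l ≠ 0) (hcinj : Function.Injective c)
    (hpq : ∀ l i i', p (bk l) i ≠ q (bk l) i')
    (hsim : ∀ l, ∃ i0, ∀ i, i ≠ i0 → p (bk l) i ≠ p (bk l) i0) :
    Realisable (Finset.univ.val.map k, (Finset.univ.val.map (grp k τ m n σ m')).filter (· ≠ 0) +
      ∑ l : Λ, (N (bk l) + 1) • {Finset.univ.val.map fun x : Xi l => μ l x + 1}) := by
  have hd : ∀ z, Clo (H := BH k τ m n σ m') (S := BS k τ m n σ m') (bjw k τ m n σ m' w)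
      (cz k τ m n σ m' Xi μ bk c N p q z) := cz_clo k τ m n σ m' Xi μ bk c N p q w hcl
  have hinj : ∀ (j : κ) (v v' : Fin (k j + 1)), v ≠ v' →
      (Sum.inl ⟨j, v⟩ : RR (γ := γ) k) ≠ Sum.inl ⟨j, v'⟩ := by
    intro j v v' h h1
    injection h1 with h2
    injection h2 with h3 h4
    exact h h4
  have hinj' : ∀ (j j' : κ) (v : Fin (k j + 1)) (v' : Fin (k j' + 1)), j ≠ j' →
      (Sum.inl ⟨j, v⟩ : RR (γ := γ) k) ≠ Sum.inl ⟨j', v'⟩ := by
    intro j j' v v' h h1
    injection h1 with h2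
    injection h2 with h3 h4
    exact h h3
  have hG : ∀ᶠ P in gen (RR (γ := γ) k),
      GC (fun l => N (bk l)) (iP k bk N p γ) (iP k bk N q γ) c P := by
    refine gen_all (fun l => N (bk l)) (iP k bk N p γ) (iP k bk N q γ) c hc ?_ ?_ ?_
    · intro l i i'
      exact hinj _ _ _ (hpq l i i')
    · intro l
      obtain ⟨i0, h0⟩ := hsim l
      exact fpq_irr _ _ _ _ (hc l) i0 (fun i hi => hinj _ _ _ (h0 i hi))
        (fun i i' => hinj _ _ _ (hpq l i i'))
    · intro l l' hll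
      by_cases hb : bk l = bk l'
      · left
        refine ⟨fun h => hll (hcinj h), ?_, ?_⟩
        · unfold iP
          generalize bk l' = b at hb
          subst hb
          rfl
        · unfold iP
          generalize bk l' = b at hb
          subst hb
          rfl
      · right
        intro i i'
        exact ⟨hinj' _ _ _ _ hb, hinj' _ _ _ _ hb, hinj' _ _ _ _ hb, hinj' _ _ _ _ hb⟩
  have i1 : FiniteDimensional ℂ (BH k τ m n σ m') := inferInstance
  have i2 : @FiniteDimensional ℂ (BS k τ m n σ m') _ _ Algebra.toModule := inferInstance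
  refine @hx_real (BH k τ m n σ m') (BS k τ m n σ m') _ _ _ _ i1 i2 (bjw k τ m n σ m' w) _ _
    (cz k τ m n σ m' Xi μ bk c N p q) hd (RR (γ := γ) k) (PP k τ n σ) _ _ (rho k τ m n σ m')
    (cfs k τ m n σ m') (fun r => rho k τ m n σ m' (slot k τ n σ r)) _ hG
    (Finset.univ.val.map k, (Finset.univ.val.map (grp k τ m n σ m')).filter (· ≠ 0) +
      ∑ l : Λ, (N (bk l) + 1) • {Finset.univ.val.map fun x : Xi l => μ l x + 1}) ?_ ?_
  · intro P hP
    refine ⟨basePt k τ m n σ m' P.1, cstPt k τ m n σ m' P.2, fun r => rho_base k τ m n σ m' P.1 r,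
      fun r => rho_cst k τ m n σ m' P.2 r, fun r => ?_⟩
    rw [cfs_base k τ m n σ m' hm hm'0, rho_cst k τ m n σ m', cfs_cst k τ m n σ m' hm hm'0,
      mul_zero, sub_zero, one_mul]
    exact hP _
  · intro s s' g h3
    exact hx_pdat k τ m n σ m' Xi μ bk c N p q hm hm'0 hm' w hw s s' g h3

end Big

end Pool.Agent.H21.JR
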