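import Pool.Agent.H21.JR.FamX

/-!
# Module CombX (about 120 lines): the general sufficient condition

PROOFS. `closure_coef`: the set `{x | ∃ e : δ → ℕ, x = ∑ d, e d * f d}` is an additive submonoid (or use
`AddSubmonoid.closure_induction`): it contains `f d` (`e = Pi.single d 1`), `0`, and is closed under sums.
`engine`: `δ := (D : Type)`, `κ := δ ⊕ ((T.1 - D.map Prod.fst : Multiset ℕ) : Type)`, `k = Sum.elim (fun d => d.1.1) (fun x => x.1)`, so
`univ.val.map k = D.map Prod.fst + (T.1 - D.map Prod.fst) = T.1` (`map_univ_sum`, `Multiset.map_univ_coe`, `tsub_add_cancel_of_le`);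
`N = Sum.elim (fun d => d.1.2 - 1) (fun _ => 0)`. For `J` in `F = (T.2.filter Bad).toFinset` choose `e J : δ → ℕ` with
`T.2.count J - l J = ∑ d, e J d * d.1.2` (`closure_coef`; the set `{N | ∃ d ∈ D, d.2 = N}` is the range of `fun d : δ => d.1.2`).
`R = Sum.elim (fun d => ∑ J ∈ F, e J d • {J}) (fun _ => 0)`, `L = ∑ J ∈ F, l J • {J}`, `G = T.2.filter (¬ Bad ·)`. Then `L.card = ∑ l J`
and `T.2 = G + T.2.filter Bad` (`Multiset.filter_add_not`), `T.2.filter Bad = ∑ J ∈ F, T.2.count J • {J}`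
(`Multiset.toFinset_sum_count_nsmul_eq`; `count` in the filter of a bad `J` is the count in `T.2`), and `T.2.count J = l J + ∑ d, e J d * (N d + 1)`.
Apply `fam_real`.
-/

namespace Pool.Agent.H21.JR

open Pool.Agent.H4.JK

theorem closure_coef {δ : Type} [Fintype δ] (f : δ → ℕ) (x : ℕ)
    (h : x ∈ AddSubmonoid.closure (Set.range f)) : ∃ e : δ → ℕ, x = ∑ d, e d * f d := by
  classical
  induction h using AddSubmonoid.closure_induction with
  | mem y hy =>
    obtain ⟨d, rfl⟩ := hy
    refine ⟨Pi.single d 1, ?_⟩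
    rw [Finset.sum_eq_single d]
    · simp
    · intro b _ hb
      rw [Pi.single_eq_of_ne hb, zero_mul]
    · intro hd
      exact absurd (Finset.mem_univ d) hd
  | zero => exact ⟨0, by simp⟩
  | add y z _ _ hy hz =>
    obtain ⟨e, rfl⟩ := hy
    obtain ⟨e', rfl⟩ := hz
    exact ⟨e + e', by simp [add_mul, Finset.sum_add_distrib]⟩

open Classical in
theorem engine (T : Multiset ℕ × Multiset (Multiset ℕ)) (hT : IsType T) (D : Multiset (ℕ × ℕ))
    (hD : D.map Prod.fst ≤ T.1) (hD2 : ∀ d ∈ D, 2 ≤ d.1 ∧ 2 ≤ d.2 ∧ d.1 + 1 ≤ 2 * d.2)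
    (l : Multiset ℕ → ℕ) (hl : ∀ s ∈ T.2, Bad s → l s ≤ T.2.count s ∧
      T.2.count s - l s ∈ AddSubmonoid.closure {N | ∃ d ∈ D, d.2 = N})
    (hs : ∑ s ∈ (T.2.filter Bad).toFinset, l s ≤ (T.1.map (· + 1)).sum) : Realisable T := by
  let δ : Type := (D : Multiset (ℕ × ℕ))
  let K' : Multiset ℕ := T.1 - D.map Prod.fst
  let κ : Type := δ ⊕ (K' : Type)
  let k : κ → ℕ := Sum.elim (fun d : δ => d.1.1) (fun x : (K' : Type) => x.1)
  let N : κ → ℕ := Sum.elim (fun d : δ => d.1.2 - 1) (fun _ => 0)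
  let F : Finset (Multiset ℕ) := (T.2.filter Bad).toFinset
  have hF : ∀ s ∈ F, s ∈ T.2 ∧ Bad s := by
    intro s hsF
    exact Multiset.mem_filter.1 (Multiset.mem_toFinset.1 hsF)
  have hdD : ∀ d : δ, d.1 ∈ D := fun d => Multiset.coe_mem (x := d)
  have hset : {N | ∃ d ∈ D, d.2 = N} = Set.range (fun d : δ => d.1.2) := by
    ext x
    constructor
    · rintro ⟨d, hd, rfl⟩
      exact ⟨⟨d, ⟨0, Multiset.count_pos.2 hd⟩⟩, rfl⟩
    · rintro ⟨d, rfl⟩
      exact ⟨d.1, hdD d, rfl⟩
  have hex : ∀ s : Multiset ℕ, ∃ e : δ → ℕ, s ∈ F →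
      T.2.count s - l s = ∑ d, e d * d.1.2 := by
    intro s
    by_cases hsF : s ∈ F
    · have h1 := (hl s (hF s hsF).1 (hF s hsF).2).2
      rw [hset] at h1
      obtain ⟨e, he⟩ := closure_coef (fun d : δ => d.1.2) _ h1
      exact ⟨e, fun _ => he⟩
    · exact ⟨0, fun h => absurd h hsF⟩
  choose e he using hex
  let R : κ → Multiset (Multiset ℕ) :=
    Sum.elim (fun d : δ => ∑ s ∈ F, e s d • ({s} : Multiset (Multiset ℕ))) (fun _ => 0)
  let L : Multiset (Multiset ℕ) := ∑ s ∈ F, l s • ({s} : Multiset (Multiset ℕ))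
  have hk : Finset.univ.val.map k = T.1 := by
    rw [map_univ_sum]
    have h1 : (Finset.univ.val.map fun a : δ => k (Sum.inl a)) = D.map Prod.fst := by
      have h2 : (Finset.univ.val.map fun d : δ => d.1) = D := Multiset.map_univ_coe D
      conv_rhs => rw [← h2, Multiset.map_map]
      rfl
    have h3 : (Finset.univ.val.map fun b : (K' : Type) => k (Sum.inr b)) = K' :=
      Multiset.map_univ_coe K'
    rw [h1, h3]
    exact add_tsub_cancel_of_le hD
  refine fam_real T hT (κ := κ) k hk N R ?_ L (T.2.filter fun s => ¬ Bad s) ?_ ?_ ?_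
  · rintro (d | x) hj
    · have h1 := hD2 d.1 (hdD d)
      refine ⟨h1.1, ?_, ?_⟩
      · change 1 ≤ d.1.2 - 1
        omega
      · change d.1.1 + 1 ≤ 2 * (d.1.2 - 1 + 1)
        omega
    · exact absurd rfl hj
  · have h1 : L.card = ∑ s ∈ F, l s := by
      change Multiset.card (∑ s ∈ F, l s • ({s} : Multiset (Multiset ℕ))) = _
      rw [Multiset.card_sum]
      apply Finset.sum_congr rfl
      intro s _
      rw [Multiset.card_nsmul, Multiset.card_singleton, mul_one]
    rw [h1]
    refine le_trans hs (le_of_eq ?_)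
    rw [← hk, Multiset.map_map]
    rfl
  · intro s hs'
    exact (Multiset.mem_filter.1 hs').2
  · have h1 : ∑ j, (N j + 1) • R j =
        ∑ s ∈ F, (T.2.count s - l s) • ({s} : Multiset (Multiset ℕ)) := by
      rw [Fintype.sum_sum_type]
      have h2 : ∑ x : (K' : Type), (N (Sum.inr x) + 1) • R (Sum.inr x) = 0 := by
        apply Finset.sum_eq_zero
        intro x _
        exact smul_zero _
      rw [h2, add_zero]
      have h3 : ∀ d : δ, (N (Sum.inl d) + 1) • R (Sum.inl d) =
          ∑ s ∈ F, (e s d * d.1.2) • ({s} : Multiset (Multiset ℕ)) := by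
        intro d
        have h4 : N (Sum.inl d) + 1 = d.1.2 := by
          have h5 := hD2 d.1 (hdD d)
          change d.1.2 - 1 + 1 = d.1.2
          omega
        rw [h4]
        change d.1.2 • (∑ s ∈ F, e s d • ({s} : Multiset (Multiset ℕ))) = _
        rw [Finset.smul_sum]
        apply Finset.sum_congr rfl
        intro s _
        rw [smul_smul, mul_comm]
      rw [Finset.sum_congr rfl fun d _ => h3 d, Finset.sum_comm]
      apply Finset.sum_congr rfl
      intro s hsF
      rw [he s hsF, Finset.sum_smul]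
    rw [h1, add_assoc, ← Finset.sum_add_distrib]
    have h6 : ∑ s ∈ F, (l s • ({s} : Multiset (Multiset ℕ)) +
        (T.2.count s - l s) • ({s} : Multiset (Multiset ℕ))) = T.2.filter Bad := by
      conv_rhs => rw [← Multiset.toFinset_sum_count_nsmul_eq (T.2.filter Bad)]
      apply Finset.sum_congr rfl
      intro s hsF
      rw [← add_smul, Nat.add_sub_cancel' (hl s (hF s hsF).1 (hF s hsF).2).1,
        Multiset.count_filter_of_pos (hF s hsF).2]
    rw [h6, add_comm, Multiset.filter_add_not]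

end Pool.Agent.H21.JR
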