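import Pool.Agent.H4.JKx

/-!
# Module Crit (about 80 lines): a criterion for the invariant

PROOF. By `eventually_gen` there is `Φ ≠ 0` in `MvPolynomial (I ⊕ I) ℂ` with `Φ(p) ≠ 0 → G p`. Let
`P = rename (Sum.map v v) Φ * ∏ c, (X (inl (u c)) * X (inr (w c)) - X (inl (w c)) * X (inr (u c)))` in `MvPolynomial (g ⊕ g) ℂ`, and
`U = {q | eval (Sum.elim q.1 q.2) P ≠ 0}` (as functions on `g ⊕ g`: `Sum.elim (fun ξ => q.1 ξ) (fun η => q.2 η)`). `U` is `ZariskiOpen` (take `P` at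
every point; compare the proof of `hasInvariant_of_family` in Pool/Agent/H4/JKk.lean). Nonempty: the polynomial
`Φ * ∏ i, X (inr i)` is nonzero (a domain), so by `exists_eval_ne` (JKm) it does not vanish at some point `y`; `p = (y ∘ inl, y ∘ inr)` has
`p.2 i ≠ 0` for all `i` and `Φ(p) ≠ 0`; take `x0`, `a0` from `hpt p`. `eval` of the renamed polynomial: `MvPolynomial.eval_rename`,
`Sum.elim (x0 ·) (a0 ·) ∘ Sum.map v v = Sum.elim p.1 p.2`. For `q ∈ U` both factors are nonzero: `h` applies.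
-/

namespace Pool.Agent.H21.JR

open Module MvPolynomial Pool.Agent.H4.JK

theorem crit {g : Type} [LieRing g] [LieAlgebra ℂ g] {I C : Type} [Fintype I] [Fintype C]
    (v : I → g) {G : (I → ℂ) × (I → ℂ) → Prop} (hG : ∀ᶠ p in gen I, G p) (u w : C → g)
    (hpt : ∀ p : (I → ℂ) × (I → ℂ), (∀ i, p.2 i ≠ 0) → ∃ x0 a0 : Dual ℂ g,
      (∀ i, x0 (v i) = p.1 i) ∧ (∀ i, a0 (v i) = p.2 i) ∧
        ∀ c, x0 (u c) * a0 (w c) - x0 (w c) * a0 (u c) ≠ 0)
    (T : Multiset ℕ × Multiset (Multiset ℕ))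
    (h : ∀ x a : Dual ℂ g, G (fun i => x (v i), fun i => a (v i)) →
      (∀ c, x (u c) * a (w c) - x (w c) * a (u c) ≠ 0) →
      HasType (fun ξ η => x ⁅ξ, η⁆) (fun ξ η => a ⁅ξ, η⁆) T) :
    HasInvariant g T := by
  classical
  obtain ⟨Φ, hΦ, hΦG⟩ := eventually_gen.1 hG
  let P : MvPolynomial (g ⊕ g) ℂ :=
    rename (Sum.map v v) Φ *
      ∏ c, (X (Sum.inl (u c)) * X (Sum.inr (w c)) - X (Sum.inl (w c)) * X (Sum.inr (u c)))
  have hcomp : ∀ x a : Dual ℂ g,
      (Sum.elim (fun ξ => x ξ) (fun η => a η)) ∘ (Sum.map v v) =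
        Sum.elim (fun i => x (v i)) (fun i => a (v i)) := by
    intro x a
    funext z
    cases z <;> rfl
  have hP : ∀ x a : Dual ℂ g,
      eval (Sum.elim (fun ξ => x ξ) (fun η => a η)) P ≠ 0 ↔
      (eval (Sum.elim (fun i => x (v i)) (fun i => a (v i))) Φ ≠ 0 ∧
        ∀ c, x (u c) * a (w c) - x (w c) * a (u c) ≠ 0) := by
    intro x a
    have h1 : eval (Sum.elim (fun ξ => x ξ) (fun η => a η)) P =
        eval (Sum.elim (fun i => x (v i)) (fun i => a (v i))) Φ *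
          ∏ c, (x (u c) * a (w c) - x (w c) * a (u c)) := by
      simp only [P, map_mul, map_sub, eval_X, Sum.elim_inl, Sum.elim_inr, map_prod]
      rw [eval_rename, hcomp]
    rw [h1, mul_ne_zero_iff, Finset.prod_ne_zero_iff]
    simp
  refine ⟨{q | eval (Sum.elim (fun ξ => q.1 ξ) (fun η => q.2 η)) P ≠ 0}, ?_, ?_, ?_⟩
  · intro q hq
    exact ⟨P, hq, fun q' hq' => hq'⟩
  · have hne : Φ * ∏ i : I, (X (Sum.inr i) : MvPolynomial (I ⊕ I) ℂ) ≠ 0 :=
      mul_ne_zero hΦ (Finset.prod_ne_zero_iff.2 fun i _ => X_ne_zero _)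
    obtain ⟨y, hy⟩ := exists_eval_ne hne
    rw [map_mul, map_prod, mul_ne_zero_iff, Finset.prod_ne_zero_iff] at hy
    simp only [eval_X] at hy
    obtain ⟨x0, a0, h1, h2, h3⟩ := hpt (fun i => y (Sum.inl i), fun i => y (Sum.inr i))
      (fun i => hy.2 i (Finset.mem_univ i))
    refine ⟨(x0, a0), (hP x0 a0).2 ⟨?_, h3⟩⟩
    have h4 : Sum.elim (fun i => x0 (v i)) (fun i => a0 (v i)) = y := by
      funext z
      cases z with
      | inl i => exact h1 i
      | inr i => exact h2 i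
    rw [h4]
    exact hy.1
  · intro q hq
    have h1 := (hP q.1 q.2).1 hq
    exact h q.1 q.2 (hΦG (fun i => q.1 (v i), fun i => q.2 (v i)) h1.1) h1.2

end Pool.Agent.H21.JR
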