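import Pool.Agent.H4.JKx

/-!
# Module Cyc (complete): the cyclic operators

`cyc N m c P Q` acts on `(TA m)^(N+1)` by `(ξ_i) ↦ (P_i ξ_i - Q_i θ_i ξ_(i+1))`, cyclic indices (addition in
`Fin (N + 1)`), `θ_i = 1` except `θ_N = c + ε`.
-/

namespace Pool.Agent.H21.JR

open Module Pool.Agent.H4.JK Polynomial

/-- the element `c + ε` of `TA m`. -/
noncomputable def thet (m : ℕ) (c : ℂ) : TA m := AdjoinRoot.mk (X ^ (m + 1) : ℂ[X]) (C c + X)

/-- the weights of the cyclic operator. -/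
noncomputable def thw (N m : ℕ) (c : ℂ) (i : Fin (N + 1)) : TA m :=
  if i = Fin.last N then thet m c else 1

/-- the cyclic operator. -/
noncomputable def cyc (N m : ℕ) (c : ℂ) (P Q : Fin (N + 1) → ℂ) :
    (Fin (N + 1) → TA m) →ₗ[ℂ] (Fin (N + 1) → TA m) where
  toFun ξ := fun i => P i • ξ i - Q i • (thw N m c i * ξ (i + 1))
  map_add' ξ η := by
    funext i
    simp only [Pi.add_apply, smul_add, mul_add]
    abel
  map_smul' z ξ := by
    funext i
    simp only [Pi.smul_apply, RingHom.id_apply, smul_sub, mul_smul_comm, smul_comm z]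

theorem cyc_apply (N m : ℕ) (c : ℂ) (P Q : Fin (N + 1) → ℂ) (ξ : Fin (N + 1) → TA m)
    (i : Fin (N + 1)) : cyc N m c P Q ξ i = P i • ξ i - Q i • (thw N m c i * ξ (i + 1)) := rfl

theorem cyc_add (N m : ℕ) (c : ℂ) (P Q P' Q' : Fin (N + 1) → ℂ) :
    cyc N m c (P + P') (Q + Q') = cyc N m c P Q + cyc N m c P' Q' := by
  refine LinearMap.ext fun ξ => ?_
  funext i
  simp only [cyc_apply, LinearMap.add_apply, Pi.add_apply, add_smul]
  abel

theorem cyc_smul (N m : ℕ) (c : ℂ) (z : ℂ) (P Q : Fin (N + 1) → ℂ) :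
    cyc N m c (z • P) (z • Q) = z • cyc N m c P Q := by
  refine LinearMap.ext fun ξ => ?_
  funext i
  simp only [cyc_apply, LinearMap.smul_apply, Pi.smul_apply, smul_eq_mul, mul_smul, smul_sub]

/-- The operators commute with multiplication by elements of `TA m`. -/
theorem cyc_mul (N m : ℕ) (c : ℂ) (P Q : Fin (N + 1) → ℂ) (y : TA m) (ξ : Fin (N + 1) → TA m) :
    cyc N m c P Q (fun i => y * ξ i) = fun i => y * cyc N m c P Q ξ i := by
  funext i
  simp only [cyc_apply, mul_sub, mul_smul_comm]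
  rw [mul_left_comm]

theorem res_thet (m : ℕ) (c : ℂ) : res m (thet m c) = c := by
  unfold thet
  rw [res_mk]
  simp

/-- The characteristic polynomial of the pencil of cyclic operators. -/
noncomputable def chi (N : ℕ) (c : ℂ) (PX PA QX QA : Fin (N + 1) → ℂ) : ℂ[X] :=
  ∏ i, (C (PX i) - C (PA i) * X) - C c * ∏ i, (C (QX i) - C (QA i) * X)

theorem chi_eval (N : ℕ) (c : ℂ) (PX PA QX QA : Fin (N + 1) → ℂ) (t : ℂ) :
    (chi N c PX PA QX QA).eval t =
      ∏ i, (PX i - t * PA i) - c * ∏ i, (QX i - t * QA i) := by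
  simp only [chi, eval_sub, eval_mul, eval_C, eval_prod, eval_X]
  simp only [mul_comm]

end Pool.Agent.H21.JR
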