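import Pool.Agent.H21.JR.Hens

/-!
# Module CycA (about 90 lines): generalised eigenvectors of the pencil of cyclic operators

PROOF. Let `A = ∏ (C (PX i) - C (PA i) X)`, `B = ∏ (C (QX i) - C (QA i) X)`, so `chi = A - C c * B`. The hypotheses give
`A.eval t - c * B.eval t = 0`, `A'.eval t - c * B'.eval t ≠ 0`, `B.eval t = ∏ (QX i - QA i * t) ≠ 0`; let `τ` be given by `hens`.
Let `Pe i = algebraMap (PX i) - τ * algebraMap (PA i)`, `Qe i = algebraMap (QX i) - τ * algebraMap (QA i)`; `Qe i` has residue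
`QX i - t * QA i ≠ 0`, so it is a unit (`isUnit_of_res`); let `R i` be its inverse. Let `ξ i = ∏_{l < i} Pe l * R l` (product over
`l : Fin (N + 1)` with `l < i`, or over `Finset.range i` of an extension to `ℕ`). Then `ξ 0 = 1` and
`Pe i * ξ i = Qe i * (thw i * ξ (i + 1))` for all `i`: for `i < N` (`thw i = 1`) by definition; for `i = N`, where `i + 1 = 0` and
`thw i = thet m c`: `Pe N * ξ N = (∏ Pe) * ∏_{l<N} R l` and `∏ Pe = aeval τ A = θ * aeval τ B = θ * ∏ Qe`. Expanding, this is
`PX i • ξ i - QX i • (thw i * ξ (i+1)) = τ * (PA i • ξ i - QA i • (thw i * ξ (i+1)))`.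
-/

namespace Pool.Agent.H21.JR

open Module Pool.Agent.H4.JK Polynomial

theorem cyc_eig (N m : ℕ) (c : ℂ) (PX PA QX QA : Fin (N + 1) → ℂ) (t : ℂ)
    (hr : (chi N c PX PA QX QA).eval t = 0) (hd : (derivative (chi N c PX PA QX QA)).eval t ≠ 0)
    (hQ : ∀ i, QX i - t * QA i ≠ 0) :
    ∃ (τ : TA m) (ξ : Fin (N + 1) → TA m), res m τ = t ∧
      (m = 0 ∨ cf1 m (τ - algebraMap ℂ (TA m) t) ≠ 0) ∧ ξ 0 = 1 ∧
      cyc N m c PX QX ξ = fun i => τ * cyc N m c PA QA ξ i := by
  set A : ℂ[X] := ∏ i, (C (PX i) - C (PA i) * X) with hA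
  set B : ℂ[X] := ∏ i, (C (QX i) - C (QA i) * X) with hB
  have hchi : chi N c PX PA QX QA = A - C c * B := rfl
  have h0 : A.eval t - c * B.eval t = 0 := by
    have h := hr
    rw [hchi] at h
    simpa only [eval_sub, eval_mul, eval_C] using h
  have h1 : (derivative A).eval t - c * (derivative B).eval t ≠ 0 := by
    have h := hd
    rw [hchi] at h
    simpa only [derivative_sub, derivative_mul, derivative_C, zero_mul, zero_add, eval_sub,
      eval_mul, eval_C] using h
  have hBt : B.eval t ≠ 0 := by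
    rw [hB, eval_prod]
    refine Finset.prod_ne_zero_iff.mpr fun i _ => ?_
    simp only [eval_sub, eval_mul, eval_C, eval_X]
    rw [mul_comm (QA i) t]
    exact hQ i
  obtain ⟨τ, hτ, hres, hcf⟩ := hens m A B c t h0 h1 hBt
  let a : ℂ → TA m := fun z => algebraMap ℂ (TA m) z
  let Pe : Fin (N + 1) → TA m := fun i => a (PX i) - a (PA i) * τ
  let Qe : Fin (N + 1) → TA m := fun i => a (QX i) - a (QA i) * τ
  have hQu : ∀ i, ∃ y : TA m, Qe i * y = 1 := by
    intro i
    have h2 : IsUnit (Qe i) := by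
      refine isUnit_of_res m _ ?_
      have h3 : res m (Qe i) = QX i - t * QA i := by
        simp only [Qe, a, map_sub, map_mul, hres, AlgHom.commutes]
        simp only [Algebra.algebraMap_self, RingHom.id_apply]
        ring
      rw [h3]
      exact hQ i
    exact h2.exists_right_inv
  choose R hR using hQu
  have hAτ : aeval τ A = ∏ i, Pe i := by
    rw [hA, map_prod]
    refine Finset.prod_congr rfl fun i _ => ?_
    simp only [map_sub, map_mul, aeval_C, aeval_X, Pe, a]
  have hBτ : aeval τ B = ∏ i, Qe i := by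
    rw [hB, map_prod]
    refine Finset.prod_congr rfl fun i _ => ?_
    simp only [map_sub, map_mul, aeval_C, aeval_X, Qe, a]
  let g : ℕ → TA m := fun j => if h : j < N + 1 then Pe ⟨j, h⟩ * R ⟨j, h⟩ else 1
  have hg : ∀ i : Fin (N + 1), g i = Pe i * R i := fun i => by
    simp only [g, i.isLt, dif_pos]
  have htot : ∏ l ∈ Finset.range (N + 1), g l = thet m c := by
    rw [Finset.prod_range]
    have h4 : ∏ i : Fin (N + 1), g i = (∏ i, Pe i) * ∏ i, R i := by
      rw [← Finset.prod_mul_distrib]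
      exact Finset.prod_congr rfl fun i _ => hg i
    have h5 : (∏ i, Qe i) * ∏ i, R i = 1 := by
      rw [← Finset.prod_mul_distrib]
      exact Finset.prod_eq_one fun i _ => hR i
    rw [h4, ← hAτ, hτ, hBτ, mul_assoc, h5, mul_one]
  let ξ : Fin (N + 1) → TA m := fun i => ∏ l ∈ Finset.range i.val, g l
  have hξ0 : ξ 0 = 1 := by simp [ξ]
  have key : ∀ i, Pe i * ξ i = Qe i * (thw N m c i * ξ (i + 1)) := by
    intro i
    by_cases hi : i = Fin.last N
    · subst hi
      have h6 : (Fin.last N + 1 : Fin (N + 1)) = 0 := Fin.last_add_one N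
      rw [h6, hξ0, mul_one]
      have h7 : thw N m c (Fin.last N) = thet m c := by simp [thw]
      rw [h7, ← htot, Finset.prod_range_succ]
      have h8 : g N = Pe (Fin.last N) * R (Fin.last N) := hg (Fin.last N)
      rw [h8]
      have h9 : ξ (Fin.last N) = ∏ l ∈ Finset.range N, g l := rfl
      rw [← h9]
      linear_combination (-(Pe (Fin.last N) * ξ (Fin.last N))) * hR (Fin.last N)
    · have h7 : thw N m c i = 1 := by simp [thw, hi]
      have h8 : (i + 1 : Fin (N + 1)).val = i.val + 1 :=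
        Fin.val_add_one_of_lt (lt_of_le_of_ne (Fin.le_last i) hi)
      have h9 : ξ (i + 1) = ξ i * (Pe i * R i) := by
        show ∏ l ∈ Finset.range (i + 1 : Fin (N + 1)).val, g l = _
        rw [h8, Finset.prod_range_succ, hg i]
      rw [h7, h9, one_mul]
      linear_combination (-(Pe i * ξ i)) * hR i
  refine ⟨τ, ξ, hres, hcf, hξ0, ?_⟩
  funext i
  rw [cyc_apply, cyc_apply]
  simp only [Algebra.smul_def]
  have hk := key i
  simp only [Pe, Qe, a] at hk
  linear_combination hk

end Pool.Agent.H21.JR
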