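import Pool.Agent.H21.JR.Cyc

/-!
# Module CycV (about 60 lines): independence of generalised eigenvectors

PROOF. Claim: `∑ r, (fun i => τ r ^ l * y r * ξ r i) = 0` for all `l : ℕ`. Induction on `l`: `l = 0` is `h`. Step: apply `X` to
the identity for `l`; by `hX` it gives `∑ r, (fun i => τ r ^ (l+1) * y r * Y (ξ r) i) = 0`, which by `hY` is
`Y (∑ r, fun i => τ r ^ (l+1) * y r * ξ r i) = 0`, so the sum vanishes by injectivity. The value at `0` (with `h1`):
`∑ r, τ r ^ l * y r = 0` for all `l`. So the transpose of the Vandermonde matrix of `τ` kills the vector `y`; its determinant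
`∏ (τ j - τ i)` over `i < j` (`Matrix.det_vandermonde`) is a unit (`hdist`), so the matrix is invertible and `y = 0`
(e.g. `Matrix.mulVec_injective_iff_isUnit` or multiply by the inverse matrix, `Matrix.nonsing_inv_mul`).
-/

namespace Pool.Agent.H21.JR

open Module Pool.Agent.H4.JK Polynomial

theorem eig_indep {N m : ℕ} (X Y : (Fin (N + 1) → TA m) →ₗ[ℂ] (Fin (N + 1) → TA m))
    (hYi : Function.Injective Y) (τ : Fin (N + 1) → TA m) (ξ : Fin (N + 1) → Fin (N + 1) → TA m)
    (hX : ∀ r y, X (fun i => y * ξ r i) = fun i => τ r * y * Y (ξ r) i)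
    (hY : ∀ r y, Y (fun i => y * ξ r i) = fun i => y * Y (ξ r) i)
    (hdist : ∀ r s, r ≠ s → IsUnit (τ r - τ s)) (h1 : ∀ r, ξ r 0 = 1)
    (y : Fin (N + 1) → TA m) (h : ∑ r, (fun i => y r * ξ r i) = (0 : Fin (N + 1) → TA m)) :
    y = 0 := by
  have key : ∀ l : ℕ, ∑ r, (fun i => τ r ^ l * y r * ξ r i) = (0 : Fin (N + 1) → TA m) := by
    intro l
    induction l with
    | zero =>
      have e : (fun r : Fin (N + 1) => (fun i => τ r ^ 0 * y r * ξ r i)) =
          fun r => (fun i => y r * ξ r i) := by
        funext r i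
        rw [pow_zero, one_mul]
      rw [e]
      exact h
    | succ l ih =>
      apply hYi
      rw [map_zero, map_sum]
      have h2 := congrArg X ih
      rw [map_zero, map_sum] at h2
      rw [← h2]
      refine Finset.sum_congr rfl fun r _ => ?_
      rw [hX r (τ r ^ l * y r), hY r (τ r ^ (l + 1) * y r)]
      funext i
      have e1 : τ r ^ (l + 1) = τ r * τ r ^ l := pow_succ' (τ r) l
      rw [e1, mul_assoc (τ r) (τ r ^ l) (y r)]
  have h0 : ∀ l : ℕ, ∑ r, τ r ^ l * y r = 0 := by
    intro l
    have h2 := congrFun (key l) 0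
    rw [Finset.sum_apply] at h2
    rw [← Pi.zero_apply (M := fun _ : Fin (N + 1) => TA m) (0 : Fin (N + 1)), ← h2]
    refine Finset.sum_congr rfl fun r _ => ?_
    rw [h1 r, mul_one]
  have hdet : IsUnit (Matrix.vandermonde τ).transpose.det := by
    rw [Matrix.det_transpose, Matrix.det_vandermonde]
    refine Finset.prod_induction _ IsUnit (fun a b => IsUnit.mul) isUnit_one fun i _ => ?_
    refine Finset.prod_induction _ IsUnit (fun a b => IsUnit.mul) isUnit_one fun j hj => ?_
    exact hdist j i (ne_of_gt (Finset.mem_Ioi.1 hj))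
  have hinj : Function.Injective (Matrix.vandermonde τ).transpose.mulVec :=
    Matrix.mulVec_injective_of_isUnit ((Matrix.isUnit_iff_isUnit_det _).2 hdet)
  apply hinj
  rw [Matrix.mulVec_zero]
  funext l
  simp only [Matrix.mulVec, dotProduct, Matrix.transpose_apply, Matrix.vandermonde_apply,
    Pi.zero_apply]
  exact h0 l

end Pool.Agent.H21.JR
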