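import Pool.Agent.H21.JR.CycI
import Pool.Agent.H21.JR.CycA
import Pool.Agent.H21.JR.CycV

/-!
# Module CycE (about 110 lines): the Jordan blocks of the pencil of cyclic operators

PROOF. Write `X = cyc N m c PX QX`, `Y = cyc N m c PA QA`, `V = Fin (N + 1) → TA m`. Choose for each `r` the pair
`(τ r, ξ r)` of `cyc_eig` for `t r`; `ν r = τ r - algebraMap (t r)` has residue `0` and `m = 0 ∨ cf1 (ν r) ≠ 0`. Vectors:
`u r k = fun i => ν r ^ k * ξ r i`, `v r k = Y (u r k) = fun i => ν r ^ k * Y (ξ r) i` (`cyc_mul`), `k ≤ m`. By `cyc_mul` and `cyc_eig`: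
`X (u r k) = fun i => ν r ^ k * (τ r * Y (ξ r) i) = t r • v r k + v r (k + 1)` and `v r (m + 1) = 0` (`TA_nilp`). Apply
`pencilDec_of` (Pool/Agent/H4/JKg.lean) with `rowInd_jordan` and `bid_sum_t1`, `bid_sum_10` (JKh; `PA` of `.jordan (some t) n` is
`bidiag n n t 1`, `PB` is `bidiag n n 1 0`). Counting: the sum of the rows and of the columns is `(N + 1) * (m + 1) = finrank V`
(`Module.finrank_pi_fintype`, `finrank_TA`). Independence of the `v r k` (`Fintype.linearIndependent_iff`,
`Fintype.sum_sigma`): if `∑ g r k • v r k = 0` then `Y (∑_r fun i => y r * ξ r i) = 0` for `y r = ∑_k g r k • ν r ^ k`, so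
`∑_r (fun i => y r * ξ r i) = 0` (`cyc_inj`), so `y = 0` by `eig_indep` (`IsUnit (τ r - τ s)` by `isUnit_of_res`: the residue is
`t r - t s ≠ 0`). Then `TA_indep` with `a = 1` (`Finset.sum_range`) gives `g r k = 0`.
-/

namespace Pool.Agent.H21.JR

open Module Pool.Agent.H4.JK Polynomial

theorem cyc_dec (N m : ℕ) (c : ℂ) (PX PA QX QA : Fin (N + 1) → ℂ)
    (hQA : ∀ i, QA i ≠ 0) (h0 : ∏ i, PA i - c * ∏ i, QA i ≠ 0) (t : Fin (N + 1) → ℂ)
    (ht : Function.Injective t) (hr : ∀ r, (chi N c PX PA QX QA).eval (t r) = 0)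
    (hd : ∀ r, (derivative (chi N c PX PA QX QA)).eval (t r) ≠ 0)
    (hQ : ∀ r i, QX i - t r * QA i ≠ 0) :
    PencilDec (cyc N m c PX QX) (cyc N m c PA QA)
      (fun r : Fin (N + 1) => Block.jordan (some (t r)) (m + 1)) := by
  choose τ ξ hτ hν hξ0 hξ using fun r => cyc_eig N m c PX PA QX QA (t r) (hr r) (hd r) (hQ r)
  set ν : Fin (N + 1) → TA m := fun r => τ r - algebraMap ℂ (TA m) (t r) with hνd
  have hνr : ∀ r, res m (ν r) = 0 := by
    intro r
    rw [hνd]
    simp only [map_sub, AlgHom.commutes, hτ r]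
    exact sub_self _
  have hτν : ∀ r, τ r = algebraMap ℂ (TA m) (t r) + ν r := fun r => by rw [hνd]; ring
  let u : Fin (N + 1) → ℕ → (Fin (N + 1) → TA m) := fun r k => fun i => ν r ^ k * ξ r i
  let v : Fin (N + 1) → ℕ → (Fin (N + 1) → TA m) := fun r k => fun i =>
    ν r ^ k * cyc N m c PA QA (ξ r) i
  have hYu : ∀ r k, cyc N m c PA QA (u r k) = v r k := fun r k => cyc_mul N m c PA QA _ _
  have hXu : ∀ r k, cyc N m c PX QX (u r k) = t r • v r k + v r (k + 1) := by
    intro r k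
    refine (cyc_mul N m c PX QX _ _).trans ?_
    funext i
    rw [hξ r]
    show ν r ^ k * (τ r * cyc N m c PA QA (ξ r) i) =
      t r • (ν r ^ k * cyc N m c PA QA (ξ r) i) + ν r ^ (k + 1) * cyc N m c PA QA (ξ r) i
    rw [hτν r, Algebra.smul_def]
    ring
  have hv : ∀ r, v r (m + 1) = 0 := by
    intro r
    funext i
    show ν r ^ (m + 1) * cyc N m c PA QA (ξ r) i = 0
    rw [TA_nilp m (ν r) (hνr r) (m + 1) le_rfl, zero_mul]
  refine pencilDec_of _ _ _ (fun r => rowInd_jordan _ _)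
    (fun p => u p.1 (p.2 : ℕ)) (fun p => v p.1 (p.2 : ℕ)) ?_ ?_ ?_ ?_ ?_
  · intro r k
    exact (hXu r k).trans (bid_sum_t1 (m + 1) (t r) k (v r) (hv r)).symm
  · intro r k
    exact (hYu r k).trans (bid_sum_10 (m + 1) (m + 1) k (v r) k.2).symm
  · rw [Fintype.linearIndependent_iff]
    intro g hg
    rw [Fintype.sum_sigma] at hg
    let G : Fin (N + 1) → ℕ → ℂ := fun r k => if h : k < m + 1 then g ⟨r, ⟨k, h⟩⟩ else 0
    have hG : ∀ (r : Fin (N + 1)) (k : Fin (m + 1)), G r k = g ⟨r, k⟩ := by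
      intro r k
      show (if h : (k : ℕ) < m + 1 then g ⟨r, ⟨k, h⟩⟩ else 0) = g ⟨r, k⟩
      rw [dif_pos k.2]
      rfl
    let y : Fin (N + 1) → TA m := fun r => ∑ k ∈ Finset.range (m + 1), G r k • ν r ^ k
    have h1 : ∑ r, (fun i => y r * cyc N m c PA QA (ξ r) i) = (0 : Fin (N + 1) → TA m) := by
      rw [← hg]
      refine Finset.sum_congr rfl fun r _ => ?_
      have h2 : ∑ k : Fin (m + 1), g ⟨r, k⟩ • v r k =
          ∑ k ∈ Finset.range (m + 1), G r k • v r k := by
        rw [Finset.sum_range]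
        exact Finset.sum_congr rfl fun k _ => by rw [hG]
      refine Eq.trans ?_ h2.symm
      funext i
      show (∑ k ∈ Finset.range (m + 1), G r k • ν r ^ k) * cyc N m c PA QA (ξ r) i = _
      rw [Finset.sum_mul, Finset.sum_apply]
      refine Finset.sum_congr rfl fun k _ => ?_
      show _ = G r k • (ν r ^ k * cyc N m c PA QA (ξ r) i)
      rw [smul_mul_assoc]
    have h2 : cyc N m c PA QA (∑ r, (fun i => y r * ξ r i)) = 0 := by
      rw [map_sum, ← h1]
      exact Finset.sum_congr rfl fun r _ => cyc_mul N m c PA QA _ _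
    have hinj := cyc_inj N m c PA QA hQA h0
    have h3 : ∑ r, (fun i => y r * ξ r i) = (0 : Fin (N + 1) → TA m) :=
      hinj (h2.trans (map_zero _).symm)
    have h4 : y = 0 := by
      refine eig_indep (cyc N m c PX QX) (cyc N m c PA QA) hinj τ ξ ?_ ?_ ?_ hξ0 y h3
      · intro r z
        refine (cyc_mul N m c PX QX _ _).trans ?_
        funext i
        rw [hξ r]
        ring
      · intro r z
        exact cyc_mul N m c PA QA _ _
      · intro r s hrs
        apply isUnit_of_res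
        rw [map_sub, hτ r, hτ s]
        exact sub_ne_zero.2 fun h => hrs (ht h)
    rintro ⟨r, k⟩
    have h5 := TA_indep m (ν r) 1 (hνr r) (hν r) (by rw [map_one]; exact one_ne_zero) (G r)
      (fun _ => 0) (by
        have h6 : y r = 0 := by rw [h4]; rfl
        rw [← h6]
        refine Finset.sum_congr rfl fun k _ => ?_
        rw [one_pow, mul_one]) k k.2
    rw [← hG r k]
    exact h5
  · rw [Module.finrank_pi_fintype]
    refine Finset.sum_congr rfl fun r _ => ?_
    rw [finrank_TA]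
    rfl
  · rw [Module.finrank_pi_fintype]
    refine Finset.sum_congr rfl fun r _ => ?_
    rw [finrank_TA]
    rfl

end Pool.Agent.H21.JR
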