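import Pool.Agent.H21.JR.Hens

/-!
# Module CycI (about 60 lines): the cyclic operators are invertible if `∏ P ≠ c ∏ Q`

PROOF. `cyc_inj`: let `ξ` be in the kernel: `P i • ξ i = Q i • (thw i * ξ (i + 1))` for all `i`. Claim: for all `j ≤ N`:
`(∏_{l < j} P l) • ξ 0 = (∏_{l < j} Q l) • ξ j` (induction on `j`; `thw` is `1` for `l < N`, and `(j : Fin (N+1)) + 1 = j + 1`).
With `j = N` and the equation at `i = Fin.last N` (where `i + 1 = 0`): `(∏ P) • ξ 0 = (∏ Q) • (thet m c * ξ 0)`, i.e.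
`(algebraMap (∏ P) - thet m c * algebraMap (∏ Q)) * ξ 0 = 0`; the first factor has residue `∏ P - c ∏ Q ≠ 0`, so it is
a unit (`isUnit_of_res`) and `ξ 0 = 0`. Then `(∏_{l<j} Q l) • ξ j = 0` and `Q l ≠ 0`, so `ξ j = 0`. It may be convenient
to use `Fin.induction` or to define `ξ' : ℕ → TA m`.
`cyc_surj`: the space is finite-dimensional: `LinearMap.injective_iff_surjective`.
-/

namespace Pool.Agent.H21.JR

open Module Pool.Agent.H4.JK Polynomial

private theorem CycI_chain (N m : ℕ) (c : ℂ) (P Q : Fin (N + 1) → ℂ) (ξ : Fin (N + 1) → TA m)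
    (h : ∀ i, P i • ξ i = Q i • (thw N m c i * ξ (i + 1))) (P' Q' : ℕ → ℂ)
    (hP' : ∀ i : Fin (N + 1), P' i = P i) (hQ' : ∀ i : Fin (N + 1), Q' i = Q i) :
    ∀ (j : ℕ) (hj : j < N + 1), (∏ l ∈ Finset.range j, P' l) • ξ 0 =
      (∏ l ∈ Finset.range j, Q' l) • ξ ⟨j, hj⟩ := by
  intro j
  induction j with
  | zero =>
    intro hj
    simp
  | succ j ih =>
    intro hj
    have hj' : j < N + 1 := by omega
    have h1 := h ⟨j, hj'⟩
    have h2 : (⟨j, hj'⟩ : Fin (N + 1)) + 1 = ⟨j + 1, hj⟩ := by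
      apply Fin.ext
      rw [Fin.val_add_one_of_lt]
      exact Fin.lt_last_iff_ne_last.2 (fun he => by
        have := congrArg Fin.val he
        simp at this
        omega)
    have h3 : thw N m c ⟨j, hj'⟩ = 1 := by
      unfold thw
      rw [if_neg]
      intro he
      have := congrArg Fin.val he
      simp at this
      omega
    rw [h2, h3, one_mul] at h1
    rw [Finset.prod_range_succ, Finset.prod_range_succ, mul_comm, mul_smul, ih hj', smul_comm,
      show P' j = P ⟨j, hj'⟩ from hP' ⟨j, hj'⟩, h1, ← mul_smul,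
      show Q' j = Q ⟨j, hj'⟩ from hQ' ⟨j, hj'⟩]

theorem cyc_inj (N m : ℕ) (c : ℂ) (P Q : Fin (N + 1) → ℂ) (hQ : ∀ i, Q i ≠ 0)
    (h0 : ∏ i, P i - c * ∏ i, Q i ≠ 0) : Function.Injective (cyc N m c P Q) := by
  rw [injective_iff_map_eq_zero]
  intro ξ hξ
  have h : ∀ i, P i • ξ i = Q i • (thw N m c i * ξ (i + 1)) := by
    intro i
    have h1 := congrFun hξ i
    rw [cyc_apply, Pi.zero_apply] at h1
    exact sub_eq_zero.1 h1
  have hP' : ∀ i : Fin (N + 1), (fun l : ℕ => if hl : l < N + 1 then P ⟨l, hl⟩ else 1) i = P i := by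
    intro i
    exact dif_pos i.2
  have hQ' : ∀ i : Fin (N + 1), (fun l : ℕ => if hl : l < N + 1 then Q ⟨l, hl⟩ else 1) i = Q i := by
    intro i
    exact dif_pos i.2
  have key := CycI_chain N m c P Q ξ h (fun l : ℕ => if hl : l < N + 1 then P ⟨l, hl⟩ else 1)
    (fun l : ℕ => if hl : l < N + 1 then Q ⟨l, hl⟩ else 1) hP' hQ'
  have hlast := key N (Nat.lt_succ_self N)
  have h1 := h (Fin.last N)
  have h3 : thw N m c (Fin.last N) = thet m c := by
    unfold thw
    rw [if_pos rfl]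
  rw [Fin.last_add_one, h3] at h1
  have hPp : (∏ i, P i) = (∏ l ∈ Finset.range N, (if hl : l < N + 1 then P ⟨l, hl⟩ else 1)) *
      P (Fin.last N) := by
    rw [← Finset.prod_congr rfl (fun i _ => hP' i)]
    rw [← Finset.prod_range (fun l : ℕ => if hl : l < N + 1 then P ⟨l, hl⟩ else 1),
      Finset.prod_range_succ]
    congr 1
    simp [Fin.last]
  have hQp : (∏ i, Q i) = (∏ l ∈ Finset.range N, (if hl : l < N + 1 then Q ⟨l, hl⟩ else 1)) *
      Q (Fin.last N) := by
    rw [← Finset.prod_congr rfl (fun i _ => hQ' i)]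
    rw [← Finset.prod_range (fun l : ℕ => if hl : l < N + 1 then Q ⟨l, hl⟩ else 1),
      Finset.prod_range_succ]
    congr 1
    simp [Fin.last]
  have htot : (∏ i, P i) • ξ 0 = (∏ i, Q i) • (thet m c * ξ 0) := by
    rw [hPp, hQp, mul_comm, mul_smul, hlast, smul_comm]
    change _ • P (Fin.last N) • ξ (Fin.last N) = _
    rw [h1, ← mul_smul]
  have hz : (algebraMap ℂ (TA m) (∏ i, P i) - thet m c * algebraMap ℂ (TA m) (∏ i, Q i)) * ξ 0 =
      0 := by
    rw [sub_mul, ← Algebra.smul_def, htot, Algebra.smul_def]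
    ring
  have hres : res m (algebraMap ℂ (TA m) (∏ i, P i) -
      thet m c * algebraMap ℂ (TA m) (∏ i, Q i)) ≠ 0 := by
    rw [map_sub, map_mul, res_thet, AlgHom.commutes, AlgHom.commutes]
    exact h0
  have hξ0 : ξ 0 = 0 := (isUnit_of_res m _ hres).mul_right_eq_zero.1 hz
  funext i
  have h4 := key i.1 i.2
  rw [hξ0, smul_zero] at h4
  have h5 : (∏ l ∈ Finset.range i.1, (if hl : l < N + 1 then Q ⟨l, hl⟩ else 1)) ≠ 0 := by
    rw [Finset.prod_ne_zero_iff]
    intro l _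
    split_ifs with hl
    · exact hQ _
    · exact one_ne_zero
  exact (smul_eq_zero.1 h4.symm).resolve_left h5

theorem cyc_surj (N m : ℕ) (c : ℂ) (P Q : Fin (N + 1) → ℂ) (hQ : ∀ i, Q i ≠ 0)
    (h0 : ∏ i, P i - c * ∏ i, Q i ≠ 0) : Function.Surjective (cyc N m c P Q) :=
  LinearMap.injective_iff_surjective.1 (cyc_inj N m c P Q hQ h0)

end Pool.Agent.H21.JR
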