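import Pool.Agent.H21.JR.Pts
import Pool.Agent.H21.JR.Cyc

/-!
# Module GenR (about 110 lines): generic conditions on the residues

PROOFS. `chi_line`: `pt p (-t) i = p.1 i - t * p.2 i`, `chi_eval` and `fpq_eval`. `chi_der`: the polynomial `chL n P Q c p` is
`(line p (fpq n P Q c)).comp (- Polynomial.X)` (both are products of linear factors: `line p (X v) = C (p.1 v) + X * C (p.2 v)`), so its
derivative at `t` is `- (derivative (line p (fpq ..))).eval (-t)` (`Polynomial.derivative_comp`, `eval_comp`).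
`gen_all`: `filter_upwards` (or `Filter.Eventually.and`, `Filter.eventually_all` for the finite index sets `I`, `Λ`) with `gen_fst`, `gen_snd`
(JKm) for the nonzero polynomials `X i` and `fpq ..` (`fpq_ne`); for the condition with `i ≠ i'` use `eventually_gen` with
`X (inl i) * X (inr i') - X (inl i') * X (inr i) ≠ 0` (nonzero: evaluate at a point); `gen_simple` (JKo) for the derivative, `gen_line'` (JKm)
with `g = X i` (`ndvd_X`) and with `g = fpq ..` of another index (`ndvd_same` or `ndvd_dis`), at the parameter `-t`.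
-/

namespace Pool.Agent.H21.JR

open MvPolynomial Pool.Agent.H4.JK

/-- The characteristic polynomial on the line. -/
noncomputable def chL {I : Type} (n : ℕ) (P Q : Fin (n + 1) → I) (c : ℂ)
    (p : (I → ℂ) × (I → ℂ)) : Polynomial ℂ :=
  chi n c (fun i => p.1 (P i)) (fun i => p.2 (P i)) (fun i => p.1 (Q i)) (fun i => p.2 (Q i))

theorem chi_line {I : Type} [Fintype I] [DecidableEq I] (n : ℕ) (P Q : Fin (n + 1) → I) (c : ℂ)
    (p : (I → ℂ) × (I → ℂ)) (t : ℂ) :
    (chL n P Q c p).eval t = eval (pt p (-t)) (fpq n P Q c) := by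
  unfold chL
  rw [chi_eval, fpq_eval]
  simp only [pt]
  congr 1
  · refine Finset.prod_congr rfl fun i _ => ?_
    ring
  · congr 1
    refine Finset.prod_congr rfl fun i _ => ?_
    ring

theorem chi_der {I : Type} [Fintype I] [DecidableEq I] (n : ℕ) (P Q : Fin (n + 1) → I) (c : ℂ)
    (p : (I → ℂ) × (I → ℂ)) (t : ℂ) :
    (Polynomial.derivative (chL n P Q c p)).eval t =
      - (Polynomial.derivative (line p (fpq n P Q c))).eval (-t) := by
  have h : chL n P Q c p = (line p (fpq n P Q c)).comp (-Polynomial.X) := by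
    refine Polynomial.funext fun s => ?_
    rw [chi_line, Polynomial.eval_comp, eval_line]
    simp
  rw [h, Polynomial.derivative_comp]
  simp [Polynomial.eval_comp]

/-- The generic conditions. -/
structure GC {I Λ : Type} (n : Λ → ℕ) (P Q : (l : Λ) → Fin (n l + 1) → I) (c : Λ → ℂ)
    (p : (I → ℂ) × (I → ℂ)) : Prop where
  nx : ∀ i, p.1 i ≠ 0
  na : ∀ i, p.2 i ≠ 0
  ndet : ∀ i i', i ≠ i' → p.1 i * p.2 i' - p.1 i' * p.2 i ≠ 0
  fx : ∀ l, ∏ i, p.1 (P l i) - c l * ∏ i, p.1 (Q l i) ≠ 0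
  fa : ∀ l, ∏ i, p.2 (P l i) - c l * ∏ i, p.2 (Q l i) ≠ 0
  lin : ∀ l t, (chL (n l) (P l) (Q l) (c l) p).eval t = 0 → ∀ i, p.1 i - t * p.2 i ≠ 0
  der : ∀ l t, (chL (n l) (P l) (Q l) (c l) p).eval t = 0 →
    (Polynomial.derivative (chL (n l) (P l) (Q l) (c l) p)).eval t ≠ 0
  cop : ∀ l l', l' ≠ l → ∀ t, (chL (n l) (P l) (Q l) (c l) p).eval t = 0 →
    (chL (n l') (P l') (Q l') (c l') p).eval t ≠ 0

theorem gen_all {I Λ : Type} [Fintype I] [DecidableEq I] [Fintype Λ] (n : Λ → ℕ)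
    (P Q : (l : Λ) → Fin (n l + 1) → I) (c : Λ → ℂ) (hc : ∀ l, c l ≠ 0)
    (hPQ : ∀ l i i', P l i ≠ Q l i') (hirr : ∀ l, Irreducible (fpq (n l) (P l) (Q l) (c l)))
    (hpair : ∀ l l', l ≠ l' →
      (c l ≠ c l' ∧ ∏ i, (X (P l i) : MvPolynomial I ℂ) = ∏ i, X (P l' i) ∧
        ∏ i, (X (Q l i) : MvPolynomial I ℂ) = ∏ i, X (Q l' i)) ∨
      (∀ i i', P l i ≠ P l' i' ∧ P l i ≠ Q l' i' ∧ Q l i ≠ P l' i' ∧ Q l i ≠ Q l' i')) :
    ∀ᶠ p in gen I, GC n P Q c p := by
  have h1 : ∀ᶠ p in gen I, ∀ i, p.1 i ≠ 0 := by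
    rw [Filter.eventually_all]
    intro i
    filter_upwards [gen_fst (X_ne_zero i : (X i : MvPolynomial I ℂ) ≠ 0)] with p hp
    simpa using hp
  have h2 : ∀ᶠ p in gen I, ∀ i, p.2 i ≠ 0 := by
    rw [Filter.eventually_all]
    intro i
    filter_upwards [gen_snd (X_ne_zero i : (X i : MvPolynomial I ℂ) ≠ 0)] with p hp
    simpa using hp
  have h3 : ∀ᶠ p in gen I, ∀ i i', i ≠ i' → p.1 i * p.2 i' - p.1 i' * p.2 i ≠ 0 := by
    rw [Filter.eventually_all]
    intro i
    rw [Filter.eventually_all]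
    intro i'
    by_cases hii : i = i'
    · exact Filter.Eventually.of_forall fun p hp => absurd hii hp
    · rw [eventually_gen]
      refine ⟨X (Sum.inl i) * X (Sum.inr i') - X (Sum.inl i') * X (Sum.inr i), ?_, ?_⟩
      · intro h0
        have h5 := congrArg (eval (fun v : I ⊕ I => if v = Sum.inl i ∨ v = Sum.inr i' then (1 : ℂ)
          else 0)) h0
        have h6 : i' ≠ i := fun h => hii h.symm
        simp [h6, hii] at h5
      · intro p hp _
        simpa using hp
  have h4 : ∀ᶠ p in gen I, ∀ l, ∏ i, p.1 (P l i) - c l * ∏ i, p.1 (Q l i) ≠ 0 := by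
    rw [Filter.eventually_all]
    intro l
    filter_upwards [gen_fst (fpq_ne (n l) (P l) (Q l) (c l) (hPQ l))] with p hp
    rwa [fpq_eval] at hp
  have h5 : ∀ᶠ p in gen I, ∀ l, ∏ i, p.2 (P l i) - c l * ∏ i, p.2 (Q l i) ≠ 0 := by
    rw [Filter.eventually_all]
    intro l
    filter_upwards [gen_snd (fpq_ne (n l) (P l) (Q l) (c l) (hPQ l))] with p hp
    rwa [fpq_eval] at hp
  have h6 : ∀ᶠ p in gen I, ∀ l t, (chL (n l) (P l) (Q l) (c l) p).eval t = 0 →
      ∀ i, p.1 i - t * p.2 i ≠ 0 := by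
    rw [Filter.eventually_all]
    intro l
    have h7 : ∀ᶠ p in gen I, ∀ i, ∀ t : ℂ,
        eval (fun i => p.1 i + t * p.2 i) (fpq (n l) (P l) (Q l) (c l)) = 0 →
        eval (fun i => p.1 i + t * p.2 i) (X i : MvPolynomial I ℂ) ≠ 0 := by
      rw [Filter.eventually_all]
      intro i
      exact gen_line' (hirr l) (ndvd_X (n l) (P l) (Q l) (c l) (hc l) (hPQ l) i)
    filter_upwards [h7] with p hp t ht i
    rw [chi_line] at ht
    have h8 := hp i (-t) ht
    rw [eval_X] at h8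
    have h9 : p.1 i - t * p.2 i = p.1 i + -t * p.2 i := by ring
    rw [h9]
    exact h8
  have h7 : ∀ᶠ p in gen I, ∀ l t, (chL (n l) (P l) (Q l) (c l) p).eval t = 0 →
      (Polynomial.derivative (chL (n l) (P l) (Q l) (c l) p)).eval t ≠ 0 := by
    rw [Filter.eventually_all]
    intro l
    filter_upwards [gen_simple (hirr l)] with p hp t ht
    rw [chi_line] at ht
    rw [chi_der]
    exact neg_ne_zero.2 (hp (-t) ht)
  have h8 : ∀ᶠ p in gen I, ∀ l l', l' ≠ l → ∀ t,
      (chL (n l) (P l) (Q l) (c l) p).eval t = 0 →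
      (chL (n l') (P l') (Q l') (c l') p).eval t ≠ 0 := by
    rw [Filter.eventually_all]
    intro l
    rw [Filter.eventually_all]
    intro l'
    by_cases hll : l' = l
    · exact Filter.Eventually.of_forall fun p hp => absurd hll hp
    · have h9 : ¬ fpq (n l) (P l) (Q l) (c l) ∣ fpq (n l') (P l') (Q l') (c l') := by
        rcases hpair l l' (fun h => hll h.symm) with ⟨ha, hb, hd⟩ | hd
        · exact ndvd_same (n l) (P l) (Q l) (c l) (hc l) (hPQ l) (n l') (P l') (Q l') (c l') ha hb hd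
        · exact ndvd_dis (n l) (P l) (Q l) (c l) (hc l) (hPQ l) (n l') (P l') (Q l') (c l')
            (hPQ l') hd
      filter_upwards [gen_line' (hirr l) h9] with p hp _ t ht
      rw [chi_line] at ht ⊢
      exact hp (-t) ht
  filter_upwards [h1, h2, h3, h4, h5, h6, h7, h8] with p k1 k2 k3 k4 k5 k6 k7 k8
  exact ⟨k1, k2, k3, k4, k5, k6, k7, k8⟩

end Pool.Agent.H21.JR
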