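import Pool.Agent.H21.JR.Xid
import Pool.Agent.H21.JR.CycE

/-!
# Module XiP (about 40 lines): the pencil of the products of cyclic operators

`Gd d s s' t` collects the conditions on the pair `(s, s')`.

PROOF. `xi_dec`: `PencilDec.pi` (Pool/Agent/H4/JKj.lean) applied to `cyc_dec` (`ZD.op_apply`, `ZD.ch`);
`prO f s = LinearMap.pi fun z => (f z s).comp (LinearMap.proj z)` by `LinearMap.ext` and `rfl`.
-/

namespace Pool.Agent.H21.JR

open Module Pool.Agent.H4.JK Polynomial

variable {H S : Type} [AddCommGroup H] [Module ℂ H] [CommRing S] [Algebra ℂ S]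

/-- The characteristic polynomial of one cyclic operator. -/
noncomputable def ZD.ch (z : ZD S) (s s' : S) : ℂ[X] :=
  chi z.n z.c (fun i => z.P i s) (fun i => z.P i s') (fun i => z.Q i s) (fun i => z.Q i s')

/-- The conditions on a pair of points. -/
structure Gd {Z : Type} (d : Z → ZD S) (s s' : S) (t : (z : Z) → Fin ((d z).n + 1) → ℂ) : Prop where
  hQx : ∀ z i, (d z).Q i s ≠ 0
  hQa : ∀ z i, (d z).Q i s' ≠ 0
  hx : ∀ z, ∏ i, (d z).P i s - (d z).c * ∏ i, (d z).Q i s ≠ 0
  ha : ∀ z, ∏ i, (d z).P i s' - (d z).c * ∏ i, (d z).Q i s' ≠ 0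
  inj : ∀ z, Function.Injective (t z)
  root : ∀ z r, ((d z).ch s s').eval (t z r) = 0
  der : ∀ z r, (derivative ((d z).ch s s')).eval (t z r) ≠ 0
  hQ : ∀ z r i, (d z).Q i s - t z r * (d z).Q i s' ≠ 0

theorem xi_dec {Z : Type} [Fintype Z] (d : Z → ZD S) (s s' : S)
    (t : (z : Z) → Fin ((d z).n + 1) → ℂ) (g : Gd d s s' t) :
    PencilDec (prO (fun z => (d z).op) s) (prO (fun z => (d z).op) s')
      (fun y : Σ z, Fin ((d z).n + 1) => Block.jordan (some (t y.1 y.2)) ((d y.1).μ + 1)) := by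
  have h := PencilDec.pi (P := fun z => (d z).V) (Q := fun z => (d z).V)
    (X := fun z => (d z).op s) (Y := fun z => (d z).op s') (ι := fun z => Fin ((d z).n + 1))
    (bl := fun z r => Block.jordan (some (t z r)) ((d z).μ + 1)) (fun z =>
      cyc_dec (d z).n (d z).μ (d z).c (fun i => (d z).P i s) (fun i => (d z).P i s')
        (fun i => (d z).Q i s) (fun i => (d z).Q i s') (fun i => g.hQa z i) (g.ha z) (t z)
        (g.inj z) (fun r => g.root z r) (fun r => g.der z r) (fun r i => g.hQ z r i))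
  exact h

end Pool.Agent.H21.JR
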