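import Pool.Agent.H21.JR.WtP
import Pool.Agent.H21.JR.XiP
import Pool.Agent.H21.JR.GenR

/-!
# Module CzD (about 90 lines): the cyclic operators attached to the Kronecker pieces

`z = ⟨l, x⟩`: the operator belongs to the block `bk l`, has the size `N (bk l) + 1` over `TA (μ l x)`, the constant `c l`, and uses the residues with
the indices `p (bk l) i` and `q (bk l) i` of the block `bk l`.

PROOFS. `cz_clo`: by `rhoA_apply`, `rho_bjw` the two sums are `∑ i, w (q i) * ρ (q i)` and `∑ i, w (p i) * ρ (p i)` with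
`ρ v = rho (.inl ⟨bk l, v⟩) (bj h)`; sort by the value (`Finset.sum_fiberwise` or `Finset.sum_comp`-like): their difference is
`∑ v, w v * (#{i | q i = v} - #{i | p i = v}) * ρ v = ∑ v, ρ v = 0` (`hcl`, `rho_sum`).
`gd_of`: field by field from `GC`: `(cz z).ch s s' = chL (N (bk z.1)) (iP ..) (iQ ..) (c z.1) (..)` and all the other identifications hold by
`rfl`; `hQ` is `GC.lin` at the root, `der` is `GC.der`.
-/

namespace Pool.Agent.H21.JR

open Module Pool.Agent.H4.JK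

section Big

variable {κ γ : Type} [Fintype κ] [Fintype γ] [DecidableEq κ] [DecidableEq γ]
  (k : κ → ℕ) (τ : (j : κ) → Fin (k j + 1) → Type) [∀ j i, Fintype (τ j i)]
  [∀ j i, DecidableEq (τ j i)] (m : (j : κ) → (i : Fin (k j + 1)) → τ j i → ℕ)
  (n : γ → ℕ) (σ : γ → Type) [∀ g, Fintype (σ g)] [∀ g, DecidableEq (σ g)]
  (m' : (g : γ) → σ g → ℕ)
  {Λ : Type} (Xi : Λ → Type) (μ : (l : Λ) → Xi l → ℕ) (bk : Λ → κ) (c : Λ → ℂ)
  (N : κ → ℕ) (p q : (j : κ) → Fin (N j + 1) → Fin (k j + 1))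

/-- The cyclic operators. -/
noncomputable def cz (z : Σ l : Λ, Xi l) : ZD (BS k τ m n σ m') where
  n := N (bk z.1)
  μ := μ z.1 z.2
  c := c z.1
  P := fun i => rhoA k τ m n σ m' (.inl ⟨bk z.1, p (bk z.1) i⟩)
  Q := fun i => rhoA k τ m n σ m' (.inl ⟨bk z.1, q (bk z.1) i⟩)

/-- The indices of the residues. -/
def iP (γ : Type) (l : Λ) (i : Fin (N (bk l) + 1)) : RR (γ := γ) k := .inl ⟨bk l, p (bk l) i⟩

theorem cz_clo (w : (j : κ) → Fin (k j + 1) → ℂ)
    (hcl : ∀ l v, w (bk l) v * (((Finset.univ.filter fun i => q (bk l) i = v).card : ℂ) -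
      ((Finset.univ.filter fun i => p (bk l) i = v).card : ℂ)) = 1) (z : Σ l : Λ, Xi l) :
    Clo (H := BH k τ m n σ m') (S := BS k τ m n σ m') (bjw k τ m n σ m' w)
      (cz k τ m n σ m' Xi μ bk c N p q z) := by
  intro h
  have key : ∀ q' : Fin (N (bk z.1) + 1) → Fin (k (bk z.1) + 1),
      (∑ i, rhoA k τ m n σ m' (.inl ⟨bk z.1, q' i⟩) (bjw k τ m n σ m' w h)) =
        ∑ v, w (bk z.1) v * ((Finset.univ.filter fun i => q' i = v).card : ℂ) *
          rho k τ m n σ m' (.inl ⟨bk z.1, v⟩) (bj k τ m n σ m' h) := by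
    intro q'
    rw [← Finset.sum_fiberwise Finset.univ q']
    refine Finset.sum_congr rfl fun v _ => ?_
    rw [Finset.sum_congr rfl (g := fun _ => w (bk z.1) v *
      rho k τ m n σ m' (.inl ⟨bk z.1, v⟩) (bj k τ m n σ m' h))]
    · rw [Finset.sum_const, nsmul_eq_mul]
      ring
    · intro i hi
      have hv : q' i = v := (Finset.mem_filter.1 hi).2
      rw [rhoA_apply, rho_bjw, hv]
  change (∑ i, rhoA k τ m n σ m' (.inl ⟨bk z.1, q (bk z.1) i⟩) (bjw k τ m n σ m' w h)) =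
    ∑ i, rhoA k τ m n σ m' (.inl ⟨bk z.1, p (bk z.1) i⟩) (bjw k τ m n σ m' w h)
  rw [key, key, ← sub_eq_zero, ← Finset.sum_sub_distrib]
  rw [← rho_sum k τ m n σ m' (bk z.1) h]
  refine Finset.sum_congr rfl fun v _ => ?_
  have h1 := hcl z.1 v
  linear_combination (rho k τ m n σ m' (.inl ⟨bk z.1, v⟩) (bj k τ m n σ m' h)) * h1

/-- The coordinates of a pair of points. -/
noncomputable def crd (s s' : BS k τ m n σ m') : (RR (γ := γ) k → ℂ) × (RR (γ := γ) k → ℂ) :=
  (fun r => rho k τ m n σ m' r s, fun r => rho k τ m n σ m' r s')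

theorem gd_of (s s' : BS k τ m n σ m')
    (g : GC (fun l => N (bk l)) (iP k bk N p γ) (iP k bk N q γ) c (crd k τ m n σ m' s s'))
    (t : (l : Λ) → Fin (N (bk l) + 1) → ℂ) (ht : ∀ l, Function.Injective (t l))
    (hr : ∀ l r, (chL (N (bk l)) (iP k bk N p γ l) (iP k bk N q γ l) (c l)
      (crd k τ m n σ m' s s')).eval (t l r) = 0) :
    Gd (cz k τ m n σ m' Xi μ bk c N p q) s s' (fun z => t z.1) where
  hQx z i := g.nx (iP k bk N q γ z.1 i)
  hQa z i := g.na (iP k bk N q γ z.1 i)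
  hx z := g.fx z.1
  ha z := g.fa z.1
  inj z := ht z.1
  root z r := hr z.1 r
  der z r := g.der z.1 (t z.1 r) (hr z.1 r)
  hQ z r i := g.lin z.1 (t z.1 r) (hr z.1 r) (iP k bk N q γ z.1 i)

end Big

end Pool.Agent.H21.JR
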