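import Mathlib

/-!
# Module PQx (about 90 lines): the index maps and the weights

PROOF. Let `a = min k (N + 1)` and `b = k + 1 - a`; then `2 ≤ a ≤ N + 1`, `1 ≤ b ≤ N + 1`, `a + b = k + 1`. Put `p i = min i (a - 1)` and
`q i = a + min i (b - 1)` (as elements of `Fin (k + 1)`). The values of `p` are `0, …, a - 1`, all of them are taken, the values of `q` are
`a, …, k`, all are taken, so for every `v` exactly one of the two cardinalities is nonzero (`v < a`: `v = p v`; `v ≥ a`: `v = q (v - a)`), and their
difference `d v` is a nonzero integer; put `w v = 1 / d v`. Simple value: `p i = 0` only for `i = 0` because `a ≥ 2`.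
-/

namespace Pool.Agent.H21.JR

theorem exists_pq (k N : ℕ) (hk : 2 ≤ k) (hN : 1 ≤ N) (h : k + 1 ≤ 2 * (N + 1)) :
    ∃ (p q : Fin (N + 1) → Fin (k + 1)) (w : Fin (k + 1) → ℂ), (∀ v, w v ≠ 0) ∧
      (∀ v, w v * (((Finset.univ.filter fun i => q i = v).card : ℂ) -
        ((Finset.univ.filter fun i => p i = v).card : ℂ)) = 1) ∧
      (∀ i i', p i ≠ q i') ∧ ∃ i0, ∀ i, i ≠ i0 → p i ≠ p i0 := by
  obtain ⟨a, b, ha2, haN, hb1, hbN, hab⟩ : ∃ a b : ℕ, 2 ≤ a ∧ a ≤ N + 1 ∧ 1 ≤ b ∧ b ≤ N + 1 ∧
      a + b = k + 1 := by
    refine ⟨min k (N + 1), k + 1 - min k (N + 1), ?_, ?_, ?_, ?_, ?_⟩ <;> omega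
  let p : Fin (N + 1) → Fin (k + 1) := fun i => ⟨min i.val (a - 1), by omega⟩
  let q : Fin (N + 1) → Fin (k + 1) := fun i => ⟨a + min i.val (b - 1), by omega⟩
  have hpv : ∀ i, (p i).val = min i.val (a - 1) := fun i => rfl
  have hqv : ∀ i, (q i).val = a + min i.val (b - 1) := fun i => rfl
  have hd : ∀ v : Fin (k + 1), (((Finset.univ.filter fun i => q i = v).card : ℂ) -
        ((Finset.univ.filter fun i => p i = v).card : ℂ)) ≠ 0 := by
    intro v
    rcases Nat.lt_or_ge v.val a with hv | hv
    · have h1 : (Finset.univ.filter fun i => q i = v).card = 0 := by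
        rw [Finset.card_eq_zero, Finset.filter_eq_empty_iff]
        intro i _ hi
        have := congrArg Fin.val hi
        rw [hqv] at this
        omega
      have h2 : (Finset.univ.filter fun i => p i = v).card ≠ 0 := by
        rw [Finset.card_ne_zero]
        refine ⟨⟨v.val, by omega⟩, Finset.mem_filter.2 ⟨Finset.mem_univ _, ?_⟩⟩
        apply Fin.ext
        rw [hpv]
        simp only
        omega
      rw [h1, Nat.cast_zero, zero_sub, neg_ne_zero, Nat.cast_ne_zero]
      exact h2
    · have h1 : (Finset.univ.filter fun i => p i = v).card = 0 := by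
        rw [Finset.card_eq_zero, Finset.filter_eq_empty_iff]
        intro i _ hi
        have := congrArg Fin.val hi
        rw [hpv] at this
        omega
      have h2 : (Finset.univ.filter fun i => q i = v).card ≠ 0 := by
        rw [Finset.card_ne_zero]
        have hv' := v.isLt
        refine ⟨⟨v.val - a, by omega⟩, Finset.mem_filter.2 ⟨Finset.mem_univ _, ?_⟩⟩
        apply Fin.ext
        rw [hqv]
        simp only
        omega
      rw [h1, Nat.cast_zero, sub_zero, Nat.cast_ne_zero]
      exact h2
  refine ⟨p, q, fun v => 1 / (((Finset.univ.filter fun i => q i = v).card : ℂ) -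
        ((Finset.univ.filter fun i => p i = v).card : ℂ)), fun v => one_div_ne_zero (hd v),
        fun v => one_div_mul_cancel (hd v), ?_, ⟨0, by omega⟩, ?_⟩
  · intro i i' hii
    have := congrArg Fin.val hii
    rw [hpv, hqv] at this
    omega
  · intro i hi hii
    apply hi
    apply Fin.ext
    have := congrArg Fin.val hii
    rw [hpv, hpv] at this
    simp only at this ⊢
    omega

end Pool.Agent.H21.JR
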