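import Pool.Agent.H21.JR.BigX
import Pool.Agent.H21.JR.PQx

/-!
# Module FamX (about 150 lines): the family version

PROOF. Follow the proof of `realisable_few` in Pool/Agent/H4/JKl.lean. `γ := (G : Type)` (the type of the multiset `G`), `σ g = (r g : Type)`,
`n g`, `r g` by `good_split`, `m' g x = x.1`, exactly as there. The linear bad groups: `β := (L : Type)`, an embedding
`f : β ↪ Σ j : κ, Fin (k j + 1)` by the cardinalities (`hL`), `s = ext0 f (fun b => b.1)`, `τ j i = (s ⟨j, i⟩ : Type)`, `m j i x = x.1`.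
New: `Λ := Σ j : κ, (R j : Type)`, `bk l = l.1`, `Xi l = ((l.2.1 : Multiset ℕ) : Type)` (nonempty because the group is nonempty),
`μ l x = x.1 - 1` (so `μ l x + 1 = x.1` because all members of the groups are positive), `c l = (Fintype.equivFin Λ l : ℕ) + 1` (injective, nonzero).
For every `j` choose `p j, q j, w j` with: `∀ v, w j v ≠ 0`, and, if `R j ≠ 0`, the statements of `exists_pq` (if `R j = 0` take `w = 1` and
`p = q = 0`); `l : Λ` shows `R (bk l) ≠ 0`. `bigX` gives realisability of the type with the second component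
`(univ.val.map grp).filter (· ≠ 0) + ∑ l, (N (bk l) + 1) • {univ.val.map fun x => μ l x + 1}`; the first summand is `L + G` as in
`realisable_few` (`ext0_filter`, `map_univ_sum`, `Multiset.map_univ_coe`), the second is
`∑ j, ∑ J : (R j : Type), (N j + 1) • {J.1} = ∑ j, (N j + 1) • R j` (`Fintype.sum_sigma`, `Finset.smul_sum`, and
`∑ J : (R j : Type), {J.1} = R j`: `map_univ_eq_sum`, `Multiset.map_univ_coe`).
-/

namespace Pool.Agent.H21.JR

open Pool.Agent.H4.JK

private theorem FamX_pos {T : Multiset ℕ × Multiset (Multiset ℕ)} (hT : IsType T)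
    {s : Multiset ℕ} (hs : s ∈ T.2) (x : s.ToType) : x.1 - 1 + 1 = x.1 := by
  have h := (hT _ hs).2 x.1 Multiset.coe_mem
  omega

theorem fam_real (T : Multiset ℕ × Multiset (Multiset ℕ)) (hT : IsType T) {κ : Type}
    [Fintype κ] [DecidableEq κ] (k : κ → ℕ) (hk : Finset.univ.val.map k = T.1) (N : κ → ℕ)
    (R : κ → Multiset (Multiset ℕ))
    (hR : ∀ j, R j ≠ 0 → 2 ≤ k j ∧ 1 ≤ N j ∧ k j + 1 ≤ 2 * (N j + 1))
    (L G : Multiset (Multiset ℕ)) (hL : L.card ≤ ∑ j, (k j + 1)) (hG : ∀ s ∈ G, ¬ Bad s)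
    (hT2 : T.2 = G + L + ∑ j, (N j + 1) • R j) : Realisable T := by
  classical
  have memG : ∀ s ∈ G, s ∈ T.2 := by
    intro s hs
    rw [hT2]
    exact Multiset.mem_add.2 (Or.inl (Multiset.mem_add.2 (Or.inl hs)))
  have memL : ∀ s ∈ L, s ∈ T.2 := by
    intro s hs
    rw [hT2]
    exact Multiset.mem_add.2 (Or.inl (Multiset.mem_add.2 (Or.inr hs)))
  have memR : ∀ j, ∀ s ∈ R j, s ∈ T.2 := by
    intro j s hs
    rw [hT2]
    refine Multiset.mem_add.2 (Or.inr ?_)
    rw [Multiset.mem_sum]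
    exact ⟨j, Finset.mem_univ _, Multiset.mem_nsmul.2 ⟨Nat.succ_ne_zero _, hs⟩⟩
  -- the linear bad groups
  have hcard : Fintype.card L.ToType ≤ Fintype.card (Σ j : κ, Fin (k j + 1)) := by
    rw [Fintype.card_sigma]
    simp only [Fintype.card_fin]
    refine le_trans (le_of_eq ?_) hL
    exact Multiset.card_coe _
  obtain ⟨f⟩ := Function.Embedding.nonempty_of_card_le hcard
  let sb : L.ToType → Multiset ℕ := fun b => b.1
  have hsb : ∀ b, sb b ∈ T.2 := fun b => memL _ (Multiset.coe_mem (x := b))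
  let s : (Σ j : κ, Fin (k j + 1)) → Multiset ℕ := ext0 f sb
  have hspos : ∀ r, ∀ x ∈ s r, 0 < x := by
    intro r x hx
    obtain ⟨b, hb⟩ := mem_ext0 f sb r x hx
    exact (hT _ (hsb b)).2 x hb
  -- the good groups
  let sg : G.ToType → Multiset ℕ := fun g => g.1
  have hsg : ∀ g, sg g ∈ T.2 ∧ ¬ Bad (sg g) := fun g =>
    ⟨memG _ (Multiset.coe_mem (x := g)), hG _ (Multiset.coe_mem (x := g))⟩
  choose n r hr1 hr2 using fun g : G.ToType =>
    good_split (sg g) (hT _ (hsg g).1).1 (hT _ (hsg g).1).2 (hsg g).2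
  have hrpos : ∀ g, ∀ x ∈ r g, 0 < x := fun g x hx =>
    (hT _ (hsg g).1).2 x (by rw [hr1]; exact Multiset.mem_cons_of_mem hx)
  -- the index maps
  have hpqw : ∀ j, ∃ (p q : Fin (N j + 1) → Fin (k j + 1)) (w : Fin (k j + 1) → ℂ),
      (∀ v, w v ≠ 0) ∧ (R j ≠ 0 →
      (∀ v, w v * (((Finset.univ.filter fun i => q i = v).card : ℂ) -
        ((Finset.univ.filter fun i => p i = v).card : ℂ)) = 1) ∧
      (∀ i i', p i ≠ q i') ∧ ∃ i0, ∀ i, i ≠ i0 → p i ≠ p i0) := by
    intro j
    by_cases hj : R j = 0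
    · exact ⟨fun _ => 0, fun _ => 0, fun _ => 1, fun _ => one_ne_zero, fun h => absurd hj h⟩
    · obtain ⟨h1, h2, h3⟩ := hR j hj
      obtain ⟨p, q, w, h4, h5, h6, h7⟩ := exists_pq (k j) (N j) h1 h2 h3
      exact ⟨p, q, w, h4, fun _ => ⟨h5, h6, h7⟩⟩
  choose p q w hw hpqw using hpqw
  have hRne : ∀ l : (Σ j : κ, (R j).ToType), R l.1 ≠ 0 := by
    intro l h
    have h1 : l.2.1 ∈ R l.1 := Multiset.coe_mem
    exact (Multiset.eq_zero_iff_forall_notMem.1 h) _ h1
  have hne : ∀ l : (Σ j : κ, (R j).ToType), Nonempty (l.2.1).ToType := by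
    intro l
    have h1 : l.2.1 ∈ T.2 := memR _ _ Multiset.coe_mem
    obtain ⟨x, hx⟩ := Multiset.exists_mem_of_ne_zero (hT _ h1).1
    exact ⟨⟨x, ⟨0, Multiset.count_pos.2 hx⟩⟩⟩
  let c : (Σ j : κ, (R j).ToType) → ℂ :=
    fun l => (((Fintype.equivFin (Σ j : κ, (R j).ToType) l : ℕ) + 1 : ℕ) : ℂ)
  have hc : ∀ l, c l ≠ 0 := fun l => Nat.cast_ne_zero.2 (Nat.succ_ne_zero _)
  have hcinj : Function.Injective c := by
    intro l l' h
    have h1 := Nat.cast_injective (R := ℂ) h
    have h2 : (Fintype.equivFin (Σ j : κ, (R j).ToType) l : ℕ) =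
        (Fintype.equivFin (Σ j : κ, (R j).ToType) l' : ℕ) := by omega
    exact (Fintype.equivFin _).injective (Fin.ext h2)
  have key := bigX (κ := κ) (γ := G.ToType) k (fun j i => (s ⟨j, i⟩ : Multiset ℕ).ToType)
    (fun j i x => x.1) n (fun g => (r g : Multiset ℕ).ToType) (fun g x => x.1)
    (Λ := (Σ j : κ, (R j).ToType)) (fun l => (l.2.1 : Multiset ℕ).ToType)
    (fun l x => x.1 - 1) (fun l => l.1) c N p q
    (fun j i x => hspos _ _ Multiset.coe_mem) (fun g x => hrpos _ _ Multiset.coe_mem)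
    (fun g x => hr2 g _ Multiset.coe_mem) w hw
    (fun l v => (hpqw l.1 (hRne l)).1 v) hc hcinj (fun l => (hpqw l.1 (hRne l)).2.1)
    (fun l => (hpqw l.1 (hRne l)).2.2)
  have e2 : (Finset.univ.val.map (grp k (fun j i => (s ⟨j, i⟩ : Multiset ℕ).ToType)
    (fun j i x => x.1) n (fun g => (r g : Multiset ℕ).ToType) (fun g x => x.1))).filter (· ≠ 0) =
      G + L := by
    rw [map_univ_sum, Multiset.filter_add]
    have e3 : (Finset.univ.val.map fun a : (Σ j : κ, Fin (k j + 1)) =>
        grp k (fun j i => (s ⟨j, i⟩ : Multiset ℕ).ToType)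
          (fun j i x => x.1) n (fun g => (r g : Multiset ℕ).ToType) (fun g x => x.1) (Sum.inl a)) =
        Finset.univ.val.map (ext0 f sb) := by
      apply Multiset.map_congr rfl
      intro a _
      exact Multiset.map_univ_coe _
    have e4 : (Finset.univ.val.map fun b : G.ToType =>
        grp k (fun j i => (s ⟨j, i⟩ : Multiset ℕ).ToType)
          (fun j i x => x.1) n (fun g => (r g : Multiset ℕ).ToType) (fun g x => x.1) (Sum.inr b)) =
        G := by
      have e5 : (Finset.univ.val.map fun b : G.ToType => b.1) = G := Multiset.map_univ_coe _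
      refine Eq.trans ?_ e5
      apply Multiset.map_congr rfl
      intro b _
      change (n b + 1) ::ₘ Finset.univ.val.map (fun x : (r b : Multiset ℕ).ToType => x.1) = sg b
      rw [Multiset.map_univ_coe, ← hr1]
    rw [e3, e4, ext0_filter f f.injective sb (fun b => (hT _ (hsb b)).1)]
    have e6 : Finset.univ.val.map sb = L := Multiset.map_univ_coe _
    have e7 : G.filter (· ≠ 0) = G := by
      rw [Multiset.filter_eq_self]
      intro a ha
      exact (hT _ (memG a ha)).1
    rw [e6, e7, add_comm]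
  have e8 : ∑ l : (Σ j : κ, (R j).ToType), (N l.1 + 1) •
      ({Finset.univ.val.map fun x : (l.2.1 : Multiset ℕ).ToType => x.1 - 1 + 1} :
        Multiset (Multiset ℕ)) = ∑ j, (N j + 1) • R j := by
    rw [Fintype.sum_sigma]
    refine Finset.sum_congr rfl fun j _ => ?_
    have e9 : ∀ J : (R j).ToType,
        (Finset.univ.val.map fun x : (J.1 : Multiset ℕ).ToType => x.1 - 1 + 1) = J.1 := by
      intro J
      have h1 : J.1 ∈ T.2 := memR j _ Multiset.coe_mem
      have h2 : (Finset.univ.val.map fun x : (J.1 : Multiset ℕ).ToType => x.1) = J.1 :=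
        Multiset.map_univ_coe _
      refine Eq.trans ?_ h2
      apply Multiset.map_congr rfl
      intro x _
      exact FamX_pos hT h1 x
    have e10 : ∑ J : (R j).ToType, ({J.1} : Multiset (Multiset ℕ)) = R j := by
      have h2 : (Finset.univ.val.map fun J : (R j).ToType => J.1) = R j :=
        Multiset.map_univ_coe _
      conv_rhs => rw [← h2, map_univ_eq_sum]
    calc ∑ J : (R j).ToType, (N j + 1) •
          ({Finset.univ.val.map fun x : (J.1 : Multiset ℕ).ToType => x.1 - 1 + 1} :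
            Multiset (Multiset ℕ))
        = ∑ J : (R j).ToType, (N j + 1) • ({J.1} : Multiset (Multiset ℕ)) := by
          refine Finset.sum_congr rfl fun J _ => ?_
          rw [e9 J]
      _ = (N j + 1) • R j := by rw [← Finset.smul_sum, e10]
  have e11 : (T.1, T.2) = T := rfl
  rw [← e11, ← hk, hT2, ← e8, ← e2]
  exact key

end Pool.Agent.H21.JR
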