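import Pool.Agent.H21.JR.Cyc

/-!
# Module Hens (about 110 lines): the root `τ` of `A = (c + ε) B` above a simple root `t` of `A - c B`

PROOFS. `cf1_mul`: `cf1` is the coefficient of `X` and `res` the constant coefficient: write both elements as
`AdjoinRoot.mk _ f`, `AdjoinRoot.mk _ g` (`AdjoinRoot.mk_surjective`), `cf1_mk`, `res_mk`, `Polynomial.mul_coeff_one`.
`cf1_thet`: `cf1_mk`. `cf1_aeval`: induction on `A` (`Polynomial.induction_on'` or `Polynomial.induction_on`), with
`cf1_mul`. `hens`: apply `Polynomial.existsUnique_nilpotent_sub_and_aeval_eq_zero` over `R = S = TA m` (or the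
version for `TA m` as an algebra over itself) to `F = A.map (algebraMap ℂ (TA m)) - C (thet m c) * B.map (algebraMap ..)`
and `x = algebraMap ℂ (TA m) t`. `F(x)` has residue `A(t) - c B(t) = 0` so it is nilpotent (`TA_nilp`); `F'(x)` has residue
`A'(t) - c B'(t) ≠ 0` so it is a unit (`isUnit_of_res` below). The root `τ` has `τ - x` nilpotent, hence `res (τ - x) = 0`
(`IsNilpotent.map`, `IsNilpotent.eq_zero` in `ℂ`). Second part: if `0 < m` and `cf1 (τ - x) = 0` then `cf1 τ = 0`
(`cf1` of a constant is 0: `cf1_mk`), so `0 = A'(t) * cf1 τ = cf1 (A(τ)) = cf1 (θ B(τ)) = res θ * cf1 (B(τ)) + cf1 θ * res (B(τ)) =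
c * (B'(t) * 0) + 1 * B(t)`, contradiction.
`isUnit_of_res`: `y = res y + (y - res y)`, a unit plus a nilpotent element (`IsNilpotent.isUnit_add_left_of_commute` or
similar).
-/

namespace Pool.Agent.H21.JR

open Module Pool.Agent.H4.JK Polynomial

theorem isUnit_of_res (m : ℕ) (y : TA m) (h : res m y ≠ 0) : IsUnit y := by
  have h1 : IsNilpotent (y - algebraMap ℂ (TA m) (res m y)) :=
    ⟨m + 1, TA_nilp m _ (by rw [map_sub, AlgHom.commutes]; simp) _ le_rfl⟩
  have h2 : IsUnit (algebraMap ℂ (TA m) (res m y)) := (IsUnit.mk0 _ h).map (algebraMap ℂ (TA m))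
  have h3 := IsNilpotent.isUnit_add_left_of_commute h1 h2 (Commute.all _ _)
  rwa [add_sub_cancel] at h3

theorem cf1_mul (m : ℕ) (hm : 0 < m) (y z : TA m) :
    cf1 m (y * z) = res m y * cf1 m z + cf1 m y * res m z := by
  obtain ⟨f, rfl⟩ := AdjoinRoot.mk_surjective y
  obtain ⟨g, rfl⟩ := AdjoinRoot.mk_surjective z
  rw [← map_mul, cf1_mk _ hm, cf1_mk _ hm, cf1_mk _ hm, res_mk, res_mk, mul_coeff_one]

private theorem Hens_cf1_const (m : ℕ) (hm : 0 < m) (t : ℂ) :
    cf1 m (algebraMap ℂ (TA m) t) = 0 := by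
  have h : algebraMap ℂ (TA m) t = AdjoinRoot.mk (X ^ (m + 1) : ℂ[X]) (C t) := rfl
  rw [h, cf1_mk _ hm, coeff_C, if_neg one_ne_zero]

theorem cf1_thet (m : ℕ) (hm : 0 < m) (c : ℂ) : cf1 m (thet m c) = 1 := by
  unfold thet
  rw [cf1_mk _ hm, coeff_add, coeff_C, if_neg one_ne_zero, coeff_X_one, zero_add]

private theorem Hens_cf1_pow (m : ℕ) (hm : 0 < m) (y : TA m) (n : ℕ) :
    cf1 m (y ^ n) = n * res m y ^ (n - 1) * cf1 m y := by
  induction n with
  | zero =>
    have h := Hens_cf1_const m hm 1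
    rw [map_one] at h
    rw [pow_zero, h]
    simp
  | succ n ih =>
    rw [pow_succ y n, cf1_mul _ hm, ih, map_pow, Nat.add_sub_cancel]
    rcases n with _ | n
    · simp
    · rw [Nat.add_sub_cancel]
      push_cast
      ring

theorem cf1_aeval (m : ℕ) (hm : 0 < m) (y : TA m) (A : ℂ[X]) :
    cf1 m (aeval y A) = (derivative A).eval (res m y) * cf1 m y := by
  induction A using Polynomial.induction_on' with
  | add p q hp hq => rw [map_add, map_add, hp, hq, derivative_add, eval_add, add_mul]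
  | monomial n a =>
    rw [aeval_monomial, ← Algebra.smul_def, map_smul, Hens_cf1_pow m hm, derivative_monomial,
      eval_monomial, smul_eq_mul]
    ring

private theorem Hens_res_aeval (m : ℕ) (y : TA m) (A : ℂ[X]) :
    res m (aeval y A) = A.eval (res m y) := by
  rw [← Polynomial.aeval_algHom_apply, Polynomial.coe_aeval_eq_eval]

theorem hens (m : ℕ) (A B : ℂ[X]) (c t : ℂ) (h0 : A.eval t - c * B.eval t = 0)
    (h1 : (derivative A).eval t - c * (derivative B).eval t ≠ 0) (hB : B.eval t ≠ 0) :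
    ∃ τ : TA m, aeval τ A = thet m c * aeval τ B ∧ res m τ = t ∧
      (m = 0 ∨ cf1 m (τ - algebraMap ℂ (TA m) t) ≠ 0) := by
  have hrt : res m (algebraMap ℂ (TA m) t) = t := by rw [AlgHom.commutes]; simp
  have key : ∀ (y : TA m) (P Q : ℂ[X]),
      aeval y (P.map (algebraMap ℂ (TA m)) - C (thet m c) * Q.map (algebraMap ℂ (TA m)))
        = aeval y P - thet m c * aeval y Q := by
    intro y P Q
    rw [map_sub, map_mul, aeval_C, aeval_map_algebraMap, aeval_map_algebraMap,
      Algebra.algebraMap_self, RingHom.id_apply]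
  have hn : IsNilpotent (aeval (algebraMap ℂ (TA m) t)
      (A.map (algebraMap ℂ (TA m)) - C (thet m c) * B.map (algebraMap ℂ (TA m)))) := by
    refine ⟨m + 1, TA_nilp m _ ?_ _ le_rfl⟩
    rw [key, map_sub, map_mul, res_thet, Hens_res_aeval, Hens_res_aeval, hrt, h0]
  have hu : IsUnit (aeval (algebraMap ℂ (TA m) t)
      (derivative (A.map (algebraMap ℂ (TA m)) - C (thet m c) * B.map (algebraMap ℂ (TA m))))) := by
    rw [derivative_sub, derivative_C_mul, derivative_map, derivative_map, key]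
    apply isUnit_of_res
    rw [map_sub, map_mul, res_thet, Hens_res_aeval, Hens_res_aeval, hrt]
    exact h1
  obtain ⟨τ, ⟨hτ, hz⟩, -⟩ := existsUnique_nilpotent_sub_and_aeval_eq_zero hn hu
  rw [key, sub_eq_zero] at hz
  have hres : res m τ = t := by
    have h2 : IsNilpotent (res m (algebraMap ℂ (TA m) t - τ)) := hτ.map (res m)
    have h3 := h2.eq_zero
    rw [map_sub, hrt, sub_eq_zero] at h3
    exact h3.symm
  refine ⟨τ, hz, hres, ?_⟩
  rcases Nat.eq_zero_or_pos m with hm | hm
  · exact Or.inl hm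
  · right
    intro h4
    rw [map_sub, Hens_cf1_const m hm, sub_zero] at h4
    have h5 := congrArg (cf1 m) hz
    rw [cf1_aeval m hm, cf1_mul m hm, cf1_aeval m hm, h4, cf1_thet m hm, Hens_res_aeval, hres] at h5
    simp only [mul_zero, zero_add, one_mul] at h5
    exact hB h5.symm

end Pool.Agent.H21.JR
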