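import Pool.Agent.H21.JR.Abs
import Pool.Agent.H21.JR.BasX
import Pool.Agent.H21.JR.Crit

/-!
# Module HxA: the invariant of the extended algebra over an abstract pencil

`Pdat j d s s' T` collects the decomposition of the pencil `(MX j s, MX j s')` (bases `bP`, `bQ`), the vanishing of the
functionals `P`, `Q` of the cyclic operators on the vectors of the Jordan blocks, and the roots `t`. The theorem `hx_real` deduces that the
type `T` is realised, without unfolding the concrete spaces.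
-/

namespace Pool.Agent.H21.JR

open Module Pool.Agent.H4.JK

variable {H S : Type} [AddCommGroup H] [Module ℂ H] [CommRing S] [Algebra ℂ S]

/-- The data of the pencil at a pair of points. -/
def Pdat (j : H →ₗ[ℂ] S) {Z : Type} [Fintype Z] (d : Z → ZD S) (s s' : S)
    (T : Multiset ℕ × Multiset (Multiset ℕ)) : Prop :=
  ∃ (ι : Type) (_ : Fintype ι) (bl : ι → Block)
    (bP : Basis (Σ i, Fin (bl i).rows) ℂ H) (bQ : Basis (Σ i, Fin (bl i).cols) ℂ S)
    (t : (z : Z) → Fin ((d z).n + 1) → ℂ),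
    (∀ i r, MX j s (bP ⟨i, r⟩) = ∑ c, (bl i).PA r c • bQ ⟨i, c⟩ ∧
      MX j s' (bP ⟨i, r⟩) = ∑ c, (bl i).PB r c • bQ ⟨i, c⟩) ∧
    (∀ i r, (∀ k, bl i ≠ .kron k) → ∀ z l, (d z).P l (j (bP ⟨i, r⟩)) = 0 ∧
      (d z).Q l (j (bP ⟨i, r⟩)) = 0) ∧
    Gd d s s' t ∧ (∀ i, (bl i).Pos) ∧
    algType (Finset.univ.val.map (Sum.elim bl (fun y : Σ z, Fin ((d z).n + 1) =>
      Block.jordan (some (t y.1 y.2)) ((d y.1).μ + 1)))) = T

theorem Pdat.hasType [FiniteDimensional ℂ S] {j : H →ₗ[ℂ] S} {Z : Type} [Fintype Z]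
    {d : Z → ZD S} (hd : ∀ z, Clo j (d z)) {s s' : S} {T : Multiset ℕ × Multiset (Multiset ℕ)}
    (h : Pdat j d s s' T) (x a : Dual ℂ (HX (XD j d hd)))
    (f f' : Dual ℂ ((z : Z) → (d z).V)) (y y' : (z : Z) → (d z).V)
    (hx : ∀ (e : Dual ℂ S) (u : (z : Z) → (d z).V) (φ : Dual ℂ ((z : Z) → (d z).V)),
      x ((0, e, u, φ) : H × Dual ℂ S × ((z : Z) → (d z).V) × Dual ℂ ((z : Z) → (d z).V)) =
        e s + f u + φ y)
    (ha : ∀ (e : Dual ℂ S) (u : (z : Z) → (d z).V) (φ : Dual ℂ ((z : Z) → (d z).V)),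
      a ((0, e, u, φ) : H × Dual ℂ S × ((z : Z) → (d z).V) × Dual ℂ ((z : Z) → (d z).V)) =
        e s' + f' u + φ y') :
    HasType (V := HX (XD j d hd)) (fun ξ η => x ⁅ξ, η⁆) (fun ξ η => a ⁅ξ, η⁆) T := by
  obtain ⟨ι, hι, bl, bP, bQ, t, hb, hz, g, hpos, hT⟩ := h
  refine ⟨_, inferInstance, _, ?_, hT, abs_dec j d hd x a s s' f f' y y' hx ha bl bP bQ hb hz t g⟩
  rintro (i | z)
  · exact hpos i
  · exact Nat.succ_pos _

theorem hx_real [FiniteDimensional ℂ H] [FiniteDimensional ℂ S] (j : H →ₗ[ℂ] S) {Z : Type}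
    [Fintype Z] (d : Z → ZD S) (hd : ∀ z, Clo j (d z)) {I C : Type} [Fintype I] [Fintype C]
    (ρ : I → Dual ℂ S) (u w : C → Dual ℂ S) {G : (I → ℂ) × (I → ℂ) → Prop}
    (hG : ∀ᶠ p in gen I, G p) (T : Multiset ℕ × Multiset (Multiset ℕ))
    (hpt : ∀ p : (I → ℂ) × (I → ℂ), (∀ i, p.2 i ≠ 0) → ∃ s s' : S,
      (∀ i, ρ i s = p.1 i) ∧ (∀ i, ρ i s' = p.2 i) ∧
        ∀ c, u c s * w c s' - w c s * u c s' ≠ 0)
    (h : ∀ s s' : S, G (fun i => ρ i s, fun i => ρ i s') →
      (∀ c, u c s * w c s' - w c s * u c s' ≠ 0) → Pdat j d s s' T) :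
    Realisable T := by
  refine ⟨HX (XD j d hd), inferInstance, inferInstance, inferInstance, ?_⟩
  refine crit (fun i => inX (XD j d hd) (ρ i)) hG (fun c => inX (XD j d hd) (u c))
    (fun c => inX (XD j d hd) (w c)) ?_ T ?_
  · intro p hp
    obtain ⟨s, s', h1, h2, h3⟩ := hpt p hp
    refine ⟨evX (XD j d hd) s, evX (XD j d hd) s', h1, h2, h3⟩
  · intro x a hg hc
    obtain ⟨s, f, y, hs⟩ := exists_pt x
    obtain ⟨s', f', y', hs'⟩ := exists_pt a
    have hx : ∀ e : Dual ℂ S, x (inX (XD j d hd) e) = e s := by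
      intro e
      refine (hs e 0 0).trans ?_
      rw [map_zero, LinearMap.zero_apply, add_zero, add_zero]
    have ha : ∀ e : Dual ℂ S, a (inX (XD j d hd) e) = e s' := by
      intro e
      refine (hs' e 0 0).trans ?_
      rw [map_zero, LinearMap.zero_apply, add_zero, add_zero]
    have key : Pdat j d s s' T := by
      apply h s s'
      · simpa only [hx, ha] using hg
      · intro c
        have := hc c
        simpa only [hx, ha] using this
    exact key.hasType hd x a f f' y y' hs hs'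

end Pool.Agent.H21.JR
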