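import Pool.Agent.H21.JR.Cyc

/-!
# Module Roots (about 60 lines): `chi` has `n + 1` different roots

PROOF. `coeff (chi ..) (n + 1) = (-1)^(n+1) * (∏ PA - c * ∏ QA) ≠ 0` and `natDegree ≤ n + 1`: for a product of `n + 1` polynomials
`C a - C b * X` of degree at most one the coefficient of `X^(n+1)` is `∏ (-b)` (`Polynomial.coeff_prod_of_natDegree_le`) and the degree is at
most `n + 1` (`Polynomial.natDegree_prod_le` or `natDegree_prod_le_of..`). So `natDegree (chi ..) = n + 1`. By `hd` the polynomial has no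
multiple root: `Polynomial.nodup_roots` from separability, or `Multiset.nodup_iff_count_le_one` with
`Polynomial.one_lt_rootMultiplicity_iff_isRoot`. Since `ℂ` is algebraically closed, the multiset of the roots has
`n + 1` elements (`IsAlgClosed.splits`, `Polynomial.splits_iff_card_roots`), so `roots.toFinset` has `n + 1` elements; enumerate it by
`Finset.orderEmbOfFin`-like maps: `(roots.toFinset.equivFinOfCardEq h).symm`.
-/

namespace Pool.Agent.H21.JR

open Polynomial Pool.Agent.H4.JK

private theorem Roots_lin (a b : ℂ) : (C a - C b * X : ℂ[X]).natDegree ≤ 1 := by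
  refine (natDegree_sub_le _ _).trans ?_
  rw [natDegree_C]
  exact max_le (Nat.zero_le _) ((natDegree_C_mul_le b X).trans natDegree_X_le)

private theorem Roots_deg (n : ℕ) (P Q : Fin (n + 1) → ℂ) :
    (∏ i, (C (P i) - C (Q i) * X) : ℂ[X]).natDegree ≤ n + 1 := by
  refine (natDegree_prod_le _ _).trans ?_
  refine (Finset.sum_le_sum fun i _ => Roots_lin (P i) (Q i)).trans ?_
  simp

private theorem Roots_coeff (n : ℕ) (P Q : Fin (n + 1) → ℂ) :
    (∏ i, (C (P i) - C (Q i) * X) : ℂ[X]).coeff (n + 1) = (-1) ^ (n + 1) * ∏ i, Q i := by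
  have h := coeff_prod_of_natDegree_le (Finset.univ : Finset (Fin (n + 1)))
    (fun i => (C (P i) - C (Q i) * X : ℂ[X])) 1 (fun i _ => Roots_lin (P i) (Q i))
  rw [Finset.card_univ, Fintype.card_fin, mul_one] at h
  rw [h]
  have h1 : ∀ i, (C (P i) - C (Q i) * X : ℂ[X]).coeff 1 = (-1) * Q i := by
    intro i
    rw [coeff_sub, coeff_C_mul, coeff_X_one, coeff_C_succ]
    ring
  simp only [h1]
  rw [Finset.prod_mul_distrib, Finset.prod_const, Finset.card_univ, Fintype.card_fin]

theorem chi_roots (n : ℕ) (c : ℂ) (PX PA QX QA : Fin (n + 1) → ℂ)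
    (h0 : ∏ i, PA i - c * ∏ i, QA i ≠ 0)
    (hd : ∀ t, (chi n c PX PA QX QA).eval t = 0 →
      (derivative (chi n c PX PA QX QA)).eval t ≠ 0) :
    ∃ t : Fin (n + 1) → ℂ, Function.Injective t ∧ ∀ r, (chi n c PX PA QX QA).eval (t r) = 0 := by
  have hdeg : (chi n c PX PA QX QA).natDegree ≤ n + 1 := by
    unfold chi
    refine (natDegree_sub_le _ _).trans (max_le (Roots_deg n PX PA) ?_)
    exact (natDegree_C_mul_le _ _).trans (Roots_deg n QX QA)
  have hco : (chi n c PX PA QX QA).coeff (n + 1) =
      (-1) ^ (n + 1) * (∏ i, PA i - c * ∏ i, QA i) := by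
    unfold chi
    rw [coeff_sub, coeff_C_mul, Roots_coeff, Roots_coeff]
    ring
  have hco0 : (chi n c PX PA QX QA).coeff (n + 1) ≠ 0 := by
    rw [hco]
    exact mul_ne_zero (pow_ne_zero _ (by norm_num)) h0
  have hnd : (chi n c PX PA QX QA).natDegree = n + 1 :=
    le_antisymm hdeg (le_natDegree_of_ne_zero hco0)
  have hne : chi n c PX PA QX QA ≠ 0 := by
    intro h
    rw [h, coeff_zero] at hco0
    exact hco0 rfl
  have hnodup : (chi n c PX PA QX QA).roots.Nodup := by
    rw [Multiset.nodup_iff_count_le_one]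
    intro t
    rw [count_roots]
    by_contra hlt
    rw [not_le] at hlt
    obtain ⟨h1, h2⟩ := (one_lt_rootMultiplicity_iff_isRoot hne).1 hlt
    exact hd t h1 h2
  have hcard : (chi n c PX PA QX QA).roots.toFinset.card = n + 1 := by
    rw [Multiset.toFinset_card_of_nodup hnodup, IsAlgClosed.card_roots_eq_natDegree, hnd]
  refine ⟨fun r => ((chi n c PX PA QX QA).roots.toFinset.equivFinOfCardEq hcard).symm r,
    fun a b hab => ?_, fun r => ?_⟩
  · exact ((chi n c PX PA QX QA).roots.toFinset.equivFinOfCardEq hcard).symm.injective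
      (Subtype.ext hab)
  · have h3 := (((chi n c PX PA QX QA).roots.toFinset.equivFinOfCardEq hcard).symm r).2
    rw [Multiset.mem_toFinset] at h3
    exact isRoot_of_mem_roots h3

end Pool.Agent.H21.JR
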