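import Pool.Agent.H4.JKx

/-!
# Module TypX (about 90 lines): the type of the blocks

PROOF. As `bbl_type` in Pool/Agent/H4/JKk.lean, with `algType_family` for the index type
`G = RR k ⊕ (Σ l : Λ, Fin (N l + 1))`, the injective function `tt` and the groups
`Sum.elim (grp …) (fun y => Finset.univ.val.map fun x => μ y.1 x + 1)`. The multiset of the blocks: by `Fintype.sum_sum_type` and `Fintype.sum_sigma`
the sum of the singletons over the index type splits; the part `Sum.inl` is treated literally as in the proof of `bbl_type`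
(with `t = tt ∘ Sum.inl`); the part `Sum.inr`: `∑ z : Σ l, Xi l, ∑ r : Fin (N z.1 + 1), {jordan (some (tt (inr ⟨z.1, r⟩))) (μ z.1 z.2 + 1)} =
∑ y : Σ l, Fin (N l + 1), (univ.val.map fun x : Xi y.1 => μ y.1 x + 1).map (jordan (some (tt (inr y))))` (`Finset.sum_comm`). For the right side:
`Finset.univ.val.map (Sum.elim a b) = univ.val.map a + univ.val.map b` (`map_univ_sum`, JKl), `Multiset.filter_add`, the second part is not changed
by the filter because the groups are nonempty, and `univ.val.map` of a function of `y.1` only over the sigma type is the sum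
`∑ l, (N l + 1) • {J l}` (`map_univ_eq_sum`, `Fintype.sum_sigma`, `Finset.sum_const`).
-/

namespace Pool.Agent.H21.JR

open Module Pool.Agent.H4.JK

section Big

variable {κ γ : Type} [Fintype κ] [Fintype γ] [DecidableEq κ] [DecidableEq γ]
  (k : κ → ℕ) (τ : (j : κ) → Fin (k j + 1) → Type) [∀ j i, Fintype (τ j i)]
  [∀ j i, DecidableEq (τ j i)] (m : (j : κ) → (i : Fin (k j + 1)) → τ j i → ℕ)
  (n : γ → ℕ) (σ : γ → Type) [∀ g, Fintype (σ g)] [∀ g, DecidableEq (σ g)]
  (m' : (g : γ) → σ g → ℕ)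

private theorem TypX_bbl (t : RR (γ := γ) k → ℂ) :
    Finset.univ.val.map (bbl k τ m n σ m' t) =
      (Finset.univ.val.map k).map Block.kron +
        ∑ g, (grp k τ m n σ m' g).map (Block.jordan (some (t g))) := by
  rw [map_univ_eq_sum, Fintype.sum_sum_type, Fintype.sum_sum_type, Fintype.sum_sigma,
    Fintype.sum_sigma, Fintype.sum_sigma, Multiset.map_map, map_univ_eq_sum, ← add_assoc,
    ← Finset.sum_add_distrib]
  congr 1
  · apply Finset.sum_congr rfl
    intro j _
    rw [Fintype.sum_option]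
    congr 1
    rw [Fintype.sum_sigma]
    apply Finset.sum_congr rfl
    intro i _
    change _ = (Finset.univ.val.map (m j i)).map _
    rw [Multiset.map_map, map_univ_eq_sum]
    rfl
  · apply Finset.sum_congr rfl
    intro g _
    rw [Fintype.sum_option]
    change _ = ((n g + 1) ::ₘ Finset.univ.val.map (m' g)).map _
    rw [Multiset.map_cons, Multiset.map_map, map_univ_eq_sum, ← Multiset.singleton_add]
    rfl

private theorem TypX_jord {Λ : Type} [Fintype Λ] (N : Λ → ℕ) (Xi : Λ → Type) [∀ l, Fintype (Xi l)]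
    (μ : (l : Λ) → Xi l → ℕ) (t : (Σ l : Λ, Fin (N l + 1)) → ℂ) :
    Finset.univ.val.map (fun y : Σ z : (Σ l : Λ, Xi l), Fin (N z.1 + 1) =>
        Block.jordan (some (t ⟨y.1.1, y.2⟩)) (μ y.1.1 y.1.2 + 1)) =
      ∑ y : Σ l : Λ, Fin (N l + 1), (Finset.univ.val.map fun x : Xi y.1 => μ y.1 x + 1).map
        (Block.jordan (some (t y))) := by
  rw [map_univ_eq_sum, Fintype.sum_sigma, Fintype.sum_sigma, Fintype.sum_sigma]
  apply Finset.sum_congr rfl
  intro l _
  change ∑ x : Xi l, ∑ r : Fin (N l + 1),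
      ({Block.jordan (some (t ⟨l, r⟩)) (μ l x + 1)} : Multiset Block) =
    ∑ r : Fin (N l + 1), (Finset.univ.val.map fun x : Xi l => μ l x + 1).map
        (Block.jordan (some (t ⟨l, r⟩)))
  rw [Finset.sum_comm]
  apply Finset.sum_congr rfl
  intro r _
  rw [Multiset.map_map, map_univ_eq_sum]
  rfl

private theorem TypX_filter {Λ : Type} [Fintype Λ] (N : Λ → ℕ) (Xi : Λ → Type)
    [∀ l, Fintype (Xi l)] [∀ l, Nonempty (Xi l)] (μ : (l : Λ) → Xi l → ℕ) :
    (Finset.univ.val.map (fun y : Σ l : Λ, Fin (N l + 1) =>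
        Finset.univ.val.map fun x : Xi y.1 => μ y.1 x + 1)).filter (· ≠ 0) =
      ∑ l : Λ, (N l + 1) • {Finset.univ.val.map fun x : Xi l => μ l x + 1} := by
  rw [Multiset.filter_eq_self.2]
  · rw [map_univ_eq_sum, Fintype.sum_sigma]
    apply Finset.sum_congr rfl
    intro l _
    change ∑ _r : Fin (N l + 1), ({Finset.univ.val.map fun x : Xi l => μ l x + 1} :
      Multiset (Multiset ℕ)) = _
    rw [Finset.sum_const, Finset.card_univ, Fintype.card_fin]
  · intro a ha
    rw [Multiset.mem_map] at ha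
    obtain ⟨y, -, rfl⟩ := ha
    intro h
    have h1 := congrArg Multiset.card h
    rw [Multiset.card_map, Multiset.card_zero] at h1
    have h2 : 0 < Fintype.card (Xi y.1) := Fintype.card_pos
    change Fintype.card (Xi y.1) = 0 at h1
    omega

theorem typX {Λ : Type} [Fintype Λ] (N : Λ → ℕ) (Xi : Λ → Type) [∀ l, Fintype (Xi l)]
    [∀ l, Nonempty (Xi l)] (μ : (l : Λ) → Xi l → ℕ)
    (tt : RR (γ := γ) k ⊕ (Σ l : Λ, Fin (N l + 1)) → ℂ) (ht : Function.Injective tt) :
    algType (Finset.univ.val.map (Sum.elim (bbl k τ m n σ m' (fun r => tt (.inl r)))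
        (fun y : Σ z : (Σ l : Λ, Xi l), Fin (N z.1 + 1) =>
          Block.jordan (some (tt (.inr ⟨y.1.1, y.2⟩))) (μ y.1.1 y.1.2 + 1)))) =
      (Finset.univ.val.map k, (Finset.univ.val.map (grp k τ m n σ m')).filter (· ≠ 0) +
        ∑ l : Λ, (N l + 1) • {Finset.univ.val.map fun x : Xi l => μ l x + 1}) := by
  have h1 := algType_family (G := RR (γ := γ) k ⊕ (Σ l : Λ, Fin (N l + 1)))
    (Finset.univ.val.map k) tt ht
    (Sum.elim (grp k τ m n σ m') (fun y => Finset.univ.val.map fun x : Xi y.1 => μ y.1 x + 1))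
  rw [Fintype.sum_sum_type, map_univ_sum, Multiset.filter_add] at h1
  rw [map_univ_sum]
  have h2 := TypX_jord N Xi μ (fun y => tt (.inr y))
  have h3 := TypX_filter N Xi μ
  have h4 := TypX_bbl k τ m n σ m' (fun r => tt (.inl r))
  simp only [Sum.elim_inl, Sum.elim_inr] at h1 ⊢
  rw [h3, ← add_assoc] at h1
  refine Eq.trans ?_ h1
  congr 1
  exact congrArg₂ (· + ·) h4 h2

end Big

end Pool.Agent.H21.JR
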