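import Pool.Agent.H21.JR.HxA
import Pool.Agent.H21.JR.CzD
import Pool.Agent.H21.JR.Roots
import Pool.Agent.H21.JR.TypX

/-!
# Module HxT: the data of the pencil at a generic pair

PROOF of `hx_pdat`. Choose `t l` by `chi_roots` (hypotheses: `g.fa`, `g.der`; `chL` unfolds to `chi`).
`gd_of` gives `Gd`. `wt_dec` (hypotheses from `g.na`, `g.ndet`, `h3`) gives `bP`, `bQ`, and its last statement is the hypothesis on
the vectors of the Jordan blocks (`rhoA_apply`). Positivity of the blocks: as in `big_invariant` (JKk). The type: `typX` with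
`N := fun l => N (bk l)` and `tt = Sum.elim (fun r => rho r s / rho r s') (fun y => t y.1 y.2)`; injective: two residues `g.ndet`
(`div_eq_div_iff`), a residue and a root: `g.lin` (if `rho r s / rho r s' = t l i` then `rho r s - t l i * rho r s' = 0`), two roots of the same
`l`: injectivity of `t l`, of different `l`: `g.cop`.
-/

namespace Pool.Agent.H21.JR

open Module Pool.Agent.H4.JK

section Big

variable {κ γ : Type} [Fintype κ] [Fintype γ] [DecidableEq κ] [DecidableEq γ]
  (k : κ → ℕ) (τ : (j : κ) → Fin (k j + 1) → Type) [∀ j i, Fintype (τ j i)]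
  [∀ j i, DecidableEq (τ j i)] (m : (j : κ) → (i : Fin (k j + 1)) → τ j i → ℕ)
  (n : γ → ℕ) (σ : γ → Type) [∀ g, Fintype (σ g)] [∀ g, DecidableEq (σ g)]
  (m' : (g : γ) → σ g → ℕ)
  {Λ : Type} [Fintype Λ] (Xi : Λ → Type) [∀ l, Fintype (Xi l)] [∀ l, Nonempty (Xi l)]
  (μ : (l : Λ) → Xi l → ℕ) (bk : Λ → κ) (c : Λ → ℂ)
  (N : κ → ℕ) (p q : (j : κ) → Fin (N j + 1) → Fin (k j + 1))

theorem hx_pdat (hm : ∀ j i s, 0 < m j i s) (hm'0 : ∀ g p, 0 < m' g p)
    (hm' : ∀ g p, m' g p ≤ n g) (w : (j : κ) → Fin (k j + 1) → ℂ) (hw : ∀ j v, w j v ≠ 0)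
    (s s' : BS k τ m n σ m')
    (g : GC (fun l => N (bk l)) (iP k bk N p γ) (iP k bk N q γ) c (crd k τ m n σ m' s s'))
    (h3 : ∀ r, cfs k τ m n σ m' r s * rho k τ m n σ m' (slot k τ n σ r) s' -
      rho k τ m n σ m' (slot k τ n σ r) s * cfs k τ m n σ m' r s' ≠ 0) :
    Pdat (H := BH k τ m n σ m') (S := BS k τ m n σ m') (bjw k τ m n σ m' w)
      (cz k τ m n σ m' Xi μ bk c N p q) s s'
      (Finset.univ.val.map k, (Finset.univ.val.map (grp k τ m n σ m')).filter (· ≠ 0) +
        ∑ l : Λ, (N (bk l) + 1) • {Finset.univ.val.map fun x : Xi l => μ l x + 1}) := by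
  choose t ht hr using fun l => chi_roots (N (bk l)) (c l)
    (fun i => (crd k τ m n σ m' s s').1 (iP k bk N p γ l i))
    (fun i => (crd k τ m n σ m' s s').2 (iP k bk N p γ l i))
    (fun i => (crd k τ m n σ m' s s').1 (iP k bk N q γ l i))
    (fun i => (crd k τ m n σ m' s s').2 (iP k bk N q γ l i)) (g.fa l) (g.der l)
  have gd := gd_of k τ m n σ m' Xi μ bk c N p q s s' g t ht hr
  obtain ⟨bP, bQ, hb, hz⟩ := wt_dec k τ m n σ m' hm' w hw s s' g.na g.ndet h3
  have htt : Function.Injective (Sum.elim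
      (fun r => rho k τ m n σ m' r s / rho k τ m n σ m' r s')
      (fun y : Σ l : Λ, Fin (N (bk l) + 1) => t y.1 y.2)) := by
    have hna : ∀ r, rho k τ m n σ m' r s' ≠ 0 := g.na
    have hnd : ∀ r r', r ≠ r' → rho k τ m n σ m' r s * rho k τ m n σ m' r' s' -
      rho k τ m n σ m' r' s * rho k τ m n σ m' r s' ≠ 0 := g.ndet
    have hl : ∀ r, ∀ l i, rho k τ m n σ m' r s / rho k τ m n σ m' r s' ≠ t l i := by
      intro r l i h
      apply g.lin l (t l i) (hr l i) r
      rw [← h]
      change rho k τ m n σ m' r s - rho k τ m n σ m' r s / rho k τ m n σ m' r s' *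
        rho k τ m n σ m' r s' = 0
      rw [div_mul_cancel₀ _ (hna r), sub_self]
    rintro (r | ⟨l, i⟩) (r' | ⟨l', i'⟩) h
    · by_contra hne
      apply hnd r r' (fun h1 => hne (by rw [h1]))
      simp only [Sum.elim_inl] at h
      rw [div_eq_div_iff (hna r) (hna r')] at h
      have h2 : rho k τ m n σ m' r s * rho k τ m n σ m' r' s' =
        rho k τ m n σ m' r' s * rho k τ m n σ m' r s' := h
      rw [h2, sub_self]
    · exact absurd h (hl r l' i')
    · exact absurd h.symm (hl r' l i)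
    · by_cases hll : l' = l
      · subst hll
        have h1 : t l' i = t l' i' := h
        rw [ht l' h1]
      · have h1 : t l i = t l' i' := h
        have h2 := hr l' i'
        rw [← h1] at h2
        exact absurd h2 (g.cop l l' hll (t l i) (hr l i))
  refine ⟨_, inferInstance, _, bP, bQ, fun z => t z.1, hb, 
    (fun i r h z l => ⟨hz i r h ⟨bk z.1, p (bk z.1) l⟩, hz i r h ⟨bk z.1, q (bk z.1) l⟩⟩), gd, ?_, ?_⟩
  · rintro (⟨j, _ | p⟩ | ⟨g, _ | p⟩)
    · trivial
    · exact hm _ _ _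
    · exact Nat.succ_pos _
    · exact hm'0 _ _
  · exact typX k τ m n σ m' (fun l => N (bk l)) Xi μ _ htt

end Big

end Pool.Agent.H21.JR
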