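import Pool.Agent.H4.JKx

/-!
# Module Irr (about 60 lines): the polynomials `∏ X (P i) - c ∏ X (Q i)` are irreducible

PROOF. Put `F = ∏ i ∈ univ.erase i0, X (P i)` and `G = - C c * ∏ i, X (Q i)`, so `fpq = F * X (P i0) + G`
(`Finset.mul_prod_erase`). Apply `MvPolynomial.irreducible_mul_X_add` (Mathlib/RingTheory/MvPolynomial/IrreducibleQuadratic.lean) with
the variable `P i0`: `F ≠ 0` (`Finset.prod_ne_zero_iff`, `MvPolynomial.X_ne_zero`); `P i0` is not in `F.vars` (`MvPolynomial.vars_prod`,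
`MvPolynomial.vars_X`, `h1`) nor in `G.vars` (`MvPolynomial.vars_C_mul`, `vars_prod`, `hPQ`); `IsRelPrime F G`: `C c` is a unit, and for
products use `IsRelPrime.prod_left`, `IsRelPrime.prod_right`; `X a` and `X b` are relatively prime for `a ≠ b` (`X a` is irreducible and does
not divide `X b`: `Irreducible.isRelPrime_iff_not_dvd`, `MvPolynomial.X_dvd_X` or by evaluation at a point with `X a = 0`, `X b = 1`).
-/

namespace Pool.Agent.H21.JR

open MvPolynomial Pool.Agent.H4.JK

/-- The binomial. -/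
noncomputable def fpq {I : Type} (n : ℕ) (P Q : Fin (n + 1) → I) (c : ℂ) : MvPolynomial I ℂ :=
  ∏ i, X (P i) - C c * ∏ i, X (Q i)

theorem fpq_eval {I : Type} (n : ℕ) (P Q : Fin (n + 1) → I) (c : ℂ) (y : I → ℂ) :
    eval y (fpq n P Q c) = ∏ i, y (P i) - c * ∏ i, y (Q i) := by
  simp only [fpq, map_sub, map_mul, map_prod, eval_X, eval_C]

theorem fpq_irr {I : Type} (n : ℕ) (P Q : Fin (n + 1) → I) (c : ℂ) (hc : c ≠ 0) (i0 : Fin (n + 1))
    (h1 : ∀ i, i ≠ i0 → P i ≠ P i0) (hPQ : ∀ i i', P i ≠ Q i') : Irreducible (fpq n P Q c) := by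
  classical
  have hF : fpq n P Q c = (∏ i ∈ Finset.univ.erase i0, (X (P i) : MvPolynomial I ℂ)) * X (P i0) +
      (-(C c * ∏ i, X (Q i))) := by
    rw [Finset.prod_erase_mul _ (fun i => (X (P i) : MvPolynomial I ℂ)) (Finset.mem_univ i0),
      ← sub_eq_add_neg]
    rfl
  rw [hF]
  apply irreducible_mul_X_add
  · exact Finset.prod_ne_zero_iff.2 fun i _ => X_ne_zero _
  · intro h
    have h2 := vars_prod (s := Finset.univ.erase i0) (fun i => (X (P i) : MvPolynomial I ℂ)) h
    obtain ⟨i, hi, hi2⟩ := Finset.mem_biUnion.1 h2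
    rw [vars_X, Finset.mem_singleton] at hi2
    exact h1 i (Finset.ne_of_mem_erase hi) hi2.symm
  · intro h
    rw [vars_neg, vars_C_mul c hc] at h
    have h2 := vars_prod (s := Finset.univ) (fun i => (X (Q i) : MvPolynomial I ℂ)) h
    obtain ⟨i, -, hi2⟩ := Finset.mem_biUnion.1 h2
    rw [vars_X, Finset.mem_singleton] at hi2
    exact hPQ i0 i hi2
  · have hu : IsUnit (-(C c) : MvPolynomial I ℂ) := (hc.isUnit.map C).neg
    rw [← neg_mul, isRelPrime_mul_unit_left_right hu]
    refine IsRelPrime.prod_left fun i _ => IsRelPrime.prod_right fun j _ => ?_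
    rw [(X_prime (R := ℂ) (i := P i)).irreducible.isRelPrime_iff_not_dvd, X_dvd_X]
    exact hPQ i j

end Pool.Agent.H21.JR
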