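import Pool.Agent.H4.JKx

/-!
# Module NilR (about 110 lines): the residues of the Jordan basis vectors of the big pencil vanish

PROOFS. `nil_abs`: `PA` of `.jordan (some μ) M` is `bidiag M M μ 1`, `PB` is `bidiag M M 1 0`. By `hb` and `bid_sum_t1`, `bid_sum_10`
(Pool/Agent/H4/JKh.lean; extend `c ↦ bQ ⟨i, c⟩` to `ℕ` by `0`): for `r + 1 < M`: `X (bP ⟨i, r⟩) = μ • bQ ⟨i, r⟩ + bQ ⟨i, r + 1⟩`, for
`r + 1 = M`: `X (bP ⟨i, r⟩) = μ • bQ ⟨i, r⟩`, and always `Y (bP ⟨i, r⟩) = bQ ⟨i, r⟩`. Apply `f`: `(xf - μ * af) * g (bP ⟨i, r⟩) = f (bQ ⟨i, r+1⟩) =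
f (Y (bP ⟨i, r + 1⟩)) = af * g (bP ⟨i, r + 1⟩)` resp. `0`. Descending induction on `r` gives `g (bP ⟨i, r⟩) = 0`.
`nil_res`: `i` is a Jordan index, so `bbl … t i = .jordan (some (t r0)) M` for some `r0 : RR` (cases on `i`; `t r = rho r x / rho r a`). For every
`z` with `.inl z ≠ r0`: `nil_abs` with `f = rho (.inl z)`, `g = (rho (.inl z)).comp bj` (the functional `rho (.inl z)` is multiplicative:
`rho (.inl z) (s * s') = rho (.inl z) s * rho (.inl z) s'` by `rfl`; `BX s h = s * bj h`), and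
`rho z x - t r0 * rho z a ≠ 0` by `h2` and `h1`. If `.inl z = r0`: the elements of `KH` have vanishing sum of the residues:
`∑ v, rho (.inl ⟨z.1, v⟩) (bj h) = 0` (`rho_sum` below), and all terms with `v ≠ z.2` vanish by the first case.
-/

namespace Pool.Agent.H21.JR

open Module Pool.Agent.H4.JK

private theorem nilR_blk {P Q : Type} [AddCommGroup P] [Module ℂ P] [AddCommGroup Q] [Module ℂ Q]
    {X Y : P →ₗ[ℂ] Q} (b : Block) (vP : Fin b.rows → P) (vQ : Fin b.cols → Q)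
    (hb : ∀ r, X (vP r) = ∑ c, b.PA r c • vQ c ∧ Y (vP r) = ∑ c, b.PB r c • vQ c)
    (μ : ℂ) (M : ℕ) (hi : b = .jordan (some μ) M) (f : Q →ₗ[ℂ] ℂ) (g : P →ₗ[ℂ] ℂ)
    (xf af : ℂ) (hX : ∀ h, f (X h) = xf * g h) (hY : ∀ h, f (Y h) = af * g h)
    (hne : xf - μ * af ≠ 0) (r : Fin b.rows) : g (vP r) = 0 := by
  subst hi
  obtain ⟨v, hv⟩ : ∃ v : ℕ → Q, v = fun c => if h : c < M then vQ ⟨c, h⟩ else 0 := ⟨_, rfl⟩
  have hv1 : ∀ c, M ≤ c → v c = 0 := by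
    intro c hc
    rw [hv]
    exact dif_neg (by omega)
  have hv2 : ∀ c : Fin M, v c = vQ c := by
    intro c
    rw [hv]
    exact dif_pos c.2
  have hXr : ∀ r : Fin M, X (vP r) = μ • v r + v (r + 1) := by
    intro r
    have h1 : X (vP r) = ∑ c : Fin M, bidiag M M μ 1 r c • vQ c := (hb r).1
    have h2 : ∑ c : Fin M, bidiag M M μ 1 r c • vQ c = ∑ c : Fin M, bidiag M M μ 1 r c • v c :=
      Finset.sum_congr rfl fun c _ => by rw [hv2]
    rw [h1, h2, bid_sum_t1 M μ r v (hv1 M le_rfl)]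
  have hYr : ∀ r : Fin M, Y (vP r) = v r := by
    intro r
    have h1 : Y (vP r) = ∑ c : Fin M, bidiag M M 1 0 r c • vQ c := (hb r).2
    have h2 : ∑ c : Fin M, bidiag M M 1 0 r c • vQ c = ∑ c : Fin M, bidiag M M 1 0 r c • v c :=
      Finset.sum_congr rfl fun c _ => by rw [hv2]
    rw [h1, h2, bid_sum_10 M M r v r.2]
  have hstep : ∀ r : Fin M, (xf - μ * af) * g (vP r) = f (v (r + 1)) := by
    intro r
    have h1 := hX (vP r)
    have h2 := hY (vP r)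
    rw [hXr r, map_add, map_smul, smul_eq_mul] at h1
    rw [hYr r] at h2
    rw [h2] at h1
    linear_combination (-1 : ℂ) * h1
  have hall : ∀ d c, M ≤ c + d → f (v c) = 0 := by
    intro d
    induction d with
    | zero =>
      intro c hc
      rw [hv1 c (by omega), map_zero]
    | succ d ih =>
      intro c hc
      by_cases hcM : c < M
      · have h1 := hstep ⟨c, hcM⟩
        rw [ih (c + 1) (by omega)] at h1
        have h2 : g (vP (⟨c, hcM⟩ : Fin M)) = 0 := (mul_eq_zero.1 h1).resolve_left hne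
        have h3 := hY (vP (⟨c, hcM⟩ : Fin M))
        rw [hYr ⟨c, hcM⟩, h2, mul_zero] at h3
        exact h3
      · rw [hv1 c (by omega), map_zero]
  have h1 := hstep r
  rw [hall M _ (by omega)] at h1
  exact (mul_eq_zero.1 h1).resolve_left hne

theorem nil_abs {P Q : Type} [AddCommGroup P] [Module ℂ P] [AddCommGroup Q] [Module ℂ Q]
    {X Y : P →ₗ[ℂ] Q} {ι : Type} [Fintype ι] (bl : ι → Block)
    (bP : Basis (Σ i, Fin (bl i).rows) ℂ P) (bQ : Basis (Σ i, Fin (bl i).cols) ℂ Q)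
    (hb : ∀ i r, X (bP ⟨i, r⟩) = ∑ c, (bl i).PA r c • bQ ⟨i, c⟩ ∧
      Y (bP ⟨i, r⟩) = ∑ c, (bl i).PB r c • bQ ⟨i, c⟩)
    (i : ι) (μ : ℂ) (M : ℕ) (hi : bl i = .jordan (some μ) M) (f : Q →ₗ[ℂ] ℂ) (g : P →ₗ[ℂ] ℂ)
    (xf af : ℂ) (hX : ∀ h, f (X h) = xf * g h) (hY : ∀ h, f (Y h) = af * g h)
    (hne : xf - μ * af ≠ 0) (r : Fin (bl i).rows) : g (bP ⟨i, r⟩) = 0 :=
  nilR_blk (X := X) (Y := Y) (bl i) (fun r => bP ⟨i, r⟩) (fun c => bQ ⟨i, c⟩) (fun r => hb i r)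
    μ M hi f g xf af hX hY hne r

section Big

variable {κ γ : Type} [Fintype κ] [Fintype γ] [DecidableEq κ] [DecidableEq γ]
  (k : κ → ℕ) (τ : (j : κ) → Fin (k j + 1) → Type) [∀ j i, Fintype (τ j i)]
  [∀ j i, DecidableEq (τ j i)] (m : (j : κ) → (i : Fin (k j + 1)) → τ j i → ℕ)
  (n : γ → ℕ) (σ : γ → Type) [∀ g, Fintype (σ g)] [∀ g, DecidableEq (σ g)]
  (m' : (g : γ) → σ g → ℕ)

theorem rho_sum (j : κ) (h : BH k τ m n σ m') :
    ∑ v, rho k τ m n σ m' (.inl ⟨j, v⟩) (bj k τ m n σ m' h) = 0 := by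
  have h1 : ksum (k j) (τ j) (m j) (h.1 j : KS (k j) (τ j) (m j)) = 0 :=
    LinearMap.mem_ker.1 (h.1 j).2
  exact h1

theorem nil_res (x a : BS k τ m n σ m') (h1 : ∀ r, rho k τ m n σ m' r a ≠ 0)
    (h2 : ∀ r r', r ≠ r' → rho k τ m n σ m' r x * rho k τ m n σ m' r' a -
      rho k τ m n σ m' r' x * rho k τ m n σ m' r a ≠ 0)
    (bP : Basis (Σ i, Fin (bbl k τ m n σ m'
      (fun r => rho k τ m n σ m' r x / rho k τ m n σ m' r a) i).rows) ℂ (BH k τ m n σ m'))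
    (bQ : Basis (Σ i, Fin (bbl k τ m n σ m'
      (fun r => rho k τ m n σ m' r x / rho k τ m n σ m' r a) i).cols) ℂ (BS k τ m n σ m'))
    (hb : ∀ i r, BX k τ m n σ m' x (bP ⟨i, r⟩) = ∑ c, (bbl k τ m n σ m'
        (fun r => rho k τ m n σ m' r x / rho k τ m n σ m' r a) i).PA r c • bQ ⟨i, c⟩ ∧
      BX k τ m n σ m' a (bP ⟨i, r⟩) = ∑ c, (bbl k τ m n σ m'
        (fun r => rho k τ m n σ m' r x / rho k τ m n σ m' r a) i).PB r c • bQ ⟨i, c⟩)
    (i : (Σ j : κ, Option (Σ i, τ j i)) ⊕ (Σ g : γ, Option (σ g)))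
    (r : Fin (bbl k τ m n σ m' (fun r => rho k τ m n σ m' r x / rho k τ m n σ m' r a) i).rows)
    (hi : ∀ l, bbl k τ m n σ m' (fun r => rho k τ m n σ m' r x / rho k τ m n σ m' r a) i ≠ .kron l)
    (z : Σ j : κ, Fin (k j + 1)) :
    rho k τ m n σ m' (.inl z) (bj k τ m n σ m' (bP ⟨i, r⟩)) = 0 := by
  obtain ⟨r0, M, hM⟩ : ∃ r0 : RR (γ := γ) k, ∃ M : ℕ, bbl k τ m n σ m'
      (fun r => rho k τ m n σ m' r x / rho k τ m n σ m' r a) i =
        .jordan (some (rho k τ m n σ m' r0 x / rho k τ m n σ m' r0 a)) M := by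
    rcases i with ⟨j, _ | p⟩ | ⟨g, _ | p⟩
    · exact absurd rfl (hi (k j))
    · exact ⟨.inl ⟨j, p.1⟩, m j p.1 p.2, rfl⟩
    · exact ⟨.inr g, n g + 1, rfl⟩
    · exact ⟨.inr g, m' g p, rfl⟩
  have key : ∀ z : Σ j : κ, Fin (k j + 1), (.inl z : RR (γ := γ) k) ≠ r0 →
      rho k τ m n σ m' (.inl z) (bj k τ m n σ m' (bP ⟨i, r⟩)) = 0 := by
    intro z hz
    have hX : ∀ (s : BS k τ m n σ m') (h : BH k τ m n σ m'),
        rho k τ m n σ m' (.inl z) (BX k τ m n σ m' s h) = rho k τ m n σ m' (.inl z) s *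
          ((rho k τ m n σ m' (.inl z)).comp (bj k τ m n σ m')) h := fun s h => rfl
    refine nil_abs (P := BH k τ m n σ m') (Q := BS k τ m n σ m') (X := BX k τ m n σ m' x)
      (Y := BX k τ m n σ m' a) (bbl k τ m n σ m'
        (fun r => rho k τ m n σ m' r x / rho k τ m n σ m' r a)) bP bQ hb i
      (rho k τ m n σ m' r0 x / rho k τ m n σ m' r0 a) M hM
      (rho k τ m n σ m' (.inl z)) ((rho k τ m n σ m' (.inl z)).comp (bj k τ m n σ m'))
      (rho k τ m n σ m' (.inl z) x) (rho k τ m n σ m' (.inl z) a) (hX x) (hX a) ?_ r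
    have h3 := h2 (.inl z) r0 hz
    have h4 := h1 r0
    intro h5
    apply h3
    have h6 : rho k τ m n σ m' r0 x / rho k τ m n σ m' r0 a * rho k τ m n σ m' r0 a =
      rho k τ m n σ m' r0 x := div_mul_cancel₀ _ h4
    linear_combination (rho k τ m n σ m' r0 a) * h5 +
      (rho k τ m n σ m' (.inl z) a) * h6
  by_cases hz : (.inl z : RR (γ := γ) k) = r0
  · have h3 := rho_sum k τ m n σ m' z.1 (bP ⟨i, r⟩)
    rw [Finset.sum_eq_single z.2] at h3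
    · exact h3
    · intro v _ hv
      refine key ⟨z.1, v⟩ ?_
      intro h4
      rw [← hz] at h4
      have h5 := Sum.inl_injective h4
      apply hv
      have h6 : (⟨z.1, v⟩ : Σ j : κ, Fin (k j + 1)) = ⟨z.1, z.2⟩ := h5
      exact eq_of_heq (Sigma.mk.inj h6).2
    · intro h4
      exact absurd (Finset.mem_univ _) h4
  · exact key z hz

end Big

end Pool.Agent.H21.JR
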