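import Pool.Agent.H21.JR.Irr

/-!
# Module Pts (about 90 lines): the binomials do not divide certain polynomials

PROOFS. If `eval y f = 0` and `eval y g ≠ 0` then `¬ f ∣ g`. Take `s` with `s ^ (n + 1) = 1 / c`
(`IsAlgClosed.exists_pow_nat_eq`), `s ≠ 0`, and the point `y v = s` if `v` is some `Q i` and `y v = 1` otherwise (classical `if`); the
`P i` have the value `1` because they differ from all `Q i'`. So `fpq_eval` gives `1 - c * s ^ (n+1) = 0`. `ndvd_X`: `eval y (X r) = y r ≠ 0`.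
`ndvd_same`: the value of `fpq n' P' Q' c'` at `y` is `∏ y (P' i) - c' * ∏ y (Q' i)`; by the hypotheses (apply `eval y` to `hP`, `hQ`) the products are
`1` and `s ^ (n + 1) = 1 / c`, so it is `1 - c' / c ≠ 0`. `ndvd_dis`: change the point: `y v = 0` if `v` is some `Q' i`, otherwise `s` if `v` is
some `Q i`, otherwise `1`; the first polynomial still vanishes and the second has the value `1 - c' * 0 = 1`.
-/

namespace Pool.Agent.H21.JR

open MvPolynomial Pool.Agent.H4.JK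

open Classical in
private noncomputable def Pts_y {I : Type} (n : ℕ) (Q : Fin (n + 1) → I) (s : ℂ) (v : I) : ℂ :=
  if ∃ i, Q i = v then s else 1

private theorem Pts_y_of_mem {I : Type} (n : ℕ) (Q : Fin (n + 1) → I) (s : ℂ) (i : Fin (n + 1)) :
    Pts_y n Q s (Q i) = s := by
  unfold Pts_y
  rw [if_pos ⟨i, rfl⟩]

private theorem Pts_y_of_not {I : Type} (n : ℕ) (Q : Fin (n + 1) → I) (s : ℂ) (v : I)
    (h : ∀ i, v ≠ Q i) : Pts_y n Q s v = 1 := by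
  unfold Pts_y
  rw [if_neg]
  rintro ⟨i, hi⟩
  exact h i hi.symm

private theorem Pts_root (n : ℕ) (c : ℂ) (hc : c ≠ 0) : ∃ s : ℂ, s ≠ 0 ∧ s ^ (n + 1) = c⁻¹ := by
  obtain ⟨s, hs⟩ := IsAlgClosed.exists_pow_nat_eq (c⁻¹) (Nat.succ_pos n)
  refine ⟨s, ?_, hs⟩
  rintro rfl
  rw [zero_pow (Nat.succ_ne_zero n)] at hs
  exact inv_ne_zero hc hs.symm

private theorem Pts_not {I : Type} {f g : MvPolynomial I ℂ} (y : I → ℂ) (hf : eval y f = 0)
    (hg : eval y g ≠ 0) : ¬ f ∣ g := by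
  rintro ⟨k, rfl⟩
  rw [map_mul, hf, zero_mul] at hg
  exact hg rfl

private theorem Pts_prodP {I : Type} (n : ℕ) (P Q : Fin (n + 1) → I) (s : ℂ)
    (hPQ : ∀ i i', P i ≠ Q i') : ∏ i, Pts_y n Q s (P i) = 1 :=
  Finset.prod_eq_one fun i _ => Pts_y_of_not n Q s (P i) (hPQ i)

private theorem Pts_prodQ {I : Type} (n : ℕ) (Q : Fin (n + 1) → I) (s : ℂ) :
    ∏ i, Pts_y n Q s (Q i) = s ^ (n + 1) := by
  rw [Finset.prod_congr rfl (fun i _ => Pts_y_of_mem n Q s i), Finset.prod_const,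
    Finset.card_univ, Fintype.card_fin]

private theorem Pts_zero {I : Type} (n : ℕ) (P Q : Fin (n + 1) → I) (c s : ℂ) (hc : c ≠ 0)
    (hs : s ^ (n + 1) = c⁻¹) (hPQ : ∀ i i', P i ≠ Q i') :
    eval (Pts_y n Q s) (fpq n P Q c) = 0 := by
  rw [fpq_eval, Pts_prodP n P Q s hPQ, Pts_prodQ, hs, mul_inv_cancel₀ hc, sub_self]

theorem ndvd_X {I : Type} (n : ℕ) (P Q : Fin (n + 1) → I) (c : ℂ) (hc : c ≠ 0)
    (hPQ : ∀ i i', P i ≠ Q i') (r : I) : ¬ fpq n P Q c ∣ X r := by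
  obtain ⟨s, hs0, hs⟩ := Pts_root n c hc
  refine Pts_not (Pts_y n Q s) (Pts_zero n P Q c s hc hs hPQ) ?_
  rw [eval_X]
  unfold Pts_y
  split_ifs
  · exact hs0
  · exact one_ne_zero

theorem ndvd_same {I : Type} (n : ℕ) (P Q : Fin (n + 1) → I) (c : ℂ) (hc : c ≠ 0)
    (hPQ : ∀ i i', P i ≠ Q i') (n' : ℕ) (P' Q' : Fin (n' + 1) → I) (c' : ℂ) (hcc : c ≠ c')
    (hP : ∏ i, (X (P i) : MvPolynomial I ℂ) = ∏ i, X (P' i))
    (hQ : ∏ i, (X (Q i) : MvPolynomial I ℂ) = ∏ i, X (Q' i)) :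
    ¬ fpq n P Q c ∣ fpq n' P' Q' c' := by
  obtain ⟨s, -, hs⟩ := Pts_root n c hc
  refine Pts_not (Pts_y n Q s) (Pts_zero n P Q c s hc hs hPQ) ?_
  have h1 := congrArg (eval (Pts_y n Q s)) hP
  have h2 := congrArg (eval (Pts_y n Q s)) hQ
  simp only [map_prod, eval_X] at h1 h2
  rw [fpq_eval, ← h1, ← h2, Pts_prodP n P Q s hPQ, Pts_prodQ, hs]
  intro h3
  apply hcc
  have h4 : c' * c⁻¹ = 1 := (sub_eq_zero.1 h3).symm
  calc c = (c' * c⁻¹) * c := by rw [h4, one_mul]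
    _ = c' := by rw [mul_assoc, inv_mul_cancel₀ hc, mul_one]

theorem ndvd_dis {I : Type} (n : ℕ) (P Q : Fin (n + 1) → I) (c : ℂ) (hc : c ≠ 0)
    (hPQ : ∀ i i', P i ≠ Q i') (n' : ℕ) (P' Q' : Fin (n' + 1) → I) (c' : ℂ)
    (hPQ' : ∀ i i', P' i ≠ Q' i')
    (hd : ∀ i i', P i ≠ P' i' ∧ P i ≠ Q' i' ∧ Q i ≠ P' i' ∧ Q i ≠ Q' i') :
    ¬ fpq n P Q c ∣ fpq n' P' Q' c' := by
  classical
  obtain ⟨s, -, hs⟩ := Pts_root n c hc
  let y : I → ℂ := fun v => if ∃ i, Q' i = v then 0 else Pts_y n Q s v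
  have hy : ∀ v, (∀ i, v ≠ Q' i) → y v = Pts_y n Q s v := by
    intro v hv
    change (if ∃ i, Q' i = v then (0 : ℂ) else Pts_y n Q s v) = _
    rw [if_neg]
    rintro ⟨i, hi⟩
    exact hv i hi.symm
  have hy0 : ∀ i, y (Q' i) = 0 := by
    intro i
    change (if ∃ i', Q' i' = Q' i then (0 : ℂ) else Pts_y n Q s (Q' i)) = _
    rw [if_pos ⟨i, rfl⟩]
  refine Pts_not y ?_ ?_
  · have h1 : ∀ i, y (P i) = Pts_y n Q s (P i) := fun i => hy _ fun i' => (hd i i').2.1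
    have h2 : ∀ i, y (Q i) = Pts_y n Q s (Q i) := fun i => hy _ fun i' => (hd i i').2.2.2
    have h3 := Pts_zero n P Q c s hc hs hPQ
    rw [fpq_eval] at h3 ⊢
    rw [Finset.prod_congr rfl (fun i _ => h1 i), Finset.prod_congr rfl (fun i _ => h2 i)]
    exact h3
  · have h1 : ∀ i, y (P' i) = 1 := by
      intro i
      rw [hy _ (hPQ' i)]
      exact Pts_y_of_not n Q s _ fun i' h => (hd i' i).2.2.1 h.symm
    rw [fpq_eval, Finset.prod_eq_one (fun i _ => h1 i),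
      Finset.prod_eq_zero (Finset.mem_univ (0 : Fin (n' + 1))) (hy0 0), mul_zero, sub_zero]
    exact one_ne_zero

theorem fpq_ne {I : Type} (n : ℕ) (P Q : Fin (n + 1) → I) (c : ℂ)
    (hPQ : ∀ i i', P i ≠ Q i') : fpq n P Q c ≠ 0 := by
  intro h
  have h1 := congrArg (eval (Pts_y n Q 0)) h
  rw [fpq_eval, Pts_prodP n P Q 0 hPQ, Pts_prodQ, zero_pow (Nat.succ_ne_zero n), mul_zero,
    sub_zero, map_zero] at h1
  exact one_ne_zero h1

end Pool.Agent.H21.JR
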