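import Pool.Agent.H4.JKx

/-!
# Module Syl (about 120 lines): the Sylvester equation for the cross terms

PROOF. For a Kronecker index `i` (`bl i = .kron k`) write `h r = bP ⟨i, r⟩`, `r < k`, `v c = bQ ⟨i, c⟩`, `c ≤ k`;
`X (h r) = v r`, `Y (h r) = v (r+1)`. By recursion on `r` there are `t r` in `W` with `t 0 = 0` and
`RX (t (r+1)) = QX (h (r+1)) - QY (h r) + RY (t r)` for `r + 1 < k` (`hsur`). `T` is the linear map with `T (h r) = t r` on the
Kronecker basis vectors and `0` on the Jordan ones (`Basis.constr`). `Sg w` is the functional with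
`Sg w (v c) = QX (h c) w - RX (t c) w` for `c < k`, `Sg w (v k) = QY (h (k-1)) w - RY (t (k-1)) w` if `0 < k` and `0` if `k = 0`,
and `0` on the Jordan basis vectors; it is linear in `w`. The two equations are linear in `h`: check them on `bP`. Kronecker:
the first is the definition of `Sg w (v r)`; the second for `r + 1 < k` is `Sg w (v (r+1)) = QX (h (r+1)) w - RX (t (r+1)) w
= QY (h r) w - RY (t r) w` by the choice of `t (r+1)`, for `r + 1 = k` it is the definition. Jordan: all terms vanish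
(`X`, `Y` of a Jordan basis vector are combinations of Jordan basis vectors `bQ ⟨i, c⟩`).
-/

namespace Pool.Agent.H21.JR

open Module Pool.Agent.H4.JK

private theorem Syl_A {V : Type} [AddCommGroup V] [Module ℂ V] {k : ℕ} (r : Fin k) (f : ℕ → V) :
    ∑ c : Fin (k + 1), bidiag k (k + 1) 1 0 r c • f c = f r := by
  have hr : (r : ℕ) < k + 1 := Nat.lt_succ_of_lt r.2
  rw [Finset.sum_eq_single (⟨r, hr⟩ : Fin (k + 1))]
  · simp [bidiag]
  · intro c _ hc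
    have h1 : (c : ℕ) ≠ r := fun h => hc (Fin.ext h)
    simp [bidiag, h1]
  · intro h
    exact absurd (Finset.mem_univ _) h

private theorem Syl_B {V : Type} [AddCommGroup V] [Module ℂ V] {k : ℕ} (r : Fin k) (f : ℕ → V) :
    ∑ c : Fin (k + 1), bidiag k (k + 1) 0 1 r c • f c = f (r + 1) := by
  have hr : (r : ℕ) + 1 < k + 1 := Nat.succ_lt_succ r.2
  rw [Finset.sum_eq_single (⟨r + 1, hr⟩ : Fin (k + 1))]
  · simp [bidiag]
  · intro c _ hc
    have h1 : (c : ℕ) ≠ r + 1 := fun h => hc (Fin.ext h)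
    simp [bidiag, h1]
  · intro h
    exact absurd (Finset.mem_univ _) h

private theorem Syl_PA {V : Type} [AddCommGroup V] [Module ℂ V] {b : Block} {k : ℕ} (hb : b = .kron k)
    (r : Fin b.rows) (f : ℕ → V) : ∑ c : Fin b.cols, b.PA r c • f c = f r := by
  subst hb
  exact Syl_A (k := k) r f

private theorem Syl_PB {V : Type} [AddCommGroup V] [Module ℂ V] {b : Block} {k : ℕ} (hb : b = .kron k)
    (r : Fin b.rows) (f : ℕ → V) : ∑ c : Fin b.cols, b.PB r c • f c = f (r + 1) := by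
  subst hb
  exact Syl_B (k := k) r f

theorem sylv {P Q W : Type} [AddCommGroup P] [Module ℂ P] [AddCommGroup Q] [Module ℂ Q]
    [AddCommGroup W] [Module ℂ W] {X Y : P →ₗ[ℂ] Q} {ι : Type} [Fintype ι] (bl : ι → Block)
    (bP : Basis (Σ i, Fin (bl i).rows) ℂ P) (bQ : Basis (Σ i, Fin (bl i).cols) ℂ Q)
    (hb : ∀ i r, X (bP ⟨i, r⟩) = ∑ c, (bl i).PA r c • bQ ⟨i, c⟩ ∧
      Y (bP ⟨i, r⟩) = ∑ c, (bl i).PB r c • bQ ⟨i, c⟩)
    (QX QY : P →ₗ[ℂ] W →ₗ[ℂ] ℂ)
    (hQ : ∀ i r, (∀ k, bl i ≠ .kron k) → QX (bP ⟨i, r⟩) = 0 ∧ QY (bP ⟨i, r⟩) = 0)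
    (RX RY : W →ₗ[ℂ] W →ₗ[ℂ] ℂ) (hsur : ∀ f : W →ₗ[ℂ] ℂ, ∃ w, RX w = f) :
    ∃ (T : P →ₗ[ℂ] W) (Sg : W →ₗ[ℂ] Dual ℂ Q),
      (∀ i r, (∀ k, bl i ≠ .kron k) → T (bP ⟨i, r⟩) = 0) ∧
      ∀ h w, QX h w = Sg w (X h) + RX (T h) w ∧ QY h w = Sg w (Y h) + RY (T h) w := by
  classical
  choose S hS using hsur
  obtain ⟨h, hh⟩ : ∃ h : ι → ℕ → P, h = fun i r =>
      if hr : r < (bl i).rows then bP ⟨i, ⟨r, hr⟩⟩ else 0 := ⟨_, rfl⟩
  have hb' : ∀ i (r : Fin (bl i).rows), h i r = bP ⟨i, r⟩ := by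
    intro i r
    rw [hh]
    simp
  obtain ⟨t, ht⟩ : ∃ t : ι → ℕ → W, t = fun i r =>
      Nat.rec (0 : W) (fun r w => S (QX (h i (r + 1)) - QY (h i r) + RY w)) r := ⟨_, rfl⟩
  have ht' : ∀ i r, RX (t i (r + 1)) = QX (h i (r + 1)) - QY (h i r) + RY (t i r) := by
    intro i r
    have e : t i (r + 1) = S (QX (h i (r + 1)) - QY (h i r) + RY (t i r)) := by
      rw [ht]
    rw [e, hS]
  obtain ⟨σ, hσ⟩ : ∃ σ : ι → ℕ → (W →ₗ[ℂ] ℂ), σ = fun i c =>
      if ∃ k, bl i = .kron k then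
        (if c < (bl i).rows then QX (h i c) - RX (t i c)
          else QY (h i ((bl i).rows - 1)) - RY (t i ((bl i).rows - 1))) else 0 := ⟨_, rfl⟩
  obtain ⟨τ, hτ⟩ : ∃ τ : Q →ₗ[ℂ] W →ₗ[ℂ] ℂ, ∀ i c, τ (bQ ⟨i, c⟩) = σ i c :=
    ⟨bQ.constr ℂ fun p => σ p.1 p.2, fun i c => by rw [Basis.constr_basis]⟩
  obtain ⟨T, hT⟩ : ∃ T : P →ₗ[ℂ] W, ∀ i r, T (bP ⟨i, r⟩) = if ∃ k, bl i = .kron k then t i r else 0 :=
    ⟨bP.constr ℂ fun p => if ∃ k, bl p.1 = .kron k then t p.1 p.2 else 0,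
      fun i r => by rw [Basis.constr_basis]⟩
  have e1 : QX = τ ∘ₗ X + RX ∘ₗ T := by
    refine bP.ext fun ⟨i, r⟩ => ?_
    rw [LinearMap.add_apply, LinearMap.comp_apply, LinearMap.comp_apply, (hb i r).1, map_sum, hT]
    simp only [map_smul, hτ]
    by_cases hk : ∃ k, bl i = .kron k
    · obtain ⟨k, hk'⟩ := hk
      rw [Syl_PA hk' r (σ i), if_pos ⟨k, hk'⟩, hσ]
      simp only
      rw [if_pos ⟨k, hk'⟩, if_pos r.2, hb' i r]
      abel
    · have hk' : ∀ k, bl i ≠ .kron k := fun k e => hk ⟨k, e⟩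
      rw [(hQ i r hk').1, if_neg hk, map_zero, add_zero]
      symm
      refine Finset.sum_eq_zero fun c _ => ?_
      rw [hσ]
      simp only
      rw [if_neg hk, smul_zero]
  have e2 : QY = τ ∘ₗ Y + RY ∘ₗ T := by
    refine bP.ext fun ⟨i, r⟩ => ?_
    rw [LinearMap.add_apply, LinearMap.comp_apply, LinearMap.comp_apply, (hb i r).2, map_sum, hT]
    simp only [map_smul, hτ]
    by_cases hk : ∃ k, bl i = .kron k
    · obtain ⟨k, hk'⟩ := hk
      rw [Syl_PB hk' r (σ i), if_pos ⟨k, hk'⟩, hσ]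
      simp only
      rw [if_pos ⟨k, hk'⟩]
      by_cases hr : (r : ℕ) + 1 < (bl i).rows
      · rw [if_pos hr, ht', hb' i r]
        abel
      · have e : (bl i).rows - 1 = r := by
          have := r.2
          omega
        rw [if_neg hr, e, hb' i r]
        abel
    · have hk' : ∀ k, bl i ≠ .kron k := fun k e => hk ⟨k, e⟩
      rw [(hQ i r hk').2, if_neg hk, map_zero, add_zero]
      symm
      refine Finset.sum_eq_zero fun c _ => ?_
      rw [hσ]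
      simp only
      rw [if_neg hk, smul_zero]
  refine ⟨T, τ.flip, fun i r hk => ?_, fun x w => ⟨?_, ?_⟩⟩
  · rw [hT, if_neg]
    rintro ⟨k, hk'⟩
    exact hk k hk'
  · conv_lhs => rw [e1]
    rfl
  · conv_lhs => rw [e2]
    rfl

end Pool.Agent.H21.JR
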