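import Pool.Agent.H21.JR.NilR

/-!
# Module WtP (about 110 lines): the weighted pencil

`wt w` is the unit of `BS` with the constant residues `w j v` on the Kronecker pieces and `1` on the good pieces;
`bjw w h = wt w * bj h`.

PROOFS. `rhoA r` is `rho r` as an algebra homomorphism. `rho_wt`, `cfs_mul_wt`: by cases on the index; the components of `wt w` are
constants: `cf1 (y * algebraMap z) = z * cf1 y` (write `y * algebraMap z = z • y`, `Algebra.smul_def`, `map_smul`).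
`wt_dec`: `BW w s h = s * (wt w * bj h) = BX (s * wt w) h`. Apply `big_pencil` to `x * wt w`, `a * wt w`: its three conditions follow
from `h1`, `h2`, `h3` by `rho_mul_wt`, `cfs_mul_wt`, `rho_wt_ne` (a common nonzero factor: `rho r (wt) * rho r' (wt)`), and
`rho r (x * wt) / rho r (a * wt) = rho r x / rho r a`. It gives `bP`, `bQ`; the last claim is `nil_res` for `x * wt w`, `a * wt w`. (The blocks
of the two pencils agree: rewrite the function `t` with `funext` before taking the bases.)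
-/

namespace Pool.Agent.H21.JR

open Module Pool.Agent.H4.JK

section Big

variable {κ γ : Type} [Fintype κ] [Fintype γ] [DecidableEq κ] [DecidableEq γ]
  (k : κ → ℕ) (τ : (j : κ) → Fin (k j + 1) → Type) [∀ j i, Fintype (τ j i)]
  [∀ j i, DecidableEq (τ j i)] (m : (j : κ) → (i : Fin (k j + 1)) → τ j i → ℕ)
  (n : γ → ℕ) (σ : γ → Type) [∀ g, Fintype (σ g)] [∀ g, DecidableEq (σ g)]
  (m' : (g : γ) → σ g → ℕ)

/-- the residues as algebra homomorphisms. -/
noncomputable def rhoA (r : RR (γ := γ) k) : BS k τ m n σ m' →ₐ[ℂ] ℂ :=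
  AlgHom.ofLinearMap (rho k τ m n σ m' r) (rho_one k τ m n σ m' r) (by
    intro s s'
    cases r with
    | inl z => rfl
    | inr g => exact map_mul (res (n g)) _ _)

theorem rhoA_apply (r : RR (γ := γ) k) (s : BS k τ m n σ m') :
    rhoA k τ m n σ m' r s = rho k τ m n σ m' r s := rfl

/-- the weight element. -/
noncomputable def wt (w : (j : κ) → Fin (k j + 1) → ℂ) : BS k τ m n σ m' :=
  (fun j => kconst (k j) (τ j) (m j) (w j), 1)

/-- the values of the weight element. -/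
def wv (w : (j : κ) → Fin (k j + 1) → ℂ) : RR (γ := γ) k → ℂ
  | .inl z => w z.1 z.2
  | .inr _ => 1

theorem rho_wt (w : (j : κ) → Fin (k j + 1) → ℂ) (r : RR (γ := γ) k) :
    rho k τ m n σ m' r (wt k τ m n σ m' w) = wv k w r := by
  cases r with
  | inl z => rfl
  | inr g => exact map_one (res (n g))

theorem rho_mul_wt (w : (j : κ) → Fin (k j + 1) → ℂ) (r : RR (γ := γ) k)
    (s : BS k τ m n σ m') :
    rho k τ m n σ m' r (s * wt k τ m n σ m' w) = rho k τ m n σ m' r s * wv k w r := by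
  have h := map_mul (rhoA k τ m n σ m' r) s (wt k τ m n σ m' w)
  rw [rhoA_apply, rhoA_apply, rhoA_apply, rho_wt] at h
  exact h

theorem cfs_mul_wt (w : (j : κ) → Fin (k j + 1) → ℂ) (p : PP k τ n σ)
    (s : BS k τ m n σ m') :
    cfs k τ m n σ m' p (s * wt k τ m n σ m' w) =
      cfs k τ m n σ m' p s * wv k w (slot k τ n σ p) := by
  rcases p with z | z | g
  · change cf1 _ ((s.1 z.1).1.2 z.2 * algebraMap ℂ (TA (m z.1 z.2.1 z.2.2)) (w z.1 z.2.1)) =
      cf1 _ ((s.1 z.1).1.2 z.2) * w z.1 z.2.1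
    rw [mul_comm, ← Algebra.smul_def, map_smul, smul_eq_mul, mul_comm]
  · change cf1 _ ((s.2 z.1).1.2 z.2 * 1) = cf1 _ ((s.2 z.1).1.2 z.2) * 1
    rw [mul_one, mul_one]
  · change cf1 _ ((s.2 g.1).1.1 * 1) = cf1 _ ((s.2 g.1).1.1) * 1
    rw [mul_one, mul_one]

/-- the weighted inclusion. -/
noncomputable def bjw (w : (j : κ) → Fin (k j + 1) → ℂ) :
    BH k τ m n σ m' →ₗ[ℂ] BS k τ m n σ m' :=
  (LinearMap.mulLeft ℂ (wt k τ m n σ m' w)).comp (bj k τ m n σ m')

/-- the maps of the weighted pencil. -/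
noncomputable abbrev BW (w : (j : κ) → Fin (k j + 1) → ℂ) (s : BS k τ m n σ m') :
    BH k τ m n σ m' →ₗ[ℂ] BS k τ m n σ m' :=
  MX (H := BH k τ m n σ m') (S := BS k τ m n σ m') (bjw k τ m n σ m' w) s

theorem BW_eq (w : (j : κ) → Fin (k j + 1) → ℂ) (s : BS k τ m n σ m') :
    BW k τ m n σ m' w s = BX k τ m n σ m' (s * wt k τ m n σ m' w) := by
  refine LinearMap.ext fun h => ?_
  change s * (wt k τ m n σ m' w * bj k τ m n σ m' h) =
    s * wt k τ m n σ m' w * bj k τ m n σ m' h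
  rw [mul_assoc]

theorem rho_bjw (w : (j : κ) → Fin (k j + 1) → ℂ) (z : Σ j : κ, Fin (k j + 1))
    (h : BH k τ m n σ m') :
    rho k τ m n σ m' (.inl z) (bjw k τ m n σ m' w h) =
      w z.1 z.2 * rho k τ m n σ m' (.inl z) (bj k τ m n σ m' h) := by
  have h1 : bjw k τ m n σ m' w h = bj k τ m n σ m' h * wt k τ m n σ m' w := mul_comm _ _
  rw [h1, rho_mul_wt]
  exact mul_comm _ _

private theorem wv_ne (w : (j : κ) → Fin (k j + 1) → ℂ) (hw : ∀ j v, w j v ≠ 0)
    (r : RR (γ := γ) k) : wv k w r ≠ 0 := by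
  cases r with
  | inl z => exact hw z.1 z.2
  | inr g => exact one_ne_zero

theorem wt_dec (hm' : ∀ g p, m' g p ≤ n g) (w : (j : κ) → Fin (k j + 1) → ℂ)
    (hw : ∀ j v, w j v ≠ 0) (x a : BS k τ m n σ m')
    (h1 : ∀ r, rho k τ m n σ m' r a ≠ 0)
    (h2 : ∀ r r', r ≠ r' → rho k τ m n σ m' r x * rho k τ m n σ m' r' a -
      rho k τ m n σ m' r' x * rho k τ m n σ m' r a ≠ 0)
    (h3 : ∀ p, cfs k τ m n σ m' p x * rho k τ m n σ m' (slot k τ n σ p) a -
      rho k τ m n σ m' (slot k τ n σ p) x * cfs k τ m n σ m' p a ≠ 0) :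
    ∃ (bP : Basis (Σ i, Fin (bbl k τ m n σ m'
        (fun r => rho k τ m n σ m' r x / rho k τ m n σ m' r a) i).rows) ℂ (BH k τ m n σ m'))
      (bQ : Basis (Σ i, Fin (bbl k τ m n σ m'
        (fun r => rho k τ m n σ m' r x / rho k τ m n σ m' r a) i).cols) ℂ (BS k τ m n σ m')),
      (∀ i r, BW k τ m n σ m' w x (bP ⟨i, r⟩) = ∑ c, (bbl k τ m n σ m'
          (fun r => rho k τ m n σ m' r x / rho k τ m n σ m' r a) i).PA r c • bQ ⟨i, c⟩ ∧
        BW k τ m n σ m' w a (bP ⟨i, r⟩) = ∑ c, (bbl k τ m n σ m'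
          (fun r => rho k τ m n σ m' r x / rho k τ m n σ m' r a) i).PB r c • bQ ⟨i, c⟩) ∧
      ∀ i r, (∀ l, bbl k τ m n σ m'
          (fun r => rho k τ m n σ m' r x / rho k τ m n σ m' r a) i ≠ .kron l) →
        ∀ z : Σ j : κ, Fin (k j + 1),
          rho k τ m n σ m' (.inl z) (bjw k τ m n σ m' w (bP ⟨i, r⟩)) = 0 := by
  have hW := wv_ne k w hw (γ := γ)
  have g1 : ∀ r, rho k τ m n σ m' r (a * wt k τ m n σ m' w) ≠ 0 := by
    intro r
    rw [rho_mul_wt]
    exact mul_ne_zero (h1 r) (hW r)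
  have g2 : ∀ r r', r ≠ r' → rho k τ m n σ m' r (x * wt k τ m n σ m' w) *
      rho k τ m n σ m' r' (a * wt k τ m n σ m' w) -
      rho k τ m n σ m' r' (x * wt k τ m n σ m' w) *
      rho k τ m n σ m' r (a * wt k τ m n σ m' w) ≠ 0 := by
    intro r r' hr
    rw [rho_mul_wt, rho_mul_wt, rho_mul_wt, rho_mul_wt]
    have h := mul_ne_zero (h2 r r' hr) (mul_ne_zero (hW r) (hW r'))
    intro h4
    apply h
    linear_combination h4
  have g3 : ∀ p, cfs k τ m n σ m' p (x * wt k τ m n σ m' w) *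
      rho k τ m n σ m' (slot k τ n σ p) (a * wt k τ m n σ m' w) -
      rho k τ m n σ m' (slot k τ n σ p) (x * wt k τ m n σ m' w) *
      cfs k τ m n σ m' p (a * wt k τ m n σ m' w) ≠ 0 := by
    intro p
    rw [rho_mul_wt, rho_mul_wt, cfs_mul_wt, cfs_mul_wt]
    have h := mul_ne_zero (h3 p) (mul_ne_zero (hW (slot k τ n σ p)) (hW (slot k τ n σ p)))
    intro h4
    apply h
    linear_combination h4
  have key : ∀ T : RR (γ := γ) k → ℂ, (fun r => rho k τ m n σ m' r (x * wt k τ m n σ m' w) /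
      rho k τ m n σ m' r (a * wt k τ m n σ m' w)) = T →
      ∃ (bP : Basis (Σ i, Fin (bbl k τ m n σ m' T i).rows) ℂ (BH k τ m n σ m'))
        (bQ : Basis (Σ i, Fin (bbl k τ m n σ m' T i).cols) ℂ (BS k τ m n σ m')),
        (∀ i r, BW k τ m n σ m' w x (bP ⟨i, r⟩) =
            ∑ c, (bbl k τ m n σ m' T i).PA r c • bQ ⟨i, c⟩ ∧
          BW k τ m n σ m' w a (bP ⟨i, r⟩) =
            ∑ c, (bbl k τ m n σ m' T i).PB r c • bQ ⟨i, c⟩) ∧
        ∀ i r, (∀ l, bbl k τ m n σ m' T i ≠ .kron l) →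
          ∀ z : Σ j : κ, Fin (k j + 1),
            rho k τ m n σ m' (.inl z) (bjw k τ m n σ m' w (bP ⟨i, r⟩)) = 0 := by
    intro T hT
    subst hT
    obtain ⟨bP, bQ, hb⟩ := big_pencil k τ m n σ m' hm' (x * wt k τ m n σ m' w)
      (a * wt k τ m n σ m' w) g1 g2 g3
    refine ⟨bP, bQ, ?_, ?_⟩
    · intro i r
      rw [BW_eq, BW_eq]
      exact hb i r
    · intro i r hi z
      rw [rho_bjw, nil_res k τ m n σ m' (x * wt k τ m n σ m' w) (a * wt k τ m n σ m' w)
        g1 g2 bP bQ hb i r hi z, mul_zero]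
  refine key _ (funext fun r => ?_)
  rw [rho_mul_wt, rho_mul_wt]
  exact mul_div_mul_right _ _ (hW r)

end Big

end Pool.Agent.H21.JR
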