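import Pool.Agent.H21.JR.Alg
import Pool.Agent.H21.JR.Cyc

/-!
# Module Xid (about 110 lines): the data `XD` of the extended algebra

`ZD S` is one cyclic operator: size `n + 1` over `TA μ`, constant `c`, and multiplicative functionals `P i`, `Q i` of `S`;
`Clo j z` is the closing condition. `XiO d s` is the product of the cyclic operators at `s`. The weights:
`al z i h = ∑_{l < i} (Q l - P l) (j h)`, `be z i h = P i (j h) - al z i h`.

PROOFS. `XiO_mul` (the condition `hX` of `HD`), component `(z, i)`: the left side is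
`P_i(j h) P_i(s) • ξ_i - Q_i(j h) Q_i(s) • (θ_i ξ_(i+1))`, the right side
`al_i P_i(s) • ξ_i - Q_i(s) al_(i+1) • (θ_i ξ_(i+1)) + be_i • (P_i(s) • ξ_i - Q_i(s) • (θ_i ξ_(i+1)))`, so what is needed is
`al_i + be_i = P_i(j h)` (definition) and `al_(i+1) + be_i = Q_i(j h)`, i.e. `al_step`: `al_(i+1) = al_i + Q_i(j h) - P_i(j h)`;
for `i < last` split off the last term of the sum, for `i = last` we have `i + 1 = 0`, `al_0 = 0` (empty sum) and
`al_last + Q_last(j h) - P_last(j h)` is the full sum `∑ (Q_l - P_l) (j h) = 0` (closing condition).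
-/

namespace Pool.Agent.H21.JR

open Module Pool.Agent.H4.JK Polynomial

/-- One cyclic operator. -/
structure ZD (S : Type) [CommRing S] [Algebra ℂ S] where
  n : ℕ
  μ : ℕ
  c : ℂ
  P : Fin (n + 1) → S →ₐ[ℂ] ℂ
  Q : Fin (n + 1) → S →ₐ[ℂ] ℂ

variable {H S : Type} [AddCommGroup H] [Module ℂ H] [CommRing S] [Algebra ℂ S]

/-- The closing condition. -/
def Clo (j : H →ₗ[ℂ] S) (z : ZD S) : Prop := ∀ h, ∑ i, z.Q i (j h) = ∑ i, z.P i (j h)

/-- The space of the cyclic operator. -/
abbrev ZD.V (z : ZD S) : Type := Fin (z.n + 1) → TA z.μ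

/-- The cyclic operator at `s`. -/
noncomputable def ZD.op (z : ZD S) : S →ₗ[ℂ] z.V →ₗ[ℂ] z.V where
  toFun s := cyc z.n z.μ z.c (fun i => z.P i s) (fun i => z.Q i s)
  map_add' s s' := by
    rw [← cyc_add]
    congr 1 <;> (funext i; simp)
  map_smul' a s := by
    rw [RingHom.id_apply, ← cyc_smul]
    congr 1 <;> (funext i; simp)

theorem ZD.op_apply (z : ZD S) (s : S) :
    z.op s = cyc z.n z.μ z.c (fun i => z.P i s) (fun i => z.Q i s) := rfl

/-- The weight `al i`. -/
noncomputable def al (j : H →ₗ[ℂ] S) (z : ZD S) (i : Fin (z.n + 1)) : H →ₗ[ℂ] ℂ :=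
  ∑ l ∈ Finset.univ.filter (· < i), ((z.Q l).toLinearMap.comp j - (z.P l).toLinearMap.comp j)

/-- The weight `be i`. -/
noncomputable def be (j : H →ₗ[ℂ] S) (z : ZD S) (i : Fin (z.n + 1)) : H →ₗ[ℂ] ℂ :=
  (z.P i).toLinearMap.comp j - al j z i

private theorem xid_al_apply (j : H →ₗ[ℂ] S) (z : ZD S) (i : Fin (z.n + 1)) (h : H) :
    al j z i h = ∑ l ∈ Finset.univ.filter (· < i), (z.Q l (j h) - z.P l (j h)) := by
  unfold al
  rw [LinearMap.sum_apply]
  rfl

theorem al_step (j : H →ₗ[ℂ] S) (z : ZD S) (hz : Clo j z) (i : Fin (z.n + 1)) (h : H) :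
    al j z (i + 1) h = al j z i h + z.Q i (j h) - z.P i (j h) := by
  rw [xid_al_apply, xid_al_apply]
  by_cases hi : i = Fin.last z.n
  · subst hi
    have h0 : (Fin.last z.n + 1 : Fin (z.n + 1)) = 0 := Fin.last_add_one z.n
    have e1 : Finset.univ.filter (· < (Fin.last z.n + 1 : Fin (z.n + 1))) = ∅ := by
      rw [h0]
      refine Finset.filter_eq_empty_iff.2 fun x _ => ?_
      exact not_lt.2 (Fin.zero_le x)
    have e2 : (Finset.univ : Finset (Fin (z.n + 1))) =
        insert (Fin.last z.n) (Finset.univ.filter (· < Fin.last z.n)) := by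
      ext x
      simp only [Finset.mem_univ, Finset.mem_insert, Finset.mem_filter, true_and, true_iff]
      rcases lt_or_eq_of_le (Fin.le_last x) with h1 | h1
      · exact Or.inr h1
      · exact Or.inl h1
    have e3 : ∑ l : Fin (z.n + 1), (z.Q l (j h) - z.P l (j h)) = 0 := by
      rw [Finset.sum_sub_distrib, hz h, sub_self]
    rw [e2, Finset.sum_insert (by simp)] at e3
    rw [e1, Finset.sum_empty]
    linear_combination -e3
  · have hv : ((i + 1 : Fin (z.n + 1)) : ℕ) = (i : ℕ) + 1 := by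
      rw [Fin.val_add_one, if_neg hi]
    have e1 : Finset.univ.filter (· < (i + 1 : Fin (z.n + 1))) =
        insert i (Finset.univ.filter (· < i)) := by
      ext x
      simp only [Finset.mem_univ, Finset.mem_insert, Finset.mem_filter, true_and]
      rw [Fin.lt_def, Fin.lt_def, Fin.ext_iff, hv]
      omega
    rw [e1, Finset.sum_insert (by simp)]
    ring

/-- Diagonal operators with given weights. -/
noncomputable def dgo {n μ : ℕ} (w : Fin (n + 1) → H →ₗ[ℂ] ℂ) :
    H →ₗ[ℂ] (Fin (n + 1) → TA μ) →ₗ[ℂ] (Fin (n + 1) → TA μ) :=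
  LinearMap.mk₂ ℂ (fun h ξ => fun i => w i h • ξ i)
    (fun h h' ξ => by funext i; simp only [map_add, add_smul, Pi.add_apply])
    (fun a h ξ => by funext i; simp only [map_smul, smul_eq_mul, mul_smul, Pi.smul_apply])
    (fun h ξ η => by funext i; simp only [Pi.add_apply, smul_add])
    (fun a h ξ => by funext i; simp only [Pi.smul_apply, smul_comm a])

theorem dgo_apply {n μ : ℕ} (w : Fin (n + 1) → H →ₗ[ℂ] ℂ) (h : H) (ξ : Fin (n + 1) → TA μ)
    (i : Fin (n + 1)) : dgo w h ξ i = w i h • ξ i := rfl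

theorem op_mul (j : H →ₗ[ℂ] S) (z : ZD S) (hz : Clo j z) (h : H) (s : S) (ξ : z.V) :
    z.op (j h * s) ξ = z.op s (dgo (al j z) h ξ) + dgo (be j z) h (z.op s ξ) := by
  funext i
  rw [Pi.add_apply, dgo_apply, ZD.op_apply, ZD.op_apply, cyc_apply, cyc_apply, cyc_apply,
    dgo_apply, dgo_apply, al_step j z hz i h]
  have hb : be j z i h = z.P i (j h) - al j z i h := rfl
  rw [hb, map_mul, map_mul, mul_smul_comm]
  module

/-- Products of families of operators. -/
noncomputable def prO {Z : Type} {V : Z → Type} [∀ z, AddCommGroup (V z)] [∀ z, Module ℂ (V z)]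
    {E : Type} [AddCommGroup E] [Module ℂ E] (f : (z : Z) → E →ₗ[ℂ] V z →ₗ[ℂ] V z) :
    E →ₗ[ℂ] ((z : Z) → V z) →ₗ[ℂ] ((z : Z) → V z) :=
  LinearMap.mk₂ ℂ (fun e ξ => fun z => f z e (ξ z))
    (fun e e' ξ => by funext z; simp only [map_add, LinearMap.add_apply, Pi.add_apply])
    (fun a e ξ => by funext z; simp only [map_smul, LinearMap.smul_apply, Pi.smul_apply])
    (fun e ξ η => by funext z; simp only [Pi.add_apply, map_add])
    (fun a e ξ => by funext z; simp only [Pi.smul_apply, map_smul])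

theorem prO_apply {Z : Type} {V : Z → Type} [∀ z, AddCommGroup (V z)] [∀ z, Module ℂ (V z)]
    {E : Type} [AddCommGroup E] [Module ℂ E] (f : (z : Z) → E →ₗ[ℂ] V z →ₗ[ℂ] V z) (e : E)
    (ξ : (z : Z) → V z) (z : Z) : prO f e ξ z = f z e (ξ z) := rfl

/-- The data of the extended algebra. -/
noncomputable def XD (j : H →ₗ[ℂ] S) {Z : Type} (d : Z → ZD S) (hd : ∀ z, Clo j (d z)) :
    HD H S ((z : Z) → (d z).V) where
  j := j
  Ξ := prO fun z => (d z).op
  A := prO fun z => dgo (al j (d z))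
  B := prO fun z => dgo (be j (d z))
  hA h h' u := by
    funext z i
    simp only [prO_apply, dgo_apply]
    rw [smul_comm]
  hB h h' u := by
    funext z i
    simp only [prO_apply, dgo_apply]
    rw [smul_comm]
  hX h s u := by
    funext z
    exact op_mul j (d z) (hd z) h s (u z)

end Pool.Agent.H21.JR
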