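import Mathlib

/-!
# Module ZSol (about 60 lines): the equations for the double family `z`

PROOF. Let `F i r i' r' = EB i r i' r' - (EA i (r+1) i' r' - EA i' (r'+1) i r) / 2`; it is skew:
`F i' r' i r = - F i r i' r'` (by the two hypotheses). Let
`G i r i' r' = ∑ u ∈ range r, F i (r - 1 - u) i' (r' + u)`. Then `G i (r+1) i' r' - G i r i' (r'+1) = F i r i' r'`
(`Finset.sum_range_succ'`: the term `u = 0` of the first sum is `F i r i' r'`, the term `u + 1` is
`F i (r - 1 - u) i' (r' + 1 + u)`). Let `σ i r i' r' = (G i r i' r' + G i' r' i r) / 2` (symmetric) and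
`z i r i' r' = EA i r i' r' / 2 + σ i r i' r'`. First claim: `z i r i' r' - z i' r' i r = (EA i r i' r' - EA i' r' i r) / 2 =
EA i r i' r'`. Second claim: `σ i (r+1) i' r' - σ i' (r'+1) i r = σ i (r+1) i' r' - σ i r i' (r'+1)
= (F i r i' r' - F i' r' i r) / 2 = F i r i' r'` and the `EA` terms give the rest.
-/

namespace Pool.Agent.H21.JR

theorem zsolve {ι : Type} (EA EB : ι → ℕ → ι → ℕ → ℂ)
    (hA : ∀ i r i' r', EA i r i' r' = - EA i' r' i r)
    (hB : ∀ i r i' r', EB i r i' r' = - EB i' r' i r) :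
    ∃ z : ι → ℕ → ι → ℕ → ℂ, ∀ i r i' r',
      EA i r i' r' = z i r i' r' - z i' r' i r ∧
      EB i r i' r' = z i (r + 1) i' r' - z i' (r' + 1) i r := by
  let F : ι → ℕ → ι → ℕ → ℂ := fun i r i' r' =>
    EB i r i' r' - (EA i (r + 1) i' r' - EA i' (r' + 1) i r) / 2
  have hF : ∀ i r i' r', F i' r' i r = - F i r i' r' := by
    intro i r i' r'
    have h1 := hB i r i' r'
    simp only [F]
    rw [h1]
    ring
  let G : ι → ℕ → ι → ℕ → ℂ := fun i r i' r' =>
    ∑ u ∈ Finset.range r, F i (r - 1 - u) i' (r' + u)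
  have hG : ∀ i r i' r', G i (r + 1) i' r' - G i r i' (r' + 1) = F i r i' r' := by
    intro i r i' r'
    simp only [G]
    rw [Finset.sum_range_succ']
    have h2 : ∑ u ∈ Finset.range r, F i (r + 1 - 1 - (u + 1)) i' (r' + (u + 1)) =
        ∑ u ∈ Finset.range r, F i (r - 1 - u) i' (r' + 1 + u) := by
      refine Finset.sum_congr rfl (fun u _ => ?_)
      have e1 : r + 1 - 1 - (u + 1) = r - 1 - u := by omega
      have e2 : r' + (u + 1) = r' + 1 + u := by omega
      rw [e1, e2]
    rw [h2]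
    simp
  refine ⟨fun i r i' r' => EA i r i' r' / 2 + (G i r i' r' + G i' r' i r) / 2, ?_⟩
  intro i r i' r'
  constructor
  · have h1 := hA i r i' r'
    have h2 : EA i' r' i r = - EA i r i' r' := by rw [h1, neg_neg]
    simp only []
    rw [h2]
    ring
  · have h1 := hG i r i' r'
    have h2 := hG i' r' i r
    have h3 := hF i r i' r'
    have h4 : F i r i' r' = EB i r i' r' - (EA i (r + 1) i' r' - EA i' (r' + 1) i r) / 2 := rfl
    simp only []
    rw [h3] at h2
    linear_combination (-1 : ℂ) * h4 - h1 / 2 + h2 / 2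

end Pool.Agent.H21.JR
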